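import Mathlib

/-!
# Plane vectors: dot and cross product, discs of radius one around finitely many points
-/

set_option autoImplicit false

open Real Set Filter Topology

namespace Pool.Agent.K7.H36.RP

/-- dot product -/
def dt (z w : ℂ) : ℝ := z.re * w.re + z.im * w.im

/-- cross product -/
def cr (z w : ℂ) : ℝ := z.re * w.im - z.im * w.re

/-- unit vector of direction `t` -/
noncomputable def ev (t : ℝ) : ℂ := ⟨Real.cos t, Real.sin t⟩

@[simp] lemma ev_re (t : ℝ) : (ev t).re = Real.cos t := rfl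
@[simp] lemma ev_im (t : ℝ) : (ev t).im = Real.sin t := rfl

lemma dt_self (z : ℂ) : dt z z = ‖z‖ ^ 2 := by
  rw [Complex.sq_norm, Complex.normSq_apply]; rfl

lemma dt_ev (t : ℝ) : dt (ev t) (ev t) = 1 := by
  simp only [dt, ev_re, ev_im]; nlinarith [Real.sin_sq_add_cos_sq t]

lemma dt_comm (z w : ℂ) : dt z w = dt w z := by simp only [dt]; ring
lemma cr_comm (z w : ℂ) : cr z w = - cr w z := by simp only [cr]; ring
lemma dt_add_left (a b c : ℂ) : dt (a + b) c = dt a c + dt b c := by
  simp only [dt, Complex.add_re, Complex.add_im]; ring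
lemma dt_sub_left (a b c : ℂ) : dt (a - b) c = dt a c - dt b c := by
  simp only [dt, Complex.sub_re, Complex.sub_im]; ring
lemma dt_add_right (a b c : ℂ) : dt c (a + b) = dt c a + dt c b := by
  simp only [dt, Complex.add_re, Complex.add_im]; ring
lemma dt_sub_right (a b c : ℂ) : dt c (a - b) = dt c a - dt c b := by
  simp only [dt, Complex.sub_re, Complex.sub_im]; ring
lemma dt_neg_left (a c : ℂ) : dt (-a) c = - dt a c := by
  simp only [dt, Complex.neg_re, Complex.neg_im]; ring
lemma dt_neg_right (a c : ℂ) : dt c (-a) = - dt c a := by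
  simp only [dt, Complex.neg_re, Complex.neg_im]; ring
lemma dt_smul_left (r : ℝ) (a c : ℂ) : dt (r • a) c = r * dt a c := by
  simp only [dt, Complex.real_smul, Complex.mul_re, Complex.mul_im, Complex.ofReal_re,
    Complex.ofReal_im]; ring
lemma dt_smul_right (r : ℝ) (a c : ℂ) : dt c (r • a) = r * dt c a := by
  rw [dt_comm, dt_smul_left, dt_comm]
lemma cr_add_left (a b c : ℂ) : cr (a + b) c = cr a c + cr b c := by
  simp only [cr, Complex.add_re, Complex.add_im]; ring
lemma cr_sub_left (a b c : ℂ) : cr (a - b) c = cr a c - cr b c := by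
  simp only [cr, Complex.sub_re, Complex.sub_im]; ring
lemma cr_add_right (a b c : ℂ) : cr c (a + b) = cr c a + cr c b := by
  simp only [cr, Complex.add_re, Complex.add_im]; ring
lemma cr_sub_right (a b c : ℂ) : cr c (a - b) = cr c a - cr c b := by
  simp only [cr, Complex.sub_re, Complex.sub_im]; ring
lemma cr_neg_left (a c : ℂ) : cr (-a) c = - cr a c := by
  simp only [cr, Complex.neg_re, Complex.neg_im]; ring
lemma cr_neg_right (a c : ℂ) : cr c (-a) = - cr c a := by
  simp only [cr, Complex.neg_re, Complex.neg_im]; ring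
lemma cr_smul_left (r : ℝ) (a c : ℂ) : cr (r • a) c = r * cr a c := by
  simp only [cr, Complex.real_smul, Complex.mul_re, Complex.mul_im, Complex.ofReal_re,
    Complex.ofReal_im]; ring
lemma cr_smul_right (r : ℝ) (a c : ℂ) : cr c (r • a) = r * cr c a := by
  simp only [cr, Complex.real_smul, Complex.mul_re, Complex.mul_im, Complex.ofReal_re,
    Complex.ofReal_im]; ring
@[simp] lemma cr_self (a : ℂ) : cr a a = 0 := by simp only [cr]; ring
@[simp] lemma dt_zero_left (a : ℂ) : dt 0 a = 0 := by simp [dt]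
@[simp] lemma dt_zero_right (a : ℂ) : dt a 0 = 0 := by simp [dt]
@[simp] lemma cr_zero_left (a : ℂ) : cr 0 a = 0 := by simp [cr]
@[simp] lemma cr_zero_right (a : ℂ) : cr a 0 = 0 := by simp [cr]

lemma dt_self_nonneg (z : ℂ) : 0 ≤ dt z z := by
  simp only [dt]; nlinarith [mul_self_nonneg z.re, mul_self_nonneg z.im]

lemma dt_self_eq_zero {z : ℂ} : dt z z = 0 ↔ z = 0 := by
  rw [dt_self]; simp

/-- Lagrange -/
lemma lagr (z w : ℂ) : dt z w ^ 2 + cr z w ^ 2 = dt z z * dt w w := by
  simp only [dt, cr]; ring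

lemma dt_le (z w : ℂ) : dt z w ≤ ‖z‖ * ‖w‖ := by
  have h := lagr z w
  rw [dt_self, dt_self] at h
  have h1 : dt z w ^ 2 ≤ (‖z‖ * ‖w‖) ^ 2 := by nlinarith [sq_nonneg (cr z w)]
  exact le_trans (le_abs_self _) (abs_le_of_sq_le_sq h1 (by positivity))

lemma abs_dt_le (z w : ℂ) : |dt z w| ≤ ‖z‖ * ‖w‖ := by
  rw [abs_le]
  constructor
  · have := dt_le (-z) w
    rw [dt_neg_left, norm_neg] at this; linarith
  · exact dt_le z w

lemma abs_cr_le (z w : ℂ) : |cr z w| ≤ ‖z‖ * ‖w‖ := by
  have h := lagr z w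
  rw [dt_self, dt_self] at h
  have h1 : cr z w ^ 2 ≤ (‖z‖ * ‖w‖) ^ 2 := by nlinarith [sq_nonneg (dt z w)]
  exact abs_le_of_sq_le_sq h1 (by positivity)

/-- the planar identity expressing `n` through two vectors -/
lemma expand (n a b : ℂ) : cr a b • n = cr n b • a + cr a n • b := by
  apply Complex.ext <;>
  simp only [cr, Complex.real_smul, Complex.mul_re, Complex.mul_im, Complex.ofReal_re,
    Complex.ofReal_im, Complex.add_re, Complex.add_im] <;> ring

lemma norm_ev (t : ℝ) : ‖ev t‖ = 1 := by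
  have h := dt_ev t
  rw [dt_self] at h
  nlinarith [norm_nonneg (ev t), sq_nonneg (‖ev t‖ - 1)]

lemma ev_eq : ev = fun t : ℝ => ((Real.cos t : ℝ) : ℂ) + ((Real.sin t : ℝ) : ℂ) * Complex.I := by
  funext t
  apply Complex.ext
  · rw [Complex.add_re, Complex.re_ofReal_mul, Complex.ofReal_re, Complex.I_re]; simp [ev]
  · rw [Complex.add_im, Complex.im_ofReal_mul, Complex.ofReal_im, Complex.I_im]; simp [ev]

lemma continuous_ev : Continuous ev := by
  rw [ev_eq]; fun_prop

lemma hasDerivAt_ev (t : ℝ) : HasDerivAt ev (Complex.I * ev t) t := by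
  have h1 : HasDerivAt (fun t : ℝ => ((Real.cos t : ℝ) : ℂ)) ((-Real.sin t : ℝ) : ℂ) t :=
    (Real.hasDerivAt_cos t).ofReal_comp
  have h2 : HasDerivAt (fun t : ℝ => ((Real.sin t : ℝ) : ℂ)) ((Real.cos t : ℝ) : ℂ) t :=
    (Real.hasDerivAt_sin t).ofReal_comp
  have h3 := h1.fun_add (h2.mul_const Complex.I)
  have h4 : ((-Real.sin t : ℝ) : ℂ) + ((Real.cos t : ℝ) : ℂ) * Complex.I = Complex.I * ev t := by
    apply Complex.ext
    · rw [Complex.add_re, Complex.re_ofReal_mul, Complex.ofReal_re, Complex.I_re]; simp [ev]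
    · rw [Complex.add_im, Complex.im_ofReal_mul, Complex.ofReal_im, Complex.I_im]; simp [ev]
  rw [← h4]
  rw [show ev = _ from ev_eq]
  exact h3

lemma ev_add_pi (t : ℝ) : ev (t + π) = - ev t := by
  apply Complex.ext <;> simp [ev]

lemma ev_add_two_pi (t : ℝ) : ev (t + 2 * π) = ev t := by
  apply Complex.ext <;> simp [ev]

/-- every unit vector is some `ev t` -/
lemma exists_ev {n : ℂ} (hn : dt n n = 1) : ∃ t : ℝ, ev t = n := by
  refine ⟨Complex.arg n, ?_⟩
  have h1 : ‖n‖ = 1 := by
    rw [dt_self] at hn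
    nlinarith [norm_nonneg n, sq_nonneg (‖n‖ - 1)]
  have hn0 : n ≠ 0 := by intro h; simp [h] at h1
  apply Complex.ext
  · simp [ev, Complex.cos_arg hn0, h1]
  · simp [ev, Complex.sin_arg, h1]

end Pool.Agent.K7.H36.RP
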