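import Pool.Agent.K7.H36.RP.MainIneq

/-!
# Cones in the plane
-/

set_option autoImplicit false

open Real Set Filter Topology MeasureTheory

namespace Pool.Agent.K7.H36.RP

/-- coordinates with respect to a unit vector -/
lemma dt_coord {n : ℂ} (hn : dt n n = 1) (a b : ℂ) :
    dt a b = dt a n * dt b n + cr n a * cr n b := by
  have : dt n n * dt a b = dt a n * dt b n + cr n a * cr n b := by
    simp only [dt, cr]; ring
  rw [hn, one_mul] at this
  exact this

lemma cr_coord {n : ℂ} (hn : dt n n = 1) (a b : ℂ) :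
    cr a b = dt a n * cr n b - cr n a * dt b n := by
  have : dt n n * cr a b = dt a n * cr n b - cr n a * dt b n := by
    simp only [dt, cr]; ring
  rw [hn, one_mul] at this
  exact this

/-- scalar version of the cone lemma -/
lemma cone_aux {w z p1 q1 p2 q2 : ℝ} (hq1 : 0 < q1) (hq2 : 0 < q2) (h1 : p1 ^ 2 + q1 ^ 2 = 1)
    (h2 : p2 ^ 2 + q2 ^ 2 = 1) (hD : 0 < p1 * q2 + q1 * p2) (hw : 0 < w)
    (hwz : w ^ 2 + z ^ 2 ≤ 1) (hp1 : p1 ≤ w) (hp2 : p2 ≤ w) : 0 ≤ w * q2 - z * p2 := by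
  rcases le_or_gt z 0 with hz | hz
  · rcases le_or_gt 0 p2 with hp | hp
    · nlinarith [mul_nonneg (neg_nonneg.2 hz) hp, mul_pos hw hq2]
    · -- z ≤ 0, p2 < 0
      have hp1' : 0 < p1 := by
        by_contra hcon
        push Not at hcon
        nlinarith [mul_nonneg (neg_nonneg.2 hcon) hq2.le, mul_pos hq1 (neg_pos.2 hp)]
      have hz1 : -z ≤ q1 := by
        have : (-z) ^ 2 ≤ q1 ^ 2 := by nlinarith
        exact le_of_sq_le_sq this hq1.le
      have e1 : (-z) * (-p2) ≤ q1 * (-p2) := mul_le_mul_of_nonneg_right hz1 (by linarith)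
      have e2 : p1 * q2 ≤ w * q2 := mul_le_mul_of_nonneg_right hp1 hq2.le
      nlinarith
  · rcases le_or_gt p2 0 with hp | hp
    · nlinarith [mul_nonneg hz.le (neg_nonneg.2 hp), mul_pos hw hq2]
    · have hz1 : z ≤ q2 := by
        have : z ^ 2 ≤ q2 ^ 2 := by nlinarith
        exact le_of_sq_le_sq this hq2.le
      have e1 : z * p2 ≤ q2 * p2 := mul_le_mul_of_nonneg_right hz1 hp.le
      have e2 : q2 * p2 ≤ q2 * w := mul_le_mul_of_nonneg_left hp2 hq2.le
      nlinarith

/-- a vector of norm at most one that is at least as high as two unit vectors on both sides lies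
in their cone -/
lemma in_cone {U1 U2 n V : ℂ} (hn : dt n n = 1) (h1 : dt U1 U1 = 1) (h2 : dt U2 U2 = 1)
    (hc1 : 0 < cr U1 n) (hc2 : 0 < cr n U2) (hD : 0 < cr U1 U2) (hV : dt V V ≤ 1)
    (hw : 0 < dt V n) (hp1 : dt U1 n ≤ dt V n) (hp2 : dt U2 n ≤ dt V n) :
    0 ≤ cr U1 V ∧ 0 ≤ cr V U2 := by
  have a1 := dt_coord hn U1 U1
  have a2 := dt_coord hn U2 U2
  have a3 := dt_coord hn V V
  have a4 := cr_coord hn U1 U2
  have a5 := cr_coord hn U1 V
  have a6 := cr_coord hn V U2
  rw [h1] at a1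
  rw [h2] at a2
  have hq1 : 0 < - cr n U1 := by rw [← cr_comm]; exact hc1
  have b1 : dt U1 n ^ 2 + (- cr n U1) ^ 2 = 1 := by linear_combination (-1 : ℝ) * a1
  have b2 : dt U2 n ^ 2 + cr n U2 ^ 2 = 1 := by linear_combination (-1 : ℝ) * a2
  have b3 : dt V n ^ 2 + cr n V ^ 2 ≤ 1 := by
    rw [a3] at hV; linarith [sq (dt V n), sq (cr n V)]
  rw [a4] at hD
  constructor
  · have := cone_aux (w := dt V n) (z := - cr n V) (p1 := dt U2 n) (q1 := cr n U2)
      (p2 := dt U1 n) (q2 := - cr n U1) hc2 hq1 b2 b1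
      (by linarith) hw (by rw [neg_sq]; exact b3) hp2 hp1
    rw [a5]; linarith
  · have := cone_aux (w := dt V n) (z := cr n V) (p1 := dt U1 n) (q1 := - cr n U1)
      (p2 := dt U2 n) (q2 := cr n U2) hq1 hc2 b1 b2
      (by linarith) hw b3 hp1 hp2
    rw [a6]; linarith

/-- scalar version of the second cone lemma -/
lemma half_aux {α β p1 q1 p2 q2 : ℝ} (hq1 : 0 < q1) (hq2 : 0 < q2) (h1 : p1 ^ 2 + q1 ^ 2 = 1)
    (h2 : p2 ^ 2 + q2 ^ 2 = 1) (hD : 0 < p1 * q2 + q1 * p2) (hα : 0 < α)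
    (k1 : α * p1 - β * q1 ≤ α) (k2 : α * p2 + β * q2 ≤ α) : 0 ≤ α * q2 - β * p2 := by
  have hp2 : p2 ≤ 1 := by nlinarith [sq_nonneg (p2 - 1)]
  have hp1 : p1 ≤ 1 := by nlinarith [sq_nonneg (p1 - 1)]
  rcases le_or_gt β 0 with hb | hb
  · rcases le_or_gt 0 p2 with hp | hp
    · nlinarith [mul_nonneg (neg_nonneg.2 hb) hp, mul_pos hα hq2]
    · have hp1' : 0 < p1 := by
        by_contra hcon
        push Not at hcon
        nlinarith [mul_nonneg (neg_nonneg.2 hcon) hq2.le, mul_pos hq1 (neg_pos.2 hp)]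
      have e1 : (-β) * q1 ≤ α * (1 - p1) := by linarith
      have e2 : q1 * (-p2) < p1 * q2 := by linarith
      -- multiply
      have e3 : ((-β) * q1) * (q1 * (-p2)) ≤ (α * (1 - p1)) * (p1 * q2) := by
        apply mul_le_mul e1 e2.le
        · exact mul_nonneg hq1.le (by linarith)
        · exact mul_nonneg hα.le (by linarith)
      have e4 : (1 - p1) * p1 ≤ q1 ^ 2 := by nlinarith
      have e5 : (α * (1 - p1)) * (p1 * q2) ≤ α * q2 * q1 ^ 2 := by
        have := mul_le_mul_of_nonneg_left e4 (mul_pos hα hq2).le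
        nlinarith
      have e6 : q1 ^ 2 * (β * p2) ≤ q1 ^ 2 * (α * q2) := by nlinarith
      have := le_of_mul_le_mul_left e6 (by positivity)
      linarith
  · rcases le_or_gt p2 0 with hp | hp
    · nlinarith [mul_nonneg hb.le (neg_nonneg.2 hp), mul_pos hα hq2]
    · have e1 : β * q2 ≤ α * (1 - p2) := by linarith
      have e2 : (β * q2) * p2 ≤ (α * (1 - p2)) * p2 := mul_le_mul_of_nonneg_right e1 hp.le
      have e4 : (1 - p2) * p2 ≤ q2 ^ 2 := by nlinarith
      have e5 := mul_le_mul_of_nonneg_left e4 hα.le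
      have e6 : q2 * (β * p2) ≤ q2 * (α * q2) := by nlinarith
      have := le_of_mul_le_mul_left e6 hq2
      linarith

lemma half_cone {U1 U2 E n : ℂ} (hE : dt E E = 1) (hn : dt n n = 1) (h1 : dt U1 U1 = 1)
    (h2 : dt U2 U2 = 1) (hc1 : 0 < cr U1 E) (hc2 : 0 < cr E U2) (hD : 0 < cr U1 U2)
    (hα : 0 < dt n E) (k1 : dt U1 n ≤ dt n E) (k2 : dt U2 n ≤ dt n E) :
    0 ≤ cr U1 n ∧ 0 ≤ cr n U2 := by
  have a1 := dt_coord hE U1 U1
  have a2 := dt_coord hE U2 U2
  have a4 := cr_coord hE U1 U2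
  have a5 := cr_coord hE U1 n
  have a6 := cr_coord hE n U2
  have b1 := dt_coord hE U1 n
  have b2 := dt_coord hE U2 n
  rw [h1] at a1
  rw [h2] at a2
  have hq1 : 0 < - cr E U1 := by rw [← cr_comm]; exact hc1
  have c1 : dt U1 E ^ 2 + (- cr E U1) ^ 2 = 1 := by linear_combination (-1 : ℝ) * a1
  have c2 : dt U2 E ^ 2 + cr E U2 ^ 2 = 1 := by linear_combination (-1 : ℝ) * a2
  rw [a4] at hD
  rw [b1] at k1
  rw [b2] at k2
  constructor
  · have := half_aux (α := dt n E) (β := - cr E n) (p1 := dt U2 E) (q1 := cr E U2)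
      (p2 := dt U1 E) (q2 := - cr E U1) hc2 hq1 c2 c1
      (by linarith) hα (by linarith) (by linarith)
    rw [a5]; linarith
  · have := half_aux (α := dt n E) (β := cr E n) (p1 := dt U1 E) (q1 := - cr E U1)
      (p2 := dt U2 E) (q2 := cr E U2) hq1 hc2 c1 c2
      (by linarith) hα (by linarith) (by linarith)
    rw [a6]; linarith

/-- the angle between two vectors -/
noncomputable def ang (V W : ℂ) : ℝ := Real.arccos (dt V W / (‖V‖ * ‖W‖))

lemma ang_nonneg (V W : ℂ) : 0 ≤ ang V W := Real.arccos_nonneg _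

lemma exists_polar {V : ℂ} (hV : V ≠ 0) : ∃ φ : ℝ, V = ‖V‖ • ev φ := by
  have hn : 0 < ‖V‖ := norm_pos_iff.2 hV
  have h1 : dt ((1 / ‖V‖) • V) ((1 / ‖V‖) • V) = 1 := by
    rw [dt_smul_left, dt_smul_right, dt_self]; field_simp
  obtain ⟨φ, hφ⟩ := exists_ev h1
  refine ⟨φ, ?_⟩
  rw [hφ, smul_smul, mul_one_div_cancel hn.ne', one_smul]

/-- polar form of a positively oriented pair -/
lemma polar_pair {V W : ℂ} (h : 0 < cr V W) : ∃ φ : ℝ, V = ‖V‖ • ev φ ∧
    W = ‖W‖ • ev (φ + ang V W) ∧ 0 < ‖V‖ ∧ 0 < ‖W‖ ∧ 0 < ang V W ∧ ang V W < π ∧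
    cr V W = ‖V‖ * ‖W‖ * Real.sin (ang V W) ∧ dt V W = ‖V‖ * ‖W‖ * Real.cos (ang V W) := by
  have hV : V ≠ 0 := by rintro rfl; simp at h
  have hW : W ≠ 0 := by rintro rfl; simp at h
  have hV0 := norm_pos_iff.2 hV
  have hW0 := norm_pos_iff.2 hW
  obtain ⟨φ, hφ⟩ := exists_polar hV
  obtain ⟨ψ, hψ⟩ := exists_polar hW
  have hdt : dt V W = ‖V‖ * ‖W‖ * Real.cos (ψ - φ) := by
    conv_lhs => rw [hφ, hψ]
    rw [dt_smul_left, dt_smul_right, Real.cos_sub]
    simp only [dt, ev_re, ev_im]; ring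
  have hcr : cr V W = ‖V‖ * ‖W‖ * Real.sin (ψ - φ) := by
    conv_lhs => rw [hφ, hψ]
    rw [cr_smul_left, cr_smul_right, Real.sin_sub]
    simp only [cr, ev_re, ev_im]; ring
  have hang : ang V W = Real.arccos (Real.cos (ψ - φ)) := by
    unfold ang
    rw [hdt, mul_comm, mul_div_assoc, div_self (by positivity), mul_one]
  have hsin : 0 < Real.sin (ψ - φ) := by
    rw [hcr] at h
    exact (mul_pos_iff_of_pos_left (by positivity)).1 h
  have hc : Real.cos (ang V W) = Real.cos (ψ - φ) := by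
    rw [hang, Real.cos_arccos (Real.neg_one_le_cos _) (Real.cos_le_one _)]
  have hs : Real.sin (ang V W) = Real.sin (ψ - φ) := by
    rw [hang, Real.sin_arccos, ← Real.abs_sin_eq_sqrt_one_sub_cos_sq, abs_of_pos hsin]
  have hx0 : 0 < ang V W := by
    rcases (ang_nonneg V W).lt_or_eq with h0 | h0
    · exact h0
    · rw [← h0, Real.sin_zero] at hs
      linarith
  have hxpi : ang V W < π := by
    have hle : ang V W ≤ π := Real.arccos_le_pi _
    rcases hle.lt_or_eq with h0 | h0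
    · exact h0
    · rw [h0, Real.sin_pi] at hs
      linarith
  refine ⟨φ, hφ, ?_, hV0, hW0, hx0, hxpi, by rw [hs]; exact hcr, by rw [hc]; exact hdt⟩
  conv_lhs => rw [hψ]
  congr 1
  have hψφ : ψ = φ + (ψ - φ) := by ring
  apply Complex.ext
  · rw [ev_re, ev_re, hψφ, Real.cos_add, Real.cos_add, hc, hs]
  · rw [ev_im, ev_im, hψφ, Real.sin_add, Real.sin_add, hc, hs]

open Classical in
/-- indicator of the cone between `V` and `W` -/
noncomputable def coneI (V W : ℂ) (θ : ℝ) : ℝ :=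
  if 0 ≤ cr V (ev θ) ∧ 0 ≤ cr (ev θ) W then 1 else 0

lemma coneI_nonneg (V W : ℂ) (θ : ℝ) : 0 ≤ coneI V W θ := by
  unfold coneI; split_ifs <;> norm_num

lemma coneI_eq_ind (V W : ℂ) : coneI V W =
    ({θ | 0 ≤ cr V (ev θ)} ∩ {θ | 0 ≤ cr (ev θ) W}).indicator (fun _ => (1 : ℝ)) := by
  funext θ
  unfold coneI Set.indicator
  simp only [mem_inter_iff, mem_ofPred_eq]

lemma meas_cone (V W : ℂ) : MeasurableSet ({θ | 0 ≤ cr V (ev θ)} ∩ {θ | 0 ≤ cr (ev θ) W}) := by
  have c1 : Continuous fun θ => cr V (ev θ) := by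
    unfold cr; simp only [ev_re, ev_im]; fun_prop
  have c2 : Continuous fun θ => cr (ev θ) W := by
    unfold cr; simp only [ev_re, ev_im]; fun_prop
  exact (measurableSet_le measurable_const c1.measurable).inter
    (measurableSet_le measurable_const c2.measurable)

lemma int_coneI (V W : ℂ) (a b : ℝ) : IntervalIntegrable (coneI V W) volume a b := by
  rw [coneI_eq_ind]
  have h2 : IntervalIntegrable (fun _ : ℝ => (1 : ℝ)) volume a b := intervalIntegrable_const
  exact ⟨h2.1.indicator (meas_cone V W), h2.2.indicator (meas_cone V W)⟩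

lemma per_coneI (V W : ℂ) : Function.Periodic (coneI V W) (2 * π) := by
  intro θ
  unfold coneI
  rw [ev_add_two_pi]

lemma meas_coneI {V W : ℂ} (h : 0 < cr V W) :
    ∫ θ in (0 : ℝ)..(2 * π), coneI V W θ ≤ ang V W := by
  obtain ⟨φ, hφ, hψ, hV, hW, hx0, hxpi, -, -⟩ := polar_pair h
  set x := ang V W with hx
  have hpi := Real.pi_pos
  have h1 := (per_coneI V W).intervalIntegral_add_eq 0 φ
  rw [zero_add] at h1
  rw [h1, ← intervalIntegral.integral_add_adjacent_intervals (int_coneI V W φ (φ + x))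
    (int_coneI V W (φ + x) (φ + 2 * π))]
  have e1 : ∫ θ in φ..(φ + x), coneI V W θ ≤ x := by
    have : ∫ θ in φ..(φ + x), coneI V W θ ≤ ∫ θ in φ..(φ + x), (1 : ℝ) := by
      apply intervalIntegral.integral_mono_on (by linarith) (int_coneI V W _ _)
        intervalIntegrable_const
      intro θ _
      unfold coneI; split_ifs <;> norm_num
    simpa using this
  have e2 : ∫ θ in (φ + x)..(φ + 2 * π), coneI V W θ = 0 := by
    have : ∫ θ in (φ + x)..(φ + 2 * π), coneI V W θ = ∫ θ in (φ + x)..(φ + 2 * π), (0 : ℝ) := by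
      apply intervalIntegral.integral_congr_Ioo_of_le (by linarith)
      intro θ hθ
      unfold coneI
      rw [if_neg]
      rintro ⟨k1, k2⟩
      have m1 : 0 ≤ Real.sin (θ - φ) := by
        have : cr V (ev θ) = ‖V‖ * Real.sin (θ - φ) := by
          conv_lhs => rw [hφ]
          rw [cr_smul_left, Real.sin_sub]
          simp only [cr, ev_re, ev_im]; ring
        rw [this] at k1
        exact nonneg_of_mul_nonneg_right k1 hV
      have m2 : 0 ≤ Real.sin (φ + x - θ) := by
        have : cr (ev θ) W = ‖W‖ * Real.sin (φ + x - θ) := by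
          conv_lhs => rw [hψ]
          rw [cr_smul_right, Real.sin_sub]
          simp only [cr, ev_re, ev_im]; ring
        rw [this] at k2
        exact nonneg_of_mul_nonneg_right k2 hW
      have t1 : θ - φ ≤ π := by
        by_contra hcon
        push Not at hcon
        have : Real.sin (θ - φ) < 0 := by
          have h3 : Real.sin (θ - φ) = - Real.sin (θ - φ - π) := by
            rw [Real.sin_sub_pi]; ring
          rw [h3]
          have := Real.sin_pos_of_pos_of_lt_pi (x := θ - φ - π) (by linarith) (by linarith [hθ.2])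
          linarith
        linarith
      have : Real.sin (φ + x - θ) < 0 := by
        have h3 : Real.sin (φ + x - θ) = - Real.sin (θ - φ - x) := by
          rw [← Real.sin_neg]; congr 1; ring
        rw [h3]
        have := Real.sin_pos_of_pos_of_lt_pi (x := θ - φ - x) (by linarith [hθ.1]) (by linarith)
        linarith
      linarith
    rw [this]; simp
  rw [e2, add_zero]
  exact e1

end Pool.Agent.K7.H36.RP
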