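import Pool.Agent.K7.H36.RP.Trunc

/-!
# The self Chebyshev radius and the intersection of the unit discs
-/

set_option autoImplicit false

open Real Set Filter Topology MeasureTheory

namespace Pool.Agent.K7.H36.RP

section

variable {ι : Type} [Fintype ι] {u : ι → ℂ} {σ : Equiv.Perm ι}

lemma cyc_inj (h : ∀ i l, σ.SameCycle i l) (i : ι) :
    Set.InjOn (fun t => (σ ^ t) i) (Finset.range (Fintype.card ι) : Set ℕ) := by
  classical
  have hc := cyc_on h
  have himg : (Finset.range (Fintype.card ι)).image (fun t => (σ ^ t) i) = Finset.univ := by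
    apply Finset.eq_univ_of_forall
    intro l
    obtain ⟨n, hn, e⟩ := hc.exists_pow_eq (Finset.mem_univ i) (Finset.mem_univ l)
    exact Finset.mem_image.2 ⟨n, Finset.mem_range.2 (by rwa [Finset.card_univ] at hn), e⟩
  apply Finset.injOn_of_card_image_eq
  rw [himg, Finset.card_range, Finset.card_univ]

lemma cyc_surj (h : ∀ i l, σ.SameCycle i l) (i l : ι) :
    ∃ n < Fintype.card ι, (σ ^ n) i = l := by
  have hc := cyc_on h
  obtain ⟨n, hn, e⟩ := hc.exists_pow_eq (Finset.mem_univ i) (Finset.mem_univ l)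
  exact ⟨n, by rwa [Finset.card_univ] at hn, e⟩

/-- from edges to triples -/
lemma triples (hE : EC u σ) (h : ∀ i l, σ.SameCycle i l) (a : ι) {i j k : ℕ} (hij : i < j)
    (hjk : j < k) (hk : k < Fintype.card ι) :
    0 < cr (u ((σ ^ j) a) - u ((σ ^ i) a)) (u ((σ ^ k) a) - u ((σ ^ i) a)) := by
  have hne : ∀ s t : ℕ, s < Fintype.card ι → t < Fintype.card ι → s ≠ t →
      (σ ^ s) a ≠ (σ ^ t) a := by
    intro s t hs ht hst e
    exact hst (cyc_inj h a (by simpa using hs) (by simpa using ht) e)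
  have hs : ∀ t : ℕ, (σ ^ (t + 1)) a = σ ((σ ^ t) a) := by
    intro t; rw [pow_succ', Equiv.Perm.mul_apply]
  -- (1)
  have c1 : ∀ l, i + 2 ≤ l → l < Fintype.card ι →
      0 < cr (u ((σ ^ (i + 1)) a) - u ((σ ^ i) a)) (u ((σ ^ l) a) - u ((σ ^ i) a)) := by
    intro l hl hln
    have := hE ((σ ^ i) a) ((σ ^ l) a) (hne _ _ hln (by omega) (by omega))
      (by rw [← hs]; exact hne _ _ hln (by omega) (by omega))
    rwa [← hs] at this
  -- (2)
  have c2 : ∀ l, i < l → l + 1 < Fintype.card ι →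
      0 < cr (u ((σ ^ l) a) - u ((σ ^ i) a)) (u ((σ ^ (l + 1)) a) - u ((σ ^ i) a)) := by
    intro l hl hln
    have := hE ((σ ^ l) a) ((σ ^ i) a) (hne _ _ (by omega) (by omega) (by omega))
      (by rw [← hs]; exact hne _ _ (by omega) (by omega) (by omega))
    rw [← hs] at this
    have e : cr (u ((σ ^ (l + 1)) a) - u ((σ ^ l) a)) (u ((σ ^ i) a) - u ((σ ^ l) a)) =
        cr (u ((σ ^ l) a) - u ((σ ^ i) a)) (u ((σ ^ (l + 1)) a) - u ((σ ^ i) a)) := by
      simp only [cr, Complex.sub_re, Complex.sub_im]; ring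
    rwa [e] at this
  -- (3)
  obtain ⟨m, rfl⟩ : ∃ m, k = j + 1 + m := ⟨k - (j + 1), by omega⟩
  induction m with
  | zero => exact c2 j hij (by omega)
  | succ m ih =>
    have hx := ih (by omega) (by omega)
    have hy := c2 (j + 1 + m) (by omega) (by omega)
    have he1 := c1 (j + 1 + m) (by omega) (by omega)
    have he2 := c1 (j + 1 + m + 1) (by omega) (by omega)
    have he3 : 0 ≤ cr (u ((σ ^ (i + 1)) a) - u ((σ ^ i) a)) (u ((σ ^ j) a) - u ((σ ^ i) a)) := by
      rcases Nat.lt_or_ge (i + 1) j with h3 | h3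
      · exact (c1 j (by omega) (by omega)).le
      · have : j = i + 1 := by omega
        rw [this, cr_self]
    rw [show j + 1 + (m + 1) = j + 1 + m + 1 by ring]
    set e := u ((σ ^ (i + 1)) a) - u ((σ ^ i) a)
    set x := u ((σ ^ j) a) - u ((σ ^ i) a)
    set y := u ((σ ^ (j + 1 + m)) a) - u ((σ ^ i) a)
    set z := u ((σ ^ (j + 1 + m + 1)) a) - u ((σ ^ i) a)
    have hpl : cr e y * cr x z = cr e x * cr y z + cr e z * cr x y := by
      simp only [cr]; ring
    have hpos : 0 < cr e y * cr x z := by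
      rw [hpl]
      have := mul_pos he2 hx
      have := mul_nonneg he3 hy.le
      linarith
    exact (mul_pos_iff_of_pos_left he1).1 hpos

/-- every point of the boundary has a vertex at distance at least `d` -/
def Far (u : ι → ℂ) (σ : Equiv.Perm ι) (d : ℝ) : Prop :=
  ∀ i, ∀ x ∈ segment ℝ (u i) (u (σ i)), ∃ j, d ≤ ‖x - u j‖

omit [Fintype ι] in
lemma ne_of_EC (hE : EC u σ) (h1 : ∀ j, σ j ≠ j) (h2 : ∀ j, σ (σ j) ≠ j) (j : ι) :
    u (σ j) - u j ≠ 0 := by
  intro h
  have h3 := hE (σ j) j (h1 j).symm (h2 j).symm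
  have h4 : u j - u (σ j) = 0 := by rw [← neg_sub, h, neg_zero]
  rw [h4, cr_zero_right] at h3
  exact lt_irrefl _ h3

lemma far_of_Ks (hE : EC u σ) (h1 : ∀ j, σ j ≠ j) (h2 : ∀ j, σ (σ j) ≠ j)
    (hK : Ks u ⊆ convexHull ℝ (range u)) : Far u σ 1 := by
  intro i x hx
  by_contra hcon
  push Not at hcon
  set q := u (σ i) - u i with hq
  have hq0 : q ≠ 0 := ne_of_EC hE h1 h2 i
  have hev : ∀ j, ∀ᶠ ε : ℝ in 𝓝[>] 0,
      dt (x - ε • (Complex.I * q) - u j) (x - ε • (Complex.I * q) - u j) < 1 := by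
    intro j
    have hc : Continuous fun ε : ℝ =>
        dt (x - ε • (Complex.I * q) - u j) (x - ε • (Complex.I * q) - u j) := by
      simp only [dt, Complex.sub_re, Complex.sub_im,
        Complex.real_smul, Complex.mul_re, Complex.mul_im, Complex.ofReal_re, Complex.ofReal_im]
      fun_prop
    have h1 : (fun ε : ℝ => dt (x - ε • (Complex.I * q) - u j)
        (x - ε • (Complex.I * q) - u j)) 0 < 1 := by
      have := hcon j
      have h3 : dt (x - u j) (x - u j) < 1 := by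
        rw [dt_self]; nlinarith [norm_nonneg (x - u j)]
      simpa using h3
    exact (hc.continuousAt.eventually_lt_const h1).filter_mono nhdsWithin_le_nhds
  have h3 : ∀ᶠ t : ℝ in 𝓝[>] 0, 0 < t := eventually_mem_nhdsWithin
  obtain ⟨ε, hε, hε0⟩ := ((eventually_all.2 hev).and h3).exists
  have h4 : x - ε • (Complex.I * q) ∈ convexHull ℝ (range u) := hK fun j => (hε j).le
  have h5 := hull_half_cr hE h4 i
  rw [← hq] at h5
  have h6 : cr q (x - u i) = 0 := by
    obtain ⟨a, b, -, -, hab, rfl⟩ := hx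
    have e : a • u i + b • u (σ i) - u i = b • q := by
      have ha : a = 1 - b := by linarith
      rw [ha, hq]; simp only [Complex.real_smul]; push_cast; ring
    rw [e, cr_smul_right, cr_self, mul_zero]
  have h7 : cr q (x - ε • (Complex.I * q) - u i) = cr q (x - u i) - ε * dt q q := by
    simp only [cr, dt, Complex.sub_re, Complex.sub_im,
        Complex.real_smul, Complex.mul_re, Complex.mul_im, Complex.ofReal_re, Complex.ofReal_im,
        Complex.I_re, Complex.I_im]
    ring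
  rw [h7, h6] at h5
  have h8 : 0 < dt q q := by
    rcases (dt_self_nonneg q).lt_or_eq with h | h
    · exact h
    · exact absurd (dt_self_eq_zero.1 h.symm) hq0
  have := mul_pos hε0 h8
  linarith

lemma Ks_of_far [Nonempty ι] (hE : EC u σ) (h1 : ∀ j, σ j ≠ j) (h2 : ∀ j, σ (σ j) ≠ j)
    (hcard : 3 ≤ Fintype.card ι) (hH : Hn u < 4) (hF : Far u σ 1) :
    Ks u ⊆ convexHull ℝ (range u) := by
  classical
  intro z hz
  by_contra hcon
  obtain ⟨o, hoh, ho⟩ := centre hcard hH
  set g : ι → ℂ → ℝ := fun i y => cr (u (σ i) - u i) (y - u i) with hg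
  have hgo : ∀ i, 0 ≤ g i o := fun i => hull_half_cr hE hoh i
  have haff : ∀ i (t : ℝ), g i ((1 - t) • o + t • z) = (1 - t) * g i o + t * g i z := by
    intro i t
    simp only [hg, cr, Complex.sub_re, Complex.sub_im, Complex.add_re, Complex.add_im,
      Complex.real_smul, Complex.mul_re, Complex.mul_im, Complex.ofReal_re, Complex.ofReal_im]
    ring
  obtain ⟨i1, hi1⟩ : ∃ i, g i z < 0 := by
    by_contra h
    push Not at h
    exact hcon (half_hull hE h1 h2 h)
  obtain ⟨i0, hi0, hmin⟩ := Finset.exists_min_image (Finset.univ.filter fun i => g i z < 0)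
    (fun i => g i o / (g i o - g i z)) ⟨i1, by simpa using hi1⟩
  simp only [Finset.mem_filter, Finset.mem_univ, true_and] at hi0 hmin
  set t := g i0 o / (g i0 o - g i0 z) with ht
  have hd0 : 0 < g i0 o - g i0 z := by linarith [hgo i0]
  have ht0 : 0 ≤ t := div_nonneg (hgo i0) hd0.le
  have ht1 : t < 1 := by rw [ht, div_lt_one hd0]; linarith
  set x := (1 - t) • o + t • z with hx
  have hgx : ∀ i, 0 ≤ g i x := by
    intro i
    rw [hx, haff]
    by_cases hi : g i z < 0
    · have h3 := hmin i hi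
      have hdi : 0 < g i o - g i z := by linarith [hgo i]
      rw [le_div_iff₀ hdi] at h3
      linarith
    · push Not at hi
      exact add_nonneg (mul_nonneg (by linarith) (hgo i)) (mul_nonneg ht0 hi)
  have hxh : x ∈ convexHull ℝ (range u) := half_hull hE h1 h2 hgx
  have hg0 : g i0 x = 0 := by
    rw [hx, haff]
    have : t * (g i0 o - g i0 z) = g i0 o := by rw [ht, div_mul_cancel₀ _ hd0.ne']
    linarith
  -- `x` lies on the edge
  have hseg : x ∈ segment ℝ (u i0) (u (σ i0)) := by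
    obtain ⟨w, hw0, hw1, hw2⟩ := mem_hull.1 hxh
    have e : x - u i0 = ∑ i, w i • (u i - u i0) := by
      simp only [smul_sub, Finset.sum_sub_distrib]
      rw [← Finset.sum_smul, hw1, one_smul, hw2]
    have e2 : g i0 x = ∑ i, w i * g i0 (u i) := by
      show cr (u (σ i0) - u i0) (x - u i0) = _
      rw [e]
      simp only [hg, cr, Complex.re_sum, Complex.im_sum, Finset.mul_sum,
        ← Finset.sum_sub_distrib,
        Complex.real_smul, Complex.mul_re, Complex.mul_im, Complex.ofReal_re, Complex.ofReal_im]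
      apply Finset.sum_congr rfl
      intro i _
      ring
    rw [e2] at hg0
    have h3 := (Finset.sum_eq_zero_iff_of_nonneg
      (fun i _ => mul_nonneg (hw0 i) (hE.nonneg i0 i))).1 hg0
    have h4 : ∀ i, i ≠ i0 → i ≠ σ i0 → w i = 0 := by
      intro i hi hi'
      rcases mul_eq_zero.1 (h3 i (Finset.mem_univ i)) with h5 | h5
      · exact h5
      · exact absurd h5 (hE i0 i hi hi').ne'
    have h5 : ∀ (F : ι → ℂ), ∑ i, w i • F i = w i0 • F i0 + w (σ i0) • F (σ i0) := by
      intro F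
      have : ∑ i, w i • F i = ∑ i ∈ ({i0, σ i0} : Finset ι), w i • F i := by
        symm
        apply Finset.sum_subset (Finset.subset_univ _)
        intro i _ hi
        simp only [Finset.mem_insert, Finset.mem_singleton, not_or] at hi
        rw [h4 i hi.1 hi.2, zero_smul]
      rw [this, Finset.sum_pair (h1 i0).symm]
    have h6 : w i0 + w (σ i0) = 1 := by
      have h7 : ∑ i, w i = ∑ i ∈ ({i0, σ i0} : Finset ι), w i := by
        symm
        apply Finset.sum_subset (Finset.subset_univ _)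
        intro i _ hi
        simp only [Finset.mem_insert, Finset.mem_singleton, not_or] at hi
        exact h4 i hi.1 hi.2
      rw [Finset.sum_pair (h1 i0).symm, hw1] at h7
      exact h7.symm
    refine ⟨w i0, w (σ i0), hw0 _, hw0 _, h6, ?_⟩
    rw [← h5, hw2]
  obtain ⟨j, hj⟩ := hF i0 x hseg
  have e3 : x - u j = (1 - t) • (o - u j) + t • (z - u j) := by
    simp only [hx, Complex.real_smul]; push_cast; ring
  have e4 : ‖x - u j‖ ≤ (1 - t) * ‖o - u j‖ + t * ‖z - u j‖ := by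
    rw [e3]
    refine (norm_add_le _ _).trans ?_
    rw [norm_smul, norm_smul, Real.norm_eq_abs, Real.norm_eq_abs, abs_of_nonneg ht0,
      abs_of_nonneg (by linarith)]
  have e5 : ‖o - u j‖ < 1 := by
    have := ho j
    rw [dt_self] at this; nlinarith [norm_nonneg (o - u j)]
  have e6 : ‖z - u j‖ ≤ 1 := by
    have := hz j
    rw [dt_self] at this; nlinarith [norm_nonneg (z - u j)]
  nlinarith

omit [Fintype ι] in
/-- scaling -/
lemma EC_smul (hE : EC u σ) {c : ℝ} (hc : 0 < c) : EC (fun i => c • u i) σ := by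
  intro j l h3 h4
  have := hE j l h3 h4
  have e : cr (c • u (σ j) - c • u j) (c • u l - c • u j) =
      c * (c * cr (u (σ j) - u j) (u l - u j)) := by
    rw [← smul_sub, ← smul_sub, cr_smul_left, cr_smul_right]
  rw [e]
  positivity

lemma Lg_smul {c : ℝ} (hc : 0 < c) : Lg (fun i => c • u i) σ = c * Lg u σ := by
  unfold Lg
  rw [Finset.mul_sum]
  apply Finset.sum_congr rfl
  intro i _
  rw [← smul_sub, norm_smul, Real.norm_eq_abs, abs_of_pos hc]

omit [Fintype ι] in
lemma far_smul {c d : ℝ} (hc : 0 < c) (hF : Far u σ d) : Far (fun i => c • u i) σ (c * d) := by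
  intro i x hx
  obtain ⟨a, b, ha, hb, hab, rfl⟩ := hx
  obtain ⟨j, hj⟩ := hF i (a • u i + b • u (σ i)) ⟨a, b, ha, hb, hab, rfl⟩
  refine ⟨j, ?_⟩
  have e : a • c • u i + b • c • u (σ i) - c • u j = c • (a • u i + b • u (σ i) - u j) := by
    simp only [smul_add, smul_sub, smul_smul, mul_comm a c, mul_comm b c]
  rw [e, norm_smul, Real.norm_eq_abs, abs_of_pos hc]
  exact mul_le_mul_of_nonneg_left hj hc.le

end

section

/-- the self Chebyshev radius -/
noncomputable def selfR (M : Set ℂ) : ℝ := ⨅ x : M, ⨆ y : M, dist (x : ℂ) (y : ℂ)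

variable {ι : Type} [Fintype ι] [Nonempty ι] {u : ι → ℂ} {σ : Equiv.Perm ι}

/-- the boundary curve -/
def bdry (u : ι → ℂ) (σ : Equiv.Perm ι) : Set ℂ := ⋃ i, segment ℝ (u i) (u (σ i))

omit [Fintype ι] [Nonempty ι] in
lemma mem_bdry (j : ι) : u j ∈ bdry u σ := mem_iUnion.2 ⟨j, left_mem_segment ℝ _ _⟩

omit [Fintype ι] [Nonempty ι] in
lemma bdry_hull {x : ℂ} (hx : x ∈ bdry u σ) : x ∈ convexHull ℝ (range u) := by
  obtain ⟨i, hi⟩ := mem_iUnion.1 hx
  exact (convex_convexHull ℝ (range u)).segment_subset (subset_convexHull ℝ _ ⟨i, rfl⟩)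
    (subset_convexHull ℝ _ ⟨σ i, rfl⟩) hi

omit [Fintype ι] [Nonempty ι] in
lemma dist_le_max {r : ℝ} {x y : ℂ} (h : ∀ j, ‖x - u j‖ ≤ r) (hy : y ∈ bdry u σ) :
    dist x y ≤ r := by
  have h1 : convexHull ℝ (range u) ⊆ Metric.closedBall x r := by
    apply convexHull_min _ (convex_closedBall _ _)
    rintro _ ⟨j, rfl⟩
    rw [Metric.mem_closedBall, dist_comm, dist_eq_norm]
    exact h j
  have := h1 (bdry_hull hy)
  rwa [Metric.mem_closedBall, dist_comm] at this

lemma exists_max (u : ι → ℂ) (x : ℂ) : ∃ j, ∀ l, ‖x - u l‖ ≤ ‖x - u j‖ := by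
  obtain ⟨j, -, hj⟩ := Finset.exists_max_image Finset.univ (fun l => ‖x - u l‖)
    Finset.univ_nonempty
  exact ⟨j, fun l => hj l (Finset.mem_univ l)⟩

lemma bdd_sup (x : ℂ) : BddAbove (range fun y : bdry u σ => dist x (y : ℂ)) := by
  obtain ⟨j, hj⟩ := exists_max u x
  refine ⟨‖x - u j‖, ?_⟩
  rintro _ ⟨y, rfl⟩
  exact dist_le_max hj y.2

lemma le_selfR {d : ℝ} (hF : Far u σ d) : d ≤ selfR (bdry u σ) := by
  obtain ⟨i0⟩ := ‹Nonempty ι›
  have hne : Nonempty (bdry u σ) := ⟨⟨u i0, mem_bdry i0⟩⟩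
  apply le_ciInf
  intro x
  obtain ⟨i, hi⟩ := mem_iUnion.1 x.2
  obtain ⟨j, hj⟩ := hF i x hi
  refine hj.trans ?_
  rw [← dist_eq_norm]
  exact le_ciSup (f := fun y : bdry u σ => dist (x : ℂ) (y : ℂ)) (bdd_sup (x : ℂ))
    ⟨u j, mem_bdry j⟩

omit [Fintype ι] [Nonempty ι] in
lemma bdd_inf : BddBelow (range fun x : bdry u σ => ⨆ y : bdry u σ, dist (x : ℂ) (y : ℂ)) := by
  refine ⟨0, ?_⟩
  rintro _ ⟨x, rfl⟩
  exact Real.iSup_nonneg fun y => dist_nonneg

omit [Fintype ι] [Nonempty ι] in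
lemma selfR_le {x : ℂ} (hx : x ∈ bdry u σ) {r : ℝ} (h : ∀ j, ‖x - u j‖ ≤ r) :
    selfR (bdry u σ) ≤ r := by
  have hne : Nonempty (bdry u σ) := ⟨⟨x, hx⟩⟩
  refine (ciInf_le bdd_inf ⟨x, hx⟩).trans ?_
  apply ciSup_le
  intro y
  exact dist_le_max h y.2

lemma far_selfR : Far u σ (selfR (bdry u σ)) := by
  intro i x hx
  obtain ⟨j, hj⟩ := exists_max u x
  exact ⟨j, selfR_le (mem_iUnion.2 ⟨i, hx⟩) hj⟩

lemma selfR_pos {a b : ι} (hab : u a ≠ u b) : 0 < selfR (bdry u σ) := by
  have h0 : 0 < ‖u a - u b‖ := norm_pos_iff.2 (sub_ne_zero.2 hab)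
  have : Far u σ (‖u a - u b‖ / 2) := by
    intro i x _
    by_contra hcon
    push Not at hcon
    have h1 := hcon a
    have h2 := hcon b
    have h3 := norm_add_le (u a - x) (x - u b)
    rw [show u a - x + (x - u b) = u a - u b by ring, norm_sub_rev (u a) x] at h3
    linarith
  have := le_selfR this
  linarith

/-- the lower bound for the ratio -/
lemma ratio_ge (hE : EC u σ) (h1 : ∀ j, σ j ≠ j) (h2 : ∀ j, σ (σ j) ≠ j) (hT : TV σ)
    (hcard : 3 ≤ Fintype.card ι) {m : ℝ} (hm : m < 4)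
    (hmin : ∀ w : ι → ℂ, Ks w ⊆ convexHull ℝ (range w) → m ≤ Hn w) :
    m ≤ Lg u σ / selfR (bdry u σ) := by
  obtain ⟨i0⟩ := ‹Nonempty ι›
  have hne : u (σ i0) ≠ u i0 := sub_ne_zero.1 (ne_of_EC hE h1 h2 i0)
  have hδ : 0 < selfR (bdry u σ) := selfR_pos hne
  set δ := selfR (bdry u σ) with hδdef
  have hc : 0 < δ⁻¹ := inv_pos.2 hδ
  have hE' := EC_smul hE hc
  have hL' := Lg_smul (u := u) (σ := σ) hc
  have hF' := far_smul hc (far_selfR (u := u) (σ := σ))
  rw [← hδdef, inv_mul_cancel₀ hδ.ne'] at hF'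
  have hH' := Hn_eq_Lg hE' hT
  rw [div_eq_inv_mul, ← hL']
  rcases lt_or_ge (Lg (fun i => δ⁻¹ • u i) σ) 4 with h3 | h3
  · have h4 := Ks_of_far hE' h1 h2 hcard (by rw [hH']; exact h3) hF'
    have h5 := hmin _ h4
    rw [hH'] at h5
    exact h5
  · linarith

end

end Pool.Agent.K7.H36.RP
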