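import Pool.Agent.K7.H36.RP.Basic

/-!
# The intersection of the unit discs around finitely many points
-/

set_option autoImplicit false

open Real Set Filter Topology

namespace Pool.Agent.K7.H36.RP

variable {ι : Type} [Fintype ι]

/-- the intersection of the closed unit discs centred at the points `v j` -/
def Ks (v : ι → ℂ) : Set ℂ := {y | ∀ j, dt (y - v j) (y - v j) ≤ 1}

omit [Fintype ι] in
lemma mem_Ks_norm {v : ι → ℂ} {y : ℂ} : y ∈ Ks v ↔ ∀ j, ‖y - v j‖ ≤ 1 := by
  unfold Ks
  simp only [mem_ofPred_eq, dt_self]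
  constructor
  · intro h j
    have := h j
    exact (sq_le_one_iff₀ (norm_nonneg _)).1 this
  · intro h j
    exact (sq_le_one_iff₀ (norm_nonneg _)).2 (h j)

omit [Fintype ι] in
lemma isClosed_Ks (v : ι → ℂ) : IsClosed (Ks v) := by
  have : Ks v = ⋂ j, {y | ‖y - v j‖ ≤ 1} := by
    ext y; simp [mem_Ks_norm]
  rw [this]
  refine isClosed_iInter fun j => ?_
  exact isClosed_le (by fun_prop) continuous_const

omit [Fintype ι] in
lemma isCompact_Ks [Nonempty ι] (v : ι → ℂ) : IsCompact (Ks v) := by
  obtain ⟨j⟩ := ‹Nonempty ι›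
  refine (isCompact_closedBall (v j) 1).of_isClosed_subset (isClosed_Ks v) ?_
  intro y hy
  rw [Metric.mem_closedBall, dist_eq_norm]
  exact mem_Ks_norm.1 hy j

omit [Fintype ι] in
lemma convex_Ks (v : ι → ℂ) : Convex ℝ (Ks v) := by
  have : Ks v = ⋂ j, Metric.closedBall (v j) 1 := by
    ext y; simp [mem_Ks_norm, Metric.mem_closedBall, dist_eq_norm]
  rw [this]
  exact convex_iInter fun j => convex_closedBall _ _

omit [Fintype ι] in
/-- expansion of a disc condition at a point at distance one -/
lemma half_le {v : ι → ℂ} {c z : ℂ} {j : ι} (hz : z ∈ Ks v) (hj : dt (v j - c) (v j - c) = 1) :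
    dt (z - c) (z - c) / 2 ≤ dt (z - c) (v j - c) := by
  have h := hz j
  simp only [dt, Complex.sub_re, Complex.sub_im] at *
  nlinarith

lemma move {v : ι → ℂ} {c w : ℂ} (hc : c ∈ Ks v)
    (hw : ∀ j, dt (v j - c) (v j - c) = 1 → 0 < dt w (v j - c)) :
    ∃ δ : ℝ, 0 < δ ∧ c + δ • w ∈ Ks v := by
  have h1 : ∀ᶠ δ in 𝓝[>] (0 : ℝ), ∀ j, dt (c + δ • w - v j) (c + δ • w - v j) ≤ 1 := by
    rw [eventually_all]
    intro j
    have hexp : ∀ δ : ℝ, dt (c + δ • w - v j) (c + δ • w - v j) =
        dt (v j - c) (v j - c) - 2 * δ * dt w (v j - c) + δ ^ 2 * dt w w := by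
      intro δ
      simp only [dt, Complex.sub_re, Complex.sub_im, Complex.add_re, Complex.add_im,
        Complex.real_smul, Complex.mul_re, Complex.mul_im, Complex.ofReal_re, Complex.ofReal_im]
      ring
    have hle : dt (v j - c) (v j - c) ≤ 1 := by
      have := hc j
      simp only [dt, Complex.sub_re, Complex.sub_im] at *
      nlinarith
    rcases hle.lt_or_eq with hlt | heq
    · have hcont : Tendsto (fun δ : ℝ => dt (v j - c) (v j - c) - 2 * δ * dt w (v j - c) +
          δ ^ 2 * dt w w) (𝓝[>] 0) (𝓝 (dt (v j - c) (v j - c) - 2 * 0 * dt w (v j - c) +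
          0 ^ 2 * dt w w)) := by
        apply Tendsto.mono_left _ nhdsWithin_le_nhds
        exact Continuous.tendsto (by fun_prop) 0
      have h2 := hcont.eventually_lt_const (u := 1) (by simpa using hlt)
      filter_upwards [h2] with δ hδ
      rw [hexp]; exact hδ.le
    · have hpos := hw j heq
      have hcont : Tendsto (fun δ : ℝ => δ * dt w w) (𝓝[>] 0) (𝓝 (0 * dt w w)) := by
        apply Tendsto.mono_left _ nhdsWithin_le_nhds
        exact Continuous.tendsto (by fun_prop) 0
      have h2 := hcont.eventually_lt_const (u := 2 * dt w (v j - c)) (by simpa using hpos)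
      filter_upwards [h2, self_mem_nhdsWithin] with δ hδ hδ0
      have hδ0' : (0 : ℝ) < δ := hδ0
      rw [hexp, heq]
      nlinarith
  obtain ⟨δ, hδ, hδ0⟩ := (h1.and self_mem_nhdsWithin).exists
  exact ⟨δ, hδ0, hδ⟩

/-- if `c` minimises the linear function of direction `n` over `Ks v`, a vertex at distance one
lies on each side -/
lemma side {v : ι → ℂ} {c n m : ℂ} (hc : c ∈ Ks v)
    (hmin : ∀ z ∈ Ks v, 0 ≤ dt (z - c) n) (hn : dt n n = 1) (hm : dt m n = 0) :
    ∃ j, dt (v j - c) (v j - c) = 1 ∧ dt m (v j - c) ≤ 0 := by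
  by_contra hcon
  push Not at hcon
  -- all active ones have positive product with m
  have h1 : ∀ᶠ ε in 𝓝[>] (0 : ℝ), ∀ j, dt (v j - c) (v j - c) = 1 →
      0 < dt (m - ε • n) (v j - c) := by
    rw [eventually_all]
    intro j
    by_cases hj : dt (v j - c) (v j - c) = 1
    · have hcont : Tendsto (fun ε : ℝ => dt m (v j - c) - ε * dt n (v j - c)) (𝓝[>] 0)
          (𝓝 (dt m (v j - c) - 0 * dt n (v j - c))) := by
        apply Tendsto.mono_left _ nhdsWithin_le_nhds
        exact Continuous.tendsto (by fun_prop) 0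
      have h2 := hcont.eventually_const_lt (u := 0) (by simpa using hcon j hj)
      filter_upwards [h2] with ε hε _
      rw [dt_sub_left, dt_smul_left]; exact hε
    · exact Eventually.of_forall fun ε h => absurd h hj
  obtain ⟨ε, hε, hε0⟩ := (h1.and self_mem_nhdsWithin).exists
  obtain ⟨δ, hδ, hmem⟩ := move hc hε
  have h3 := hmin _ hmem
  have hε0' : (0 : ℝ) < ε := hε0
  have h4 : dt (c + δ • (m - ε • n) - c) n = - (δ * ε) := by
    rw [add_sub_cancel_left, dt_smul_left, dt_sub_left, dt_smul_left, hm, hn]; ring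
  rw [h4] at h3
  have := mul_pos hδ hε0'
  linarith

/-- **Karush-Kuhn-Tucker.** -/
lemma kkt {v : ι → ℂ} {o c n : ℂ} (ho : ∀ j, dt (o - v j) (o - v j) < 1) (hc : c ∈ Ks v)
    (hmin : ∀ z ∈ Ks v, 0 ≤ dt (z - c) n) (hn : dt n n = 1) :
    ∃ (j k : ι) (a b : ℝ), dt (v j - c) (v j - c) = 1 ∧ dt (v k - c) (v k - c) = 1 ∧
      0 ≤ a ∧ 0 ≤ b ∧ n = a • (v j - c) + b • (v k - c) := by
  have hoK : o ∈ Ks v := fun j => (ho j).le
  have hon : 0 ≤ dt (o - c) n := hmin o hoK
  have hpos : ∀ j, dt (v j - c) (v j - c) = 1 → 0 < dt (o - c) (v j - c) := by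
    intro j hj
    have h := ho j
    have h0 := dt_self_nonneg (o - c)
    simp only [dt, Complex.sub_re, Complex.sub_im] at *
    nlinarith
  -- a vector in the direction of `n`
  have hpar : ∀ j, dt (v j - c) (v j - c) = 1 → cr n (v j - c) = 0 → n = v j - c := by
    intro j hj hcr
    have h1 := lagr n (v j - c)
    rw [hcr, hn, hj] at h1
    have h2 : dt n (v j - c) = 1 ∨ dt n (v j - c) = -1 := by
      have : (dt n (v j - c) - 1) * (dt n (v j - c) + 1) = 0 := by nlinarith
      rcases mul_eq_zero.1 this with h | h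
      · left; linarith
      · right; linarith
    rcases h2 with h2 | h2
    · have : dt (n - (v j - c)) (n - (v j - c)) = 0 := by
        rw [dt_sub_left, dt_sub_right _ _ n, dt_sub_right _ _ (v j - c), hn, hj,
          dt_comm (v j - c) n, h2]; ring
      exact sub_eq_zero.1 (dt_self_eq_zero.1 this)
    · exfalso
      have : dt (n + (v j - c)) (n + (v j - c)) = 0 := by
        rw [dt_add_left, dt_add_right, dt_add_right, hn, hj, dt_comm (v j - c) n, h2]; ring
      have h3 : n = - (v j - c) := by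
        have := dt_self_eq_zero.1 this
        exact eq_neg_of_add_eq_zero_left this
      have h4 := hpos j hj
      rw [h3, dt_neg_right] at hon
      linarith
  obtain ⟨j, hj, hj1⟩ := side (m := Complex.I * n) hc hmin hn (by simp [dt]; ring)
  obtain ⟨k, hk, hk1⟩ := side (m := -(Complex.I * n)) hc hmin hn (by simp [dt]; ring)
  have hcj : dt (Complex.I * n) (v j - c) = cr n (v j - c) := by simp [dt, cr]; ring
  have hck : dt (-(Complex.I * n)) (v k - c) = - cr n (v k - c) := by simp [dt, cr]; ring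
  rw [hcj] at hj1
  rw [hck] at hk1
  rcases hj1.lt_or_eq with hj2 | hj2
  · rcases (show 0 ≤ cr n (v k - c) by linarith).lt_or_eq with hk2 | hk2
    · have hexp := expand n (v j - c) (v k - c)
      have hD : 0 < cr (v j - c) (v k - c) := by
        by_contra hneg
        push Not at hneg
        have h5 : dt (o - c) (cr (v j - c) (v k - c) • n) =
            cr n (v k - c) * dt (o - c) (v j - c) + cr (v j - c) n * dt (o - c) (v k - c) := by
          rw [hexp, dt_add_right, dt_smul_right, dt_smul_right]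
        rw [dt_smul_right] at h5
        have h6 := hpos j hj
        have h7 := hpos k hk
        have h8 : 0 < cr (v j - c) n := by rw [cr_comm]; linarith
        have := mul_pos hk2 h6
        have := mul_pos h8 h7
        nlinarith
      refine ⟨j, k, cr n (v k - c) / cr (v j - c) (v k - c),
        cr (v j - c) n / cr (v j - c) (v k - c), hj, hk, by positivity, ?_, ?_⟩
      · have h8 : 0 < cr (v j - c) n := by rw [cr_comm]; linarith
        positivity
      · have h9 : (1 / cr (v j - c) (v k - c)) • (cr (v j - c) (v k - c) • n) = n := by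
          rw [smul_smul, one_div, inv_mul_cancel₀ hD.ne', one_smul]
        conv_lhs => rw [← h9, hexp, smul_add, smul_smul, smul_smul]
        congr 2 <;> ring
    · refine ⟨k, k, 1, 0, hk, hk, by norm_num, le_refl _, ?_⟩
      rw [← hpar k hk hk2.symm]; simp
  · refine ⟨j, j, 1, 0, hj, hj, by norm_num, le_refl _, ?_⟩
    rw [← hpar j hj hj2]; simp

/-- the strong minimality -/
lemma strong {v : ι → ℂ} {o c n : ℂ} (ho : ∀ j, dt (o - v j) (o - v j) < 1) (hc : c ∈ Ks v)
    (hmin : ∀ z ∈ Ks v, 0 ≤ dt (z - c) n) (hn : dt n n = 1) {z : ℂ} (hz : z ∈ Ks v) :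
    dt (z - c) (z - c) / 2 ≤ dt (z - c) n := by
  obtain ⟨j, k, a, b, hj, hk, ha, hb, hab⟩ := kkt ho hc hmin hn
  have h1 := half_le hz hj
  have h2 := half_le hz hk
  have h3 : dt (z - c) n = a * dt (z - c) (v j - c) + b * dt (z - c) (v k - c) := by
    conv_lhs => rw [hab]
    rw [dt_add_right, dt_smul_right, dt_smul_right]
  have hle : ∀ i, dt (v i - c) (v i - c) = 1 → dt n (v i - c) ≤ 1 := by
    intro i hi
    have := lagr n (v i - c)
    rw [hn, hi] at this
    nlinarith [sq_nonneg (cr n (v i - c)), sq_nonneg (dt n (v i - c) - 1)]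
  have h4 : 1 ≤ a + b := by
    have h5 : dt n n = a * dt n (v j - c) + b * dt n (v k - c) := by
      conv_lhs => rw [hab, dt_comm, ← hab]
      conv_lhs => rw [hab]
      rw [dt_comm, dt_add_right, dt_smul_right, dt_smul_right]
      rw [← hab]
    have h6 := mul_le_mul_of_nonneg_left (hle j hj) ha
    have h7 := mul_le_mul_of_nonneg_left (hle k hk) hb
    rw [hn] at h5
    linarith
  have h8 := dt_self_nonneg (z - c)
  have h9 := mul_le_mul_of_nonneg_left h1 ha
  have h10 := mul_le_mul_of_nonneg_left h2 hb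
  rw [h3]
  nlinarith

end Pool.Agent.K7.H36.RP
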