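import Pool.Agent.K7.H36.RP.Hull

/-!
# Existence of a minimiser
-/

set_option autoImplicit false

open Real Set Filter Topology MeasureTheory

namespace Pool.Agent.K7.H36.RP

variable {ι : Type} [Fintype ι] [Nonempty ι]

lemma int_dt (c : ℂ) : ∫ θ in (0 : ℝ)..(2 * π), dt c (ev θ) = 0 := by
  simp only [dt, ev_re, ev_im]
  have c1 : Continuous fun θ : ℝ => c.re * Real.cos θ := by fun_prop
  have c2 : Continuous fun θ : ℝ => c.im * Real.sin θ := by fun_prop
  rw [intervalIntegral.integral_add (c1.intervalIntegrable _ _) (c2.intervalIntegrable _ _),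
    intervalIntegral.integral_const_mul, intervalIntegral.integral_const_mul, integral_cos,
    integral_sin]
  simp

lemma Hn_sub_le (u : ι → ℂ) (c : ℂ) : Hn (fun i => u i - c) ≤ Hn u := by
  have hcd : Continuous fun θ => dt c (ev θ) := by
    simp only [dt, ev_re, ev_im]; fun_prop
  have h1 : Hn (fun i => u i - c) ≤ ∫ θ in (0 : ℝ)..(2 * π), (hs u θ - dt c (ev θ)) := by
    apply intervalIntegral.integral_mono_on (by positivity)
      ((continuous_hs _).intervalIntegrable _ _)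
      (((continuous_hs u).sub hcd).intervalIntegrable _ _)
    intro θ _
    show hs (fun i => u i - c) θ ≤ hs u θ - dt c (ev θ)
    apply hs_le
    intro i
    rw [dt_sub_left]
    linarith [le_hs u θ i]
  rw [intervalIntegral.integral_sub ((continuous_hs u).intervalIntegrable _ _)
    (hcd.intervalIntegrable _ _), int_dt, sub_zero] at h1
  exact h1

omit [Nonempty ι] in
lemma Ks_sub {u : ι → ℂ} (h : Ks u ⊆ convexHull ℝ (range u)) (c : ℂ) :
    Ks (fun i => u i - c) ⊆ convexHull ℝ (range fun i => u i - c) := by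
  intro y hy
  have h1 : y + c ∈ Ks u := by
    intro j
    have := hy j
    rw [show y - (u j - c) = y + c - u j by ring] at this
    exact this
  obtain ⟨w, hw0, hw1, hw2⟩ := mem_hull.1 (h h1)
  refine mem_hull.2 ⟨w, hw0, hw1, ?_⟩
  simp only [smul_sub, Finset.sum_sub_distrib]
  rw [← Finset.sum_smul, hw1, one_smul, hw2]
  ring

omit [Nonempty ι] in
lemma hull_lt {v : ι → ℂ} {z m : ℂ} (hz : z ∈ convexHull ℝ (range v)) {B : ℝ}
    (h : ∀ i, dt (v i) m < B) : dt z m < B := by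
  obtain ⟨w, hw0, hw1, rfl⟩ := mem_hull.1 hz
  rw [dt_sum_left]
  have h1 : ∑ i, w i * dt (v i) m ≤ ∑ i, w i * B :=
    Finset.sum_le_sum fun i _ => mul_le_mul_of_nonneg_left (h i).le (hw0 i)
  rw [← Finset.sum_mul, hw1, one_mul] at h1
  rcases h1.lt_or_eq with h2 | h2
  · exact h2
  · exfalso
    have h3 : ∑ i, w i * (B - dt (v i) m) = 0 := by
      simp only [mul_sub, Finset.sum_sub_distrib]
      rw [← Finset.sum_mul, hw1, one_mul, h2]; ring
    rw [Finset.sum_eq_zero_iff_of_nonneg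
      (fun i _ => mul_nonneg (hw0 i) (sub_pos.2 (h i)).le)] at h3
    have h4 : ∀ i, w i = 0 := fun i => by
      rcases mul_eq_zero.1 (h3 i (Finset.mem_univ _)) with h | h5
      · exact h
      · exact absurd h5 (sub_pos.2 (h i)).ne'
    simp [h4] at hw1

lemma isOpen_bad (hcard : 3 ≤ Fintype.card ι) :
    IsOpen {v : ι → ℂ | Hn v < 4 ∧ ¬ (Ks v ⊆ convexHull ℝ (range v))} := by
  rw [isOpen_iff_mem_nhds]
  rintro v ⟨hH, hbad⟩
  obtain ⟨z, hz, hzh⟩ := not_subset.1 hbad
  obtain ⟨o, ho, ho1⟩ := centre hcard hH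
  obtain ⟨m, hm⟩ := sep (finite_range v) hzh
  have hm' : ∀ i, dt (v i) m < dt z m := fun i => hm _ ⟨i, rfl⟩
  have hcont : ∀ i, ∀ᶠ t : ℝ in 𝓝[>] 0, dt (v i) m < dt ((1 - t) • z + t • o) m := by
    intro i
    have hc : Continuous fun t : ℝ => dt ((1 - t) • z + t • o) m := by
      simp only [dt_add_left, dt_smul_left]; fun_prop
    have h1 : dt (v i) m < (fun t : ℝ => dt ((1 - t) • z + t • o) m) 0 := by
      simpa using hm' i
    exact (hc.continuousAt.eventually_const_lt h1).filter_mono nhdsWithin_le_nhds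
  have h2 : ∀ᶠ t : ℝ in 𝓝[>] 0, t < 1 :=
    (eventually_lt_nhds (by norm_num : (0 : ℝ) < 1)).filter_mono nhdsWithin_le_nhds
  have h3 : ∀ᶠ t : ℝ in 𝓝[>] 0, 0 < t := eventually_mem_nhdsWithin
  obtain ⟨t, ht, ht1, ht0⟩ := ((eventually_all.2 hcont).and (h2.and h3)).exists
  set zt := (1 - t) • z + t • o with hzt
  have hd : ∀ i, dt (zt - v i) (zt - v i) < 1 := by
    intro i
    have e : zt - v i = (1 - t) • (z - v i) + t • (o - v i) := by
      simp only [hzt, Complex.real_smul]; push_cast; ring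
    have h4 := hz i
    have h5 := ho1 i
    have h6 : ‖zt - v i‖ ≤ (1 - t) * ‖z - v i‖ + t * ‖o - v i‖ := by
      rw [e]
      refine (norm_add_le _ _).trans ?_
      rw [norm_smul, norm_smul, Real.norm_eq_abs, Real.norm_eq_abs, abs_of_pos ht0,
        abs_of_pos (by linarith)]
    have h7 : ‖z - v i‖ ≤ 1 := by
      rw [dt_self] at h4; nlinarith [norm_nonneg (z - v i)]
    have h8 : ‖o - v i‖ < 1 := by
      rw [dt_self] at h5; nlinarith [norm_nonneg (o - v i)]
    have h9 : ‖zt - v i‖ < 1 := by nlinarith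
    rw [dt_self]
    nlinarith [norm_nonneg (zt - v i)]
  have hcd : ∀ i : ι, Continuous fun u : ι → ℂ => dt (zt - u i) (zt - u i) := by
    intro i
    unfold dt; fun_prop
  have hcm : ∀ i : ι, Continuous fun u : ι → ℂ => dt (u i) m := by
    intro i
    unfold dt; fun_prop
  have hn1 : ∀ᶠ u : ι → ℂ in 𝓝 v, ∀ i, dt (zt - u i) (zt - u i) < 1 :=
    eventually_all.2 fun i => (hcd i).continuousAt.eventually_lt_const (hd i)
  have hn2 : ∀ᶠ u : ι → ℂ in 𝓝 v, ∀ i, dt (u i) m < dt zt m :=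
    eventually_all.2 fun i => (hcm i).continuousAt.eventually_lt_const (ht i)
  have hn3 : ∀ᶠ u : ι → ℂ in 𝓝 v, Hn u < 4 :=
    continuous_Hn.continuousAt.eventually_lt_const hH
  filter_upwards [hn1, hn2, hn3] with u hu1 hu2 hu3
  refine ⟨hu3, fun hsub => ?_⟩
  have h1 : zt ∈ Ks u := fun j => (hu1 j).le
  have h2 := hull_lt (hsub h1) hu2
  exact lt_irrefl _ h2

theorem exists_min (hcard : 3 ≤ Fintype.card ι) {u0 : ι → ℂ}
    (h0 : Ks u0 ⊆ convexHull ℝ (range u0)) (hH0 : Hn u0 < 4) :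
    ∃ v : ι → ℂ, Ks v ⊆ convexHull ℝ (range v) ∧ Hn v ≤ Hn u0 ∧
      ∀ u : ι → ℂ, Ks u ⊆ convexHull ℝ (range u) → Hn v ≤ Hn u := by
  obtain ⟨i0⟩ := ‹Nonempty ι›
  set F : Set (ι → ℂ) := {v | v i0 = 0 ∧ Hn v ≤ Hn u0} ∩
    {v : ι → ℂ | Hn v < 4 ∧ ¬ (Ks v ⊆ convexHull ℝ (range v))}ᶜ with hF
  have hFc : IsClosed F := by
    apply IsClosed.inter
    · exact (isClosed_eq (continuous_apply i0) continuous_const).inter
        (isClosed_le continuous_Hn continuous_const)
    · exact (isOpen_bad hcard).isClosed_compl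
  have hFb : F ⊆ Metric.closedBall 0 (Hn u0 / 2) := by
    intro v hv
    obtain ⟨⟨h1, h2⟩, -⟩ := hv
    rw [mem_closedBall_zero_iff, pi_norm_le_iff_of_nonempty]
    intro i
    have := diam_le v i i0
    rw [h1, sub_zero] at this
    linarith
  have hFk : IsCompact F := Metric.isCompact_of_isClosed_isBounded hFc
    (Metric.isBounded_closedBall.subset hFb)
  have hmemF : ∀ u : ι → ℂ, Ks u ⊆ convexHull ℝ (range u) → Hn u ≤ Hn u0 →
      (fun i => u i - u i0) ∈ F := by
    intro u hu1 hu2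
    exact ⟨⟨sub_self _, (Hn_sub_le u _).trans hu2⟩, fun h => h.2 (Ks_sub hu1 _)⟩
  obtain ⟨v, hv, hmin⟩ := hFk.exists_isMinOn ⟨_, hmemF u0 h0 le_rfl⟩ continuous_Hn.continuousOn
  have hv1 : Hn v ≤ Hn u0 := hv.1.2
  refine ⟨v, ?_, hv1, fun u hu => ?_⟩
  · by_contra hcon
    exact hv.2 ⟨lt_of_le_of_lt hv1 hH0, hcon⟩
  · rcases le_total (Hn u) (Hn u0) with h1 | h1
    · exact (isMinOn_iff.1 hmin _ (hmemF u hu h1)).trans (Hn_sub_le u _)
    · exact hv1.trans h1

end Pool.Agent.K7.H36.RP
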