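import Pool.Agent.K7.H36.RP.Cone

/-!
# The fans over the edges
-/

set_option autoImplicit false

open Real Set Filter Topology MeasureTheory

namespace Pool.Agent.K7.H36.RP

variable {ι : Type} [Fintype ι] [Nonempty ι]

/-- the situation: `v` is a strictly convex polygon with successor function `σ`, the intersection
`Ks v` of the unit discs around the vertices lies in the polygon, and every vertex is at distance
one from a point of `Ks v` or belongs to `Ks v` -/
structure Conf (v : ι → ℂ) (σ : Equiv.Perm ι) (o : ℂ) (y : ℝ → ℂ) (b ℓ : ι → ℝ) : Prop where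
  ho : ∀ j, dt (o - v j) (o - v j) < 1
  hy : IsMn v y
  hE : EC v σ
  hT : TV σ
  h1 : ∀ j, σ j ≠ j
  h2 : ∀ j, σ (σ j) ≠ j
  hK : Ks v ⊆ convexHull ℝ (range v)
  hℓ : ∀ j, 0 < ℓ j
  hb : ∀ j, v (σ j) - v j = ℓ j • (Complex.I * ev (b j))
  hS : ∀ j, (∃ z ∈ Ks v, dt (z - v j) (z - v j) = 1) ∨ v j ∈ Ks v

variable {v : ι → ℂ} {σ : Equiv.Perm ι} {o : ℂ} {y : ℝ → ℂ} {b ℓ : ι → ℝ}

omit [Fintype ι] [Nonempty ι] in
lemma hull_half {z : ℂ} (hz : z ∈ convexHull ℝ (range v)) {n : ℂ} {B : ℝ}
    (h : ∀ j, dt (v j) n ≤ B) : dt z n ≤ B := by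
  have hconv : Convex ℝ {z : ℂ | dt z n ≤ B} := by
    intro a ha c hc s t hs ht hst
    simp only [mem_ofPred_eq] at *
    rw [dt_add_left, dt_smul_left, dt_smul_left]
    have e1 := mul_le_mul_of_nonneg_left ha hs
    have e2 := mul_le_mul_of_nonneg_left hc ht
    have : s * B + t * B = B := by rw [← add_mul, hst, one_mul]
    linarith
  have hsub : range v ⊆ {z : ℂ | dt z n ≤ B} := by
    rintro _ ⟨j, rfl⟩; exact h j
  exact convexHull_min hsub hconv hz

lemma crI (r : ℝ) (n w : ℂ) : cr (r • (Complex.I * n)) w = - (r * dt w n) := by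
  simp only [cr, dt, Complex.real_smul, Complex.mul_re, Complex.mul_im, Complex.I_re,
    Complex.I_im, Complex.ofReal_re, Complex.ofReal_im]
  ring

namespace Conf

/-- height of the vertices over the line of an edge -/
lemma le_edge (C : Conf v σ o y b ℓ) (j l : ι) : dt (v l - v j) (ev (b j)) ≤ 0 := by
  have h := C.hE.nonneg j l
  rw [C.hb j, crI] at h
  by_contra hcon
  push Not at hcon
  have := mul_pos (C.hℓ j) hcon
  linarith

lemma eq_edge (C : Conf v σ o y b ℓ) (j : ι) : dt (v (σ j) - v j) (ev (b j)) = 0 := by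
  rw [C.hb j, dt_smul_left]
  have : dt (Complex.I * ev (b j)) (ev (b j)) = 0 := by
    simp only [dt, Complex.mul_re, Complex.mul_im, Complex.I_re, Complex.I_im]; ring
  rw [this, mul_zero]

lemma Ks_edge (C : Conf v σ o y b ℓ) {z : ℂ} (hz : z ∈ Ks v) (j : ι) :
    dt (z - v j) (ev (b j)) ≤ 0 := by
  have := hull_half (C.hK hz) (n := ev (b j)) (B := dt (v j) (ev (b j))) (fun l => by
    have := C.le_edge j l
    rw [dt_sub_left] at this
    linarith)
  rw [dt_sub_left]; linarith

lemma Ks_cr (C : Conf v σ o y b ℓ) {z : ℂ} (hz : z ∈ Ks v) (j : ι) :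
    0 ≤ cr (v (σ j) - v j) (z - v j) := by
  rw [C.hb j, crI]
  have := mul_nonneg (C.hℓ j).le (neg_nonneg.2 (C.Ks_edge hz j))
  linarith

lemma Ks_hs (C : Conf v σ o y b ℓ) {z : ℂ} (hz : z ∈ Ks v) (θ : ℝ) : dt z (ev θ) ≤ hs v θ :=
  hull_half (C.hK hz) (fun j => le_hs v θ j)

/-- the normal direction of an edge is not in `Ns` -/
lemma b_notMem (C : Conf v σ o y b ℓ) (j : ι) : b j ∉ Ns v := by
  rintro ⟨k, hk⟩
  have key : ∀ l, dt (v k - v l) (v k - v l) / 2 ≤ dt (v k - v l) (ev (b j)) := by
    intro l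
    have h := hk l
    have h1 : v k - ev (b j) - v l = (v k - v l) - ev (b j) := by ring
    rw [h1, dt_sub_left, dt_sub_right _ _ (v k - v l), dt_sub_right _ _ (ev (b j)), dt_ev,
      dt_comm (ev (b j))] at h
    linarith
  have a1 := key j
  have a2 := C.le_edge j k
  have a3 := dt_self_nonneg (v k - v j)
  have a4 : dt (v k - v j) (v k - v j) = 0 := by linarith
  have a5 : v k = v j := sub_eq_zero.1 (dt_self_eq_zero.1 a4)
  have b1 := key (σ j)
  rw [a5] at b1
  have b2 : dt (v j - v (σ j)) (ev (b j)) = 0 := by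
    have := C.eq_edge j
    rw [← neg_sub, dt_neg_left, this, neg_zero]
  have b3 := dt_self_nonneg (v j - v (σ j))
  rw [b2] at b1
  have b4 : dt (v j - v (σ j)) (v j - v (σ j)) = 0 := by linarith
  have b5 : v j - v (σ j) = 0 := dt_self_eq_zero.1 b4
  have b6 := C.hb j
  have b7 : v (σ j) - v j = 0 := by rw [← neg_sub, b5, neg_zero]
  rw [b7] at b6
  have b8 : ‖ℓ j • (Complex.I * ev (b j))‖ = ℓ j := by
    rw [norm_smul, norm_mul, Complex.norm_I, norm_ev, Real.norm_eq_abs, abs_of_pos (C.hℓ j)]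
    ring
  rw [← b6, norm_zero] at b8
  have := C.hℓ j
  linarith

/-- perimeter of a triangle in the polygon -/
lemma triangle (C : Conf v σ o y b ℓ) {c : ℂ} (hc : c ∈ Ks v) {p q : ι}
    (hp : dt (v p - c) (v p - c) = 1) (hq : dt (v q - c) (v q - c) = 1) :
    2 + ‖v q - v p‖ ≤ Lg v σ := by
  have hnp : ‖v p - c‖ = 1 := by
    rw [dt_self] at hp
    nlinarith [norm_nonneg (v p - c), sq_nonneg (‖v p - c‖ - 1)]
  have hnq : ‖c - v q‖ = 1 := by
    rw [norm_sub_rev]
    rw [dt_self] at hq
    nlinarith [norm_nonneg (v q - c), sq_nonneg (‖v q - c‖ - 1)]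
  have hpt : ∀ θ, |dt (v p - c) (ev θ)| + |dt (v q - v p) (ev θ)| + |dt (c - v q) (ev θ)| ≤
      2 * (hs v θ + hs v (θ + π)) := by
    intro θ
    have a1 := le_hs v θ p
    have a2 := le_hs v θ q
    have a3 := C.Ks_hs hc θ
    have b1 := le_hs v (θ + π) p
    have b2 := le_hs v (θ + π) q
    have b3 := C.Ks_hs hc (θ + π)
    rw [ev_add_pi, dt_neg_right] at b1 b2 b3
    simp only [dt_sub_left]
    rcases abs_cases (dt (v p) (ev θ) - dt c (ev θ)) with h1 | h1 <;>
    rcases abs_cases (dt (v q) (ev θ) - dt (v p) (ev θ)) with h2 | h2 <;>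
    rcases abs_cases (dt c (ev θ) - dt (v q) (ev θ)) with h3 | h3 <;>
    linarith
  have hc1 : ∀ w : ℂ, Continuous fun θ => |dt w (ev θ)| := by
    intro w
    unfold dt; simp only [ev_re, ev_im]; fun_prop
  have hcs := continuous_hs v
  have hcs2 : Continuous fun θ => hs v (θ + π) := by fun_prop
  have h1 : ∫ θ in (0 : ℝ)..(2 * π), (|dt (v p - c) (ev θ)| + |dt (v q - v p) (ev θ)| +
      |dt (c - v q) (ev θ)|) ≤ ∫ θ in (0 : ℝ)..(2 * π), 2 * (hs v θ + hs v (θ + π)) := by
    apply intervalIntegral.integral_mono_on (by positivity)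
    · exact (((hc1 _).add (hc1 _)).add (hc1 _)).intervalIntegrable _ _
    · exact (continuous_const.mul (hcs.add hcs2)).intervalIntegrable _ _
    · intro θ _; exact hpt θ
  have hc3 : Continuous fun θ => |dt (v p - c) (ev θ)| + |dt (v q - v p) (ev θ)| :=
    (hc1 _).add (hc1 _)
  rw [intervalIntegral.integral_add (hc3.intervalIntegrable _ _)
    ((hc1 _).intervalIntegrable _ _),
    intervalIntegral.integral_add ((hc1 _).intervalIntegrable _ _)
    ((hc1 _).intervalIntegrable _ _), int_abs_dt, int_abs_dt, int_abs_dt,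
    intervalIntegral.integral_const_mul,
    intervalIntegral.integral_add (hcs.intervalIntegrable _ _) (hcs2.intervalIntegrable _ _),
    int_shift (per_hs v), hnp, hnq] at h1
  have h2 := int_hs_le (v := v) C.hT
  linarith

/-- everything about one edge -/
lemma edge (C : Conf v σ o y b ℓ) (j : ι) {k0 : ℝ} (hk0 : 0 ≤ k0)
    (hL : 1 - (Lg v σ - 2) ^ 2 / 2 = k0) :
    cr (v j - y (b j)) (v (σ j) - y (b j)) = ℓ j * dt (v j - y (b j)) (ev (b j)) ∧
    0 < cr (v j - y (b j)) (v (σ j) - y (b j)) ∧
    dt (v j - y (b j)) (v j - y (b j)) ≤ 1 ∧ dt (v (σ j) - y (b j)) (v (σ j) - y (b j)) ≤ 1 ∧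
    (dt (v j - y (b j)) (v j - y (b j)) = 1 ∨ dt (v (σ j) - y (b j)) (v (σ j) - y (b j)) = 1) ∧
    k0 * (‖v j - y (b j)‖ * ‖v (σ j) - y (b j)‖) ≤ dt (v j - y (b j)) (v (σ j) - y (b j)) := by
  set c := y (b j) with hc
  set n := ev (b j) with hn
  have hnn : dt n n = 1 := dt_ev _
  have hcK : c ∈ Ks v := (C.hy (b j)).1
  obtain ⟨p, q, hp, hq, hc1, hc2, hD⟩ := kktU C.ho C.hy (C.b_notMem j)
  rw [← hc, ← hn] at hc1 hc2
  rw [← hc] at hp hq hD
  set U1 := v p - c with hU1
  set U2 := v q - c with hU2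
  have hsq : dt (v (σ j) - c) n = dt (v j - c) n := by
    have := C.eq_edge j
    rw [dt_sub_left] at this ⊢
    rw [dt_sub_left]; linarith
  have hw1 : dt U1 n ≤ dt (v j - c) n := by
    have := C.le_edge j p
    rw [hU1, dt_sub_left, dt_sub_left]
    rw [dt_sub_left] at this
    linarith
  have hw2 : dt U2 n ≤ dt (v j - c) n := by
    have := C.le_edge j q
    rw [hU2, dt_sub_left, dt_sub_left]
    rw [dt_sub_left] at this
    linarith
  have hexp : ∀ X Y : ℂ, cr U1 U2 * dt Y X = cr X U2 * dt Y U1 + cr U1 X * dt Y U2 := by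
    intro X Y
    rw [← dt_smul_right, expand X U1 U2, dt_add_right, dt_smul_right, dt_smul_right]
  have hw : 0 < dt (v j - c) n := by
    have e1 := hexp n n
    rw [hnn, mul_one, dt_comm n U1, dt_comm n U2] at e1
    by_contra hcon
    push Not at hcon
    have e2 := mul_le_mul_of_nonneg_left (hw1.trans hcon) hc2.le
    have e3 := mul_le_mul_of_nonneg_left (hw2.trans hcon) hc1.le
    linarith
  have hle : ∀ i, dt (v i - c) (v i - c) ≤ 1 := by
    intro i
    have := hcK i
    have e : dt (v i - c) (v i - c) = dt (c - v i) (c - v i) := by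
      rw [← neg_sub, dt_neg_left, dt_neg_right, neg_neg]
    rw [e]; exact this
  -- the cone
  have cone : ∀ i, dt (v i - c) n = dt (v j - c) n →
      0 ≤ cr U1 (v i - c) ∧ 0 ≤ cr (v i - c) U2 := by
    intro i hi
    exact in_cone hnn hp hq hc1 hc2 hD (hle i) (by rw [hi]; exact hw) (by rw [hi]; exact hw1)
      (by rw [hi]; exact hw2)
  have coef : ∀ i, dt (v i - c) n = dt (v j - c) n →
      cr U1 U2 ≤ cr (v i - c) U2 + cr U1 (v i - c) := by
    intro i hi
    obtain ⟨a1, a2⟩ := cone i hi
    have e1 := hexp (v i - c) n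
    rw [dt_comm n (v i - c), hi, dt_comm n U1, dt_comm n U2] at e1
    have e2 := mul_le_mul_of_nonneg_left hw1 a2
    have e3 := mul_le_mul_of_nonneg_left hw2 a1
    have e4 : cr U1 U2 * dt (v j - c) n ≤ (cr (v i - c) U2 + cr U1 (v i - c)) * dt (v j - c) n := by
      linarith
    exact le_of_mul_le_mul_right e4 hw
  have lens : ∀ i, dt (v i - c) n = dt (v j - c) n →
      (∃ z ∈ Ks v, dt (z - v i) (z - v i) = 1) → dt (v i - c) (v i - c) = 1 := by
    intro i hi ⟨z, hz, hz1⟩
    obtain ⟨a1, a2⟩ := cone i hi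
    have a3 := coef i hi
    have e1 := hexp (v i - c) (z - c)
    have e2 := half_le hz hp
    have e3 := half_le hz hq
    have e4 := dt_self_nonneg (z - c)
    have e5 := mul_le_mul_of_nonneg_left e2 a2
    have e6 := mul_le_mul_of_nonneg_left e3 a1
    have e7 := mul_le_mul_of_nonneg_right a3 (show 0 ≤ dt (z - c) (z - c) / 2 by linarith)
    have e8 : cr U1 U2 * (dt (z - c) (z - c) / 2) ≤ cr U1 U2 * dt (z - c) (v i - c) := by
      rw [e1]; linarith
    have e9 := le_of_mul_le_mul_left e8 hD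
    have e10 : dt (z - v i) (z - v i) = dt (z - c) (z - c) - 2 * dt (z - c) (v i - c) +
        dt (v i - c) (v i - c) := by
      have : z - v i = (z - c) - (v i - c) := by ring
      rw [this, dt_sub_left, dt_sub_right _ _ (z - c), dt_sub_right _ _ (v i - c),
        dt_comm (v i - c) (z - c)]
      ring
    rw [hz1] at e10
    apply le_antisymm (hle i)
    linarith
  have hcr : cr (v j - c) (v (σ j) - c) = ℓ j * dt (v j - c) n := by
    have e1 : v (σ j) - c = (v j - c) + (v (σ j) - v j) := by ring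
    rw [e1, cr_add_right, cr_self, C.hb j, cr_comm, crI]
    ring
  refine ⟨hcr, by rw [hcr]; exact mul_pos (C.hℓ j) hw, hle j, hle (σ j), ?_, ?_⟩
  · -- at least one end point at distance one
    rcases C.hS j with hj | hj
    · left; exact lens j rfl hj
    rcases C.hS (σ j) with hk | hk
    · right; exact lens (σ j) hsq hk
    exfalso
    set m : ℂ := v j + (1 / 2 : ℝ) • (v (σ j) - v j) with hm
    have hstr : ∀ l, dt (m - v l) (m - v l) < 1 := by
      intro l
      have a1 := hj l
      have a2 := hk l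
      have a3 : dt (m - v l) (m - v l) = (dt (v j - v l) (v j - v l) +
          dt (v (σ j) - v l) (v (σ j) - v l)) / 2 - dt (v (σ j) - v j) (v (σ j) - v j) / 4 := by
        rw [hm]
        simp only [dt, Complex.sub_re, Complex.sub_im, Complex.add_re, Complex.add_im,
          Complex.real_smul, Complex.mul_re, Complex.mul_im, Complex.ofReal_re, Complex.ofReal_im]
        ring
      have a4 : 0 < dt (v (σ j) - v j) (v (σ j) - v j) := by
        rw [C.hb j, dt_smul_left, dt_smul_right]
        have : dt (Complex.I * ev (b j)) (Complex.I * ev (b j)) = 1 := by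
          rw [dt_self, norm_mul, Complex.norm_I, norm_ev]; norm_num
        rw [this]
        have := C.hℓ j
        positivity
      linarith
    have hmK : m ∈ Ks v := fun l => (hstr l).le
    obtain ⟨δ, hδ, hmem⟩ := move (w := n) hmK (fun l hl => by
      have := hstr l
      have e : dt (v l - m) (v l - m) = dt (m - v l) (m - v l) := by
        rw [← neg_sub, dt_neg_left, dt_neg_right, neg_neg]
      rw [e] at hl
      linarith)
    have h3 := C.Ks_edge hmem j
    have h4 : dt (m + δ • n - v j) n = δ := by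
      have e1 : m + δ • n - v j = (1 / 2 : ℝ) • (v (σ j) - v j) + δ • n := by rw [hm]; ring
      rw [e1, dt_add_left, dt_smul_left, dt_smul_left, C.eq_edge j, hnn]; ring
    rw [← hn, h4] at h3
    linarith
  · -- the angle bound
    obtain ⟨a1, a2⟩ := cone j rfl
    obtain ⟨b1, b2⟩ := cone (σ j) hsq
    set D := cr U1 U2 with hDdef
    have rep : ∀ X : ℂ, X = (cr X U2 / D) • U1 + (cr U1 X / D) • U2 := by
      intro X
      have e1 : (1 / D) • (D • X) = X := by
        rw [smul_smul, one_div, inv_mul_cancel₀ hD.ne', one_smul]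
      conv_lhs => rw [← e1, expand X U1 U2, smul_add, smul_smul, smul_smul]
      congr 2 <;> ring
    set k := dt U1 U2 with hk
    have hk1 : k0 ≤ k := by
      have e1 := C.triangle hcK hp hq
      have e2 : dt (v q - v p) (v q - v p) = 2 - 2 * k := by
        have : v q - v p = U2 - U1 := by rw [hU1, hU2]; ring
        rw [this, dt_sub_left, dt_sub_right _ _ U2, dt_sub_right _ _ U1, hp, hq, hk, dt_comm U2 U1]
        ring
      rw [dt_self] at e2
      have e3 : ‖v q - v p‖ ≤ Lg v σ - 2 := by linarith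
      have e4 : ‖v q - v p‖ ^ 2 ≤ (Lg v σ - 2) ^ 2 := by
        apply pow_le_pow_left₀ (norm_nonneg _) e3
      linarith
    have hk2 : k ≤ 1 := by
      have := lagr U1 U2
      rw [hp, hq, ← hk] at this
      nlinarith [sq_nonneg (cr U1 U2), sq_nonneg (k - 1)]
    have hnorm : ∀ X : ℂ, 0 ≤ cr X U2 → 0 ≤ cr U1 X → ‖X‖ ≤ cr X U2 / D + cr U1 X / D := by
      intro X h1 h2
      have n1 : ‖U1‖ = 1 := by
        rw [dt_self] at hp
        nlinarith [norm_nonneg U1, sq_nonneg (‖U1‖ - 1)]
      have n2 : ‖U2‖ = 1 := by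
        rw [dt_self] at hq
        nlinarith [norm_nonneg U2, sq_nonneg (‖U2‖ - 1)]
      calc ‖X‖ = ‖(cr X U2 / D) • U1 + (cr U1 X / D) • U2‖ := by rw [← rep X]
        _ ≤ ‖(cr X U2 / D) • U1‖ + ‖(cr U1 X / D) • U2‖ := norm_add_le _ _
        _ = cr X U2 / D + cr U1 X / D := by
          rw [norm_smul, norm_smul, n1, n2, Real.norm_eq_abs, Real.norm_eq_abs,
            abs_of_nonneg (by positivity), abs_of_nonneg (by positivity)]
          ring
    set V := v j - c with hV
    set W := v (σ j) - c with hW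
    have hdt : dt V W = cr V U2 / D * (cr W U2 / D) + cr U1 V / D * (cr U1 W / D) +
        (cr V U2 / D * (cr U1 W / D) + cr U1 V / D * (cr W U2 / D)) * k := by
      conv_lhs => rw [rep V, rep W]
      rw [dt_add_left, dt_add_right _ _ ((cr V U2 / D) • U1),
        dt_add_right _ _ ((cr U1 V / D) • U2)]
      simp only [dt_smul_left, dt_smul_right, hp, hq, dt_comm U2 U1, ← hk]
      ring
    have s1 : 0 ≤ cr V U2 / D := by positivity
    have s2 : 0 ≤ cr U1 V / D := by positivity
    have s3 : 0 ≤ cr W U2 / D := by positivity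
    have s4 : 0 ≤ cr U1 W / D := by positivity
    have n1 := hnorm V a2 a1
    have n2 := hnorm W b2 b1
    have hkk : 0 ≤ k := hk0.trans hk1
    have f1 : k * ((cr V U2 / D + cr U1 V / D) * (cr W U2 / D + cr U1 W / D)) ≤ dt V W := by
      rw [hdt]
      have g1 := mul_nonneg (mul_nonneg s1 s3) (sub_nonneg.2 hk2)
      have g2 := mul_nonneg (mul_nonneg s2 s4) (sub_nonneg.2 hk2)
      nlinarith
    have f2 : ‖V‖ * ‖W‖ ≤ (cr V U2 / D + cr U1 V / D) * (cr W U2 / D + cr U1 W / D) :=
      mul_le_mul n1 n2 (norm_nonneg _) (by positivity)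
    have f3 : k0 * (‖V‖ * ‖W‖) ≤ k * (‖V‖ * ‖W‖) :=
      mul_le_mul_of_nonneg_right hk1 (by positivity)
    have f4 := mul_le_mul_of_nonneg_left f2 hkk
    linarith

/-- the exit point of a ray -/
lemma exit (C : Conf v σ o y b ℓ) {θ : ℝ} (hθ : θ ∉ Ns v) :
    ∃ j, 0 ≤ cr (v j - y (b j)) (ev θ) ∧ 0 ≤ cr (ev θ) (v (σ j) - y (b j)) := by
  classical
  set c := y θ with hc
  have hcK : c ∈ Ks v := (C.hy θ).1
  obtain ⟨p, q, hp, hq, hc1, hc2, hD⟩ := kktU C.ho C.hy hθ
  rw [← hc] at hp hq hc1 hc2 hD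
  set E := ev θ with hE
  have hEE : dt E E = 1 := dt_ev θ
  set U1 := v p - c with hU1
  set U2 := v q - c with hU2
  set s : ι → ℝ := fun j => cr (v (σ j) - v j) E with hs'
  set a : ι → ℝ := fun j => cr (v (σ j) - v j) (c - v j) with ha'
  have ha : ∀ j, 0 ≤ a j := fun j => C.Ks_cr hcK j
  -- some edge is crossed
  have hsum : ∑ j, s j = 0 := by
    simp only [hs', cr_sub_left]
    rw [Finset.sum_sub_distrib, Equiv.sum_comp σ (fun l => cr (v l) E), sub_self]
  have hne : ∃ j, s j < 0 := by
    by_contra hcon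
    push Not at hcon
    have hz : ∀ j, s j = 0 := by
      intro j
      exact (Finset.sum_eq_zero_iff_of_nonneg (fun j _ => hcon j)).1 hsum j (Finset.mem_univ j)
    have h1 := C.hT (fun l => cr E (v l)) q p
    have h2 : ∑ l, |cr E (v (σ l)) - cr E (v l)| = 0 := by
      apply Finset.sum_eq_zero
      intro l _
      have := hz l
      simp only [hs'] at this
      rw [← cr_sub_right, cr_comm, this]; simp
    rw [h2] at h1
    have h3 : cr E (v q) - cr E (v p) = cr E U2 + cr U1 E := by
      rw [hU1, hU2, cr_sub_right, cr_comm (v p - c) E, cr_sub_right]; ring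
    have h4 : 2 * (cr E (v q) - cr E (v p)) ≤ 0 := h1
    rw [h3] at h4
    linarith
  -- the first crossed edge
  obtain ⟨j, hj, hjmin⟩ := Finset.exists_min_image (Finset.univ.filter fun j => s j < 0)
    (fun j => a j / (-s j)) (by
      obtain ⟨j, hj⟩ := hne
      exact ⟨j, by simpa using hj⟩)
  have hsj : s j < 0 := by simpa using hj
  set r := a j / (-s j) with hr
  have hr0 : 0 ≤ r := div_nonneg (ha j) (by linarith)
  have hrj : a j + r * s j = 0 := by
    rw [hr]; field_simp [hsj.ne]; ring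
  have hrl : ∀ l, 0 ≤ a l + r * s l := by
    intro l
    rcases lt_or_ge (s l) 0 with h | h
    · have := hjmin l (by simpa using h)
      rw [le_div_iff₀ (by linarith)] at this
      linarith
    · exact add_nonneg (ha l) (mul_nonneg hr0 h)
  set z := c + r • E with hz
  have hzl : ∀ l, cr (v (σ l) - v l) (z - v l) = a l + r * s l := by
    intro l
    have : z - v l = (c - v l) + r • E := by rw [hz]; ring
    rw [this, cr_add_right, cr_smul_right]
  -- `z` is on the edge
  obtain ⟨i, hi⟩ := σ.surjective j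
  set g := v (σ j) - v j with hg
  have hgg : 0 < dt g g := by
    rw [hg, C.hb j, dt_smul_left, dt_smul_right]
    have : dt (Complex.I * ev (b j)) (Complex.I * ev (b j)) = 1 := by
      rw [dt_self, norm_mul, Complex.norm_I, norm_ev]; norm_num
    rw [this]
    have := C.hℓ j
    positivity
  obtain ⟨t, ht⟩ : ∃ t : ℝ, z = v j + t • g := by
    refine ⟨dt (z - v j) g / dt g g, ?_⟩
    have h1 : cr g (z - v j) = 0 := by rw [hzl j, hrj]
    have h2 : dt g g • (z - v j) = dt (z - v j) g • g := by
      have h3 : dt g g • (z - v j) - dt (z - v j) g • g =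
          cr g (z - v j) • (Complex.I * g) := by
        apply Complex.ext <;>
        simp only [cr, dt, Complex.real_smul, Complex.mul_re, Complex.mul_im, Complex.ofReal_re,
          Complex.ofReal_im, Complex.sub_re, Complex.sub_im, Complex.I_re, Complex.I_im] <;> ring
      rw [h1, zero_smul] at h3
      exact sub_eq_zero.1 h3
    have h4 : (1 / dt g g) • (dt g g • (z - v j)) = z - v j := by
      rw [smul_smul, one_div, inv_mul_cancel₀ hgg.ne', one_smul]
    rw [h2, smul_smul] at h4
    have h5 : z = v j + (z - v j) := by ring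
    conv_lhs => rw [h5, ← h4]
    congr 2
    ring
  have hzj : z - v j = t • g := by rw [ht]; ring
  have ht0 : 0 ≤ t := by
    have h1 := hrl i
    rw [← hzl i, hi] at h1
    have h2 : z - v i = (v j - v i) + t • g := by rw [← hzj]; ring
    rw [h2, cr_add_right, cr_self, zero_add, cr_smul_right] at h1
    have h3 : 0 < cr (v j - v i) g := by
      have h4 := C.hE i (σ j) (by rw [← hi]; exact C.h2 i) (by rw [hi]; exact C.h1 j)
      rw [hi] at h4
      have h5 : v (σ j) - v i = (v j - v i) + g := by rw [hg]; ring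
      rw [h5, cr_add_right, cr_self, zero_add] at h4
      exact h4
    by_contra hcon
    push Not at hcon
    have := mul_pos (neg_pos.2 hcon) h3
    linarith
  have ht1 : t ≤ 1 := by
    have h1 := hrl (σ j)
    rw [← hzl (σ j)] at h1
    have h2 : z - v (σ j) = (t - 1) • g := by
      have : z - v (σ j) = (z - v j) - g := by rw [hg]; ring
      rw [this, hzj, sub_smul, one_smul]
    rw [h2, cr_smul_right] at h1
    have h3 : 0 < cr g (v (σ (σ j)) - v (σ j)) := by
      have h4 := C.hE j (σ (σ j)) (C.h2 j) (C.h1 (σ j))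
      have h5 : v (σ (σ j)) - v j = g + (v (σ (σ j)) - v (σ j)) := by rw [hg]; ring
      rw [h5, cr_add_right, cr_self, zero_add] at h4
      exact h4
    rw [cr_comm] at h3
    by_contra hcon
    push Not at hcon
    nlinarith [mul_pos (sub_pos.2 hcon) h3]
  -- `r` is at most one
  have hzc : z - c = (1 - t) • (v j - c) + t • (v (σ j) - c) := by
    have : z - c = (v j - c) + t • g := by rw [← hzj]; ring
    rw [this, hg]
    module
  have hnle : ∀ l, ‖v l - c‖ ≤ 1 := by
    intro l
    have := mem_Ks_norm.1 hcK l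
    rwa [norm_sub_rev] at this
  have hr1 : r ≤ 1 := by
    have h1 : ‖z - c‖ = r := by
      have : z - c = r • E := by rw [hz]; ring
      rw [this, norm_smul, hE, norm_ev, mul_one, Real.norm_eq_abs, abs_of_nonneg hr0]
    rw [← h1, hzc]
    calc ‖(1 - t) • (v j - c) + t • (v (σ j) - c)‖ ≤
        ‖(1 - t) • (v j - c)‖ + ‖t • (v (σ j) - c)‖ := norm_add_le _ _
      _ = (1 - t) * ‖v j - c‖ + t * ‖v (σ j) - c‖ := by
        rw [norm_smul, norm_smul, Real.norm_eq_abs, Real.norm_eq_abs,
          abs_of_nonneg (by linarith), abs_of_nonneg ht0]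
      _ ≤ (1 - t) * 1 + t * 1 := add_le_add
        (mul_le_mul_of_nonneg_left (hnle j) (by linarith))
        (mul_le_mul_of_nonneg_left (hnle (σ j)) ht0)
      _ = 1 := by ring
  -- normal direction
  set n := ev (b j) with hn
  have hnn : dt n n = 1 := dt_ev _
  have hsn : s j = - (ℓ j * dt E n) := by
    simp only [hs']
    rw [C.hb j, crI]
  have hEn : 0 < dt E n := by
    rw [hsn] at hsj
    by_contra hcon
    push Not at hcon
    have := mul_nonneg (C.hℓ j).le (neg_nonneg.2 hcon)
    linarith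
  have hzn : dt (z - v j) n = 0 := by
    rw [hzj, dt_smul_left, hg, C.eq_edge j, mul_zero]
  have hk : ∀ l, dt (v l - c) n ≤ dt n E := by
    intro l
    have h1 := C.le_edge j l
    have h2 : dt (v l - c) n = dt (v l - v j) n - dt (z - v j) n + r * dt E n := by
      have : v l - c = (v l - v j) - (z - v j) + r • E := by rw [hz]; ring
      rw [this, dt_add_left, dt_sub_left, dt_smul_left]
    rw [h2, hzn, dt_comm n E]
    have h3 := mul_le_mul_of_nonneg_right hr1 hEn.le
    linarith
  obtain ⟨m1, m2⟩ := half_cone hEE hnn hp hq hc1 hc2 hD (by rw [dt_comm]; exact hEn) (hk p) (hk q)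
  have hyc : y (b j) = c := uniqy C.ho C.hy hcK fun w hw => cone_min hp hq hD m1 m2 hw
  -- the line of the edge does not contain `c`
  have haj : 0 < a j := by
    rcases (ha j).lt_or_eq with h | h
    · exact h
    exfalso
    have h1 : cr (v (σ j) - v j) U1 = cr (v (σ j) - v j) (v p - v j) := by
      have : U1 = (v p - v j) - (c - v j) := by rw [hU1]; ring
      rw [this, cr_sub_right]
      have : cr (v (σ j) - v j) (c - v j) = 0 := h.symm
      rw [this, sub_zero]
    have h2 : cr (v (σ j) - v j) U2 = cr (v (σ j) - v j) (v q - v j) := by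
      have : U2 = (v q - v j) - (c - v j) := by rw [hU2]; ring
      rw [this, cr_sub_right]
      have : cr (v (σ j) - v j) (c - v j) = 0 := h.symm
      rw [this, sub_zero]
    have h3 := C.hE.nonneg j p
    have h4 := C.hE.nonneg j q
    rw [← h1] at h3
    rw [← h2] at h4
    have h5 : cr U1 U2 * s j = cr E U2 * cr (v (σ j) - v j) U1 + cr U1 E * cr (v (σ j) - v j) U2 := by
      simp only [hs']
      rw [← cr_smul_right, expand E U1 U2, cr_add_right, cr_smul_right, cr_smul_right]
    have h6 := mul_nonneg hc2.le h3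
    have h7 := mul_nonneg hc1.le h4
    have h8 := mul_pos hD (neg_pos.2 hsj)
    linarith
  have hrpos : 0 < r := div_pos haj (by linarith)
  have hcrVW : cr (v j - c) (v (σ j) - c) = a j := by
    simp only [ha']
    simp only [cr, Complex.sub_re, Complex.sub_im]; ring
  have hzr : z - c = r • E := by rw [hz]; ring
  refine ⟨j, ?_, ?_⟩
  · rw [hyc]
    have h1 : r * cr (v j - c) E = t * a j := by
      rw [← cr_smul_right, ← hzr, hzc, cr_add_right, cr_smul_right, cr_smul_right, cr_self,
        hcrVW]; ring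
    have h2 := mul_nonneg ht0 haj.le
    rw [← h1] at h2
    exact nonneg_of_mul_nonneg_right h2 hrpos
  · rw [hyc]
    have h1 : r * cr E (v (σ j) - c) = (1 - t) * a j := by
      rw [← cr_smul_left, ← hzr, hzc, cr_add_left, cr_smul_left, cr_smul_left, cr_self,
        hcrVW]; ring
    have h2 := mul_nonneg (sub_nonneg.2 ht1) haj.le
    rw [← h1] at h2
    exact nonneg_of_mul_nonneg_right h2 hrpos

/-- the fans cover -/
lemma cover (C : Conf v σ o y b ℓ) (hpos : ∀ j, 0 < cr (v j - y (b j)) (v (σ j) - y (b j))) :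
    AA v ≤ ∑ j, ang (v j - y (b j)) (v (σ j) - y (b j)) := by
  have h1 : ∀ θ, uU v θ ≤ ∑ j, coneI (v j - y (b j)) (v (σ j) - y (b j)) θ := by
    intro θ
    by_cases h : θ ∈ Ns v
    · rw [uU_of_mem h]
      exact Finset.sum_nonneg fun j _ => coneI_nonneg _ _ _
    · rw [uU_of_notMem h]
      obtain ⟨j, hj⟩ := C.exit h
      have : coneI (v j - y (b j)) (v (σ j) - y (b j)) θ = 1 := by
        unfold coneI; rw [if_pos hj]
      rw [← this]
      exact Finset.single_le_sum (fun i _ => coneI_nonneg (v i - y (b i)) (v (σ i) - y (b i)) θ)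
        (Finset.mem_univ j)
  have hint : ∀ s ∈ (Finset.univ : Finset ι), IntervalIntegrable
      (coneI (v s - y (b s)) (v (σ s) - y (b s))) volume 0 (2 * π) := fun s _ => int_coneI _ _ _ _
  calc AA v = ∫ θ in (0 : ℝ)..(2 * π), uU v θ := rfl
    _ ≤ ∫ θ in (0 : ℝ)..(2 * π), ∑ j, coneI (v j - y (b j)) (v (σ j) - y (b j)) θ := by
      apply intervalIntegral.integral_mono_on (by positivity) (intU1 v _ _) _ (fun θ _ => h1 θ)
      have := IntervalIntegrable.sum Finset.univ hint
      have h2 : (∑ i, coneI (v i - y (b i)) (v (σ i) - y (b i))) =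
          fun x => ∑ i, coneI (v i - y (b i)) (v (σ i) - y (b i)) x := by
        funext x; rw [Finset.sum_apply]
      rwa [h2] at this
    _ = ∑ j, ∫ θ in (0 : ℝ)..(2 * π), coneI (v j - y (b j)) (v (σ j) - y (b j)) θ :=
      intervalIntegral.integral_finsetSum hint
    _ ≤ ∑ j, ang (v j - y (b j)) (v (σ j) - y (b j)) :=
      Finset.sum_le_sum fun j _ => meas_coneI (hpos j)

end Conf

end Pool.Agent.K7.H36.RP
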