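import Pool.Agent.K7.H36.RP.Rein

/-!
# The regular nonagon, and the conclusion
-/

set_option autoImplicit false

open Real Set Filter Topology MeasureTheory

namespace Pool.Agent.K7.H36.RP

/-- the vertices of the regular nonagon on the unit circle -/
noncomputable def zk (k : Fin 9) : ℂ := Complex.exp (2 * π * Complex.I * (k : ℕ) / 9)

lemma zk_ev (k : Fin 9) : zk k = ev (2 * π * (k : ℕ) / 9) := by
  unfold zk
  have : (2 * π * Complex.I * (k : ℕ) / 9 : ℂ) = ((2 * π * (k : ℕ) / 9 : ℝ) : ℂ) * Complex.I := by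
    push_cast; ring
  rw [this]
  apply Complex.ext
  · rw [Complex.exp_ofReal_mul_I_re, ev_re]
  · rw [Complex.exp_ofReal_mul_I_im, ev_im]

lemma dt_ev_sub (α β : ℝ) : dt (ev α - ev β) (ev α - ev β) = 2 - 2 * Real.cos (α - β) := by
  rw [Real.cos_sub]
  have h1 := Real.sin_sq_add_cos_sq α
  have h2 := Real.sin_sq_add_cos_sq β
  simp only [dt, Complex.sub_re, Complex.sub_im, ev_re, ev_im]
  linear_combination h1 + h2

lemma cosm {m : ℕ} (h1 : 1 ≤ m) (h8 : m ≤ 8) : Real.cos (2 * π * m / 9) ≤ cC := by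
  have hc : cC = Real.cos (2 * π / 9) := by
    have := Real.cos_two_mul (π / 9)
    rw [show 2 * (π / 9) = 2 * π / 9 by ring] at this
    rw [this]; rfl
  have hπ := Real.pi_pos
  have h1' : (1 : ℝ) ≤ m := by exact_mod_cast h1
  have h8' : (m : ℝ) ≤ 8 := by exact_mod_cast h8
  rw [hc]
  rcases Nat.lt_or_ge m 5 with h | h
  · have h4 : (m : ℝ) ≤ 4 := by exact_mod_cast (by omega : m ≤ 4)
    apply Real.cos_le_cos_of_nonneg_of_le_pi (by positivity)
    · rw [div_le_iff₀ (by norm_num)]; nlinarith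
    · have := mul_le_mul_of_nonneg_left h1' (by positivity : (0 : ℝ) ≤ 2 * π)
      linarith
  · have h5 : (5 : ℝ) ≤ m := by exact_mod_cast h
    have e : Real.cos (2 * π * m / 9) = Real.cos (2 * π - 2 * π * m / 9) := by
      rw [Real.cos_two_pi_sub]
    rw [e]
    apply Real.cos_le_cos_of_nonneg_of_le_pi (by positivity)
    · nlinarith
    · nlinarith

lemma zk_dist {k l : Fin 9} (h : k ≠ l) : 2 * sA ≤ ‖zk k - zk l‖ := by
  have hs : (2 * sA) ^ 2 = 2 - 2 * cC := by
    have := sq_eq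
    unfold cC
    linear_combination 4 * this
  have hv : (k : ℕ) ≠ (l : ℕ) := fun e => h (Fin.ext e)
  have hk := k.isLt
  have hl := l.isLt
  have key : Real.cos (2 * π * (k : ℕ) / 9 - 2 * π * (l : ℕ) / 9) ≤ cC := by
    rcases Nat.lt_or_ge (k : ℕ) l with h1 | h1
    · have h2 := cosm (m := (l : ℕ) - k) (by omega) (by omega)
      rw [Nat.cast_sub h1.le] at h2
      rw [← Real.cos_neg]
      convert h2 using 2
      ring
    · have h2 := cosm (m := (k : ℕ) - l) (by omega) (by omega)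
      rw [Nat.cast_sub h1] at h2
      convert h2 using 2
      ring
  apply le_of_abs_le
  apply abs_le_of_sq_le_sq _ (norm_nonneg _)
  rw [hs, ← dt_self, zk_ev, zk_ev, dt_ev_sub]
  linarith

lemma zk_norm (k : Fin 9) : ‖zk k‖ = 1 := by rw [zk_ev, norm_ev]

/-- regular nonagons have a large ratio -/
lemma reg_lower {w : Fin 9 → ℂ} (hE : EC w (finRotate 9)) {o a : ℂ}
    (hr : ∀ i, ∃ k : Fin 9, w i = o + a * zk k) :
    18 * eA / dA ≤ Lg w (finRotate 9) / selfR (bdry w (finRotate 9)) := by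
  choose f hf using hr
  have hne : ∀ i, w (finRotate 9 i) ≠ w i := fun i =>
    sub_ne_zero.1 (ne_of_EC hE rot_ne rot_ne2 i)
  have hedge : ∀ i, ‖a‖ * (2 * sA) ≤ ‖w (finRotate 9 i) - w i‖ := by
    intro i
    have hk : f (finRotate 9 i) ≠ f i := by
      intro e
      apply hne i
      rw [hf, hf, e]
    have e : w (finRotate 9 i) - w i = a * (zk (f (finRotate 9 i)) - zk (f i)) := by
      rw [hf (finRotate 9 i), hf i]; ring
    rw [e, norm_mul]
    exact mul_le_mul_of_nonneg_left (zk_dist hk) (norm_nonneg _)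
  have ha0 : 0 < ‖a‖ := by
    rw [norm_pos_iff]
    rintro rfl
    apply hne 0
    rw [hf, hf, zero_mul, zero_mul]
  have hLg : 18 * sA * ‖a‖ ≤ Lg w (finRotate 9) := by
    have h1 : ∑ _i : Fin 9, ‖a‖ * (2 * sA) ≤ Lg w (finRotate 9) :=
      Finset.sum_le_sum fun i _ => hedge i
    rw [Finset.sum_const, Finset.card_univ, Fintype.card_fin] at h1
    simp only [nsmul_eq_mul] at h1
    push_cast at h1
    linarith
  have hrad : ∀ i, ‖w i - o‖ = ‖a‖ := by
    intro i
    rw [hf i, add_sub_cancel_left, norm_mul, zk_norm, mul_one]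
  have hR : selfR (bdry w (finRotate 9)) ≤ ‖a‖ * (1 + cA) := by
    set q := w (finRotate 9 0) with hq
    have hx : (1 / 2 : ℝ) • w 0 + (1 / 2 : ℝ) • q ∈ bdry w (finRotate 9) :=
      mem_iUnion.2 ⟨0, 1 / 2, 1 / 2, by norm_num, by norm_num, by norm_num, rfl⟩
    apply selfR_le hx
    intro j
    have h1 : dt ((1 / 2 : ℝ) • w 0 + (1 / 2 : ℝ) • q - o)
        ((1 / 2 : ℝ) • w 0 + (1 / 2 : ℝ) • q - o) =
        (dt (w 0 - o) (w 0 - o) + dt (q - o) (q - o)) / 2 - dt (q - w 0) (q - w 0) / 4 := by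
      simp only [dt, Complex.sub_re, Complex.sub_im, Complex.add_re, Complex.add_im,
        Complex.real_smul, Complex.mul_re, Complex.mul_im, Complex.ofReal_re, Complex.ofReal_im]
      ring
    have h2 := hedge 0
    rw [← hq] at h2
    have h3 : (‖a‖ * (2 * sA)) ^ 2 ≤ ‖q - w 0‖ ^ 2 :=
      pow_le_pow_left₀ (mul_nonneg (norm_nonneg _) (by linarith [sA_pos])) h2 2
    rw [dt_self, dt_self, dt_self, dt_self, hrad, hq, hrad, ← hq] at h1
    have h4 : ‖(1 / 2 : ℝ) • w 0 + (1 / 2 : ℝ) • q - o‖ ≤ ‖a‖ * cA := by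
      apply le_of_abs_le
      apply abs_le_of_sq_le_sq _ (mul_nonneg (norm_nonneg _) (by linarith [cA_lo]))
      rw [h1]
      have h5 := sq_eq
      have h6 : (‖a‖ * cA) ^ 2 = ‖a‖ ^ 2 - ‖a‖ ^ 2 * sA ^ 2 := by
        linear_combination ‖a‖ ^ 2 * h5
      rw [h6]
      nlinarith
    have h5 := norm_add_le ((1 / 2 : ℝ) • w 0 + (1 / 2 : ℝ) • q - o) (o - w j)
    rw [show (1 / 2 : ℝ) • w 0 + (1 / 2 : ℝ) • q - o + (o - w j) =
      (1 / 2 : ℝ) • w 0 + (1 / 2 : ℝ) • q - w j by ring, norm_sub_rev o (w j), hrad] at h5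
    linarith
  have hR0 : 0 < selfR (bdry w (finRotate 9)) := selfR_pos (hne 0)
  have hd := dA_pos
  rw [div_le_div_iff₀ hd hR0]
  have e1 : sA = 2 * eA * dA := by
    have := Real.sin_two_mul (π / 18)
    rw [show 2 * (π / 18) = π / 9 by ring] at this
    exact this
  have e2 : 1 + cA = 2 * dA ^ 2 := by rw [dA_sq]; ring
  have he := eA_pos
  calc 18 * eA * selfR (bdry w (finRotate 9)) ≤ 18 * eA * (‖a‖ * (1 + cA)) :=
        mul_le_mul_of_nonneg_left hR (by positivity)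
    _ = 18 * sA * ‖a‖ * dA := by rw [e2, e1]; ring
    _ ≤ Lg w (finRotate 9) * dA := mul_le_mul_of_nonneg_right hLg hd.le

/-- the polygon `RR` is not regular -/
lemma RR_not_reg : ¬ ∃ o a : ℂ, ∀ i, ∃ k : Fin 9, RR i = o + a * zk k := by
  rintro ⟨o, a, h⟩
  have hrad : ∀ i, dt (RR i - o) (RR i - o) = ‖a‖ ^ 2 := by
    intro i
    obtain ⟨k, hk⟩ := h i
    rw [hk, add_sub_cancel_left, dt_self, norm_mul, zk_norm, mul_one]
  have h0 := hrad 0
  have h1 := hrad 1
  have h3 := hrad 3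
  have h6 := hrad 6
  simp only [R0, R1, R3, R6, dt, Complex.sub_re, Complex.sub_im] at h0 h1 h3 h6
  have e0 : o.re = 1 / 2 := by linear_combination (-1 / 2) * h0 + (1 / 2) * h6
  have e1 : cA * o.re + sA * o.im = 1 / 2 := by
    have := sq_eq
    linear_combination (-1 / 2) * h1 + (1 / 2) * h6 + (1 / 2) * this
  have e3 : o.re / 2 + sB * o.im = 1 / 2 := by
    have := sB_sq
    linear_combination (-1 / 2) * h3 + (1 / 2) * h6 + (1 / 2) * this
  rw [e0] at e1 e3
  have b1 := cA_lo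
  have b2 := sA_lo
  have b3 := sB_hi
  have b4 := sB_pos
  -- `o.im = (1 / 4) / sB` and `o.im = (1 - cA) / (2 sA)`
  have g1 : 28 / 100 < o.im := by nlinarith
  have g2 : sA * o.im < 31 / 1000 := by linarith
  nlinarith

lemma Lam_le : 18 * eA / dA ≤ 31739 / 10000 := by
  rw [div_le_iff₀ dA_pos]
  apply le_of_abs_le
  apply abs_le_of_sq_le_sq _ (mul_nonneg (by norm_num) dA_pos.le)
  rw [mul_pow, mul_pow, eA_sq, dA_sq]
  have := cA_lo
  linarith

lemma reindex {w v : Fin 9 → ℂ} (h : range w = range v) : Hn w = Hn v :=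
  le_antisymm (Hn_mono fun i => subset_convexHull ℝ _ (h ▸ ⟨i, rfl⟩))
    (Hn_mono fun i => subset_convexHull ℝ _ (h ▸ ⟨i, rfl⟩))

/-- **The conclusion**: there is an extremal convex nonagon that is not regular. -/
theorem final : ∃ v : Fin 9 → ℂ,
    (∀ i j k : Fin 9, i < j → j < k → 0 < cr (v j - v i) (v k - v i)) ∧
    (¬ ∃ o a : ℂ, ∀ i, ∃ k : Fin 9, v i = o + a * zk k) ∧
    ∀ w : Fin 9 → ℂ, (∀ i j k : Fin 9, i < j → j < k → 0 < cr (w j - w i) (w k - w i)) →
      Lg v (finRotate 9) / selfR (bdry v (finRotate 9)) ≤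
        Lg w (finRotate 9) / selfR (bdry w (finRotate 9)) := by
  have hTr : TV (finRotate 9) := cyc_TV rot_cycle
  have hcard : 3 ≤ Fintype.card (Fin 9) := by rw [Fintype.card_fin]; norm_num
  -- the scaled Reinhardt polygon
  have hRE := EC_of_triples RR_convex
  have hc : 0 < dA⁻¹ := inv_pos.2 dA_pos
  set u0 : Fin 9 → ℂ := fun i => dA⁻¹ • RR i with hu0
  have hE0 : EC u0 (finRotate 9) := EC_smul hRE hc
  have hL0 : Lg u0 (finRotate 9) = 18 * eA / dA := by
    rw [hu0, Lg_smul hc, RR_Lg]; field_simp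
  have hH0 : Hn u0 = 18 * eA / dA := by rw [Hn_eq_Lg hE0 hTr, hL0]
  have hF0 : Far u0 (finRotate 9) 1 := by
    have := far_smul hc RR_far
    rwa [inv_mul_cancel₀ dA_pos.ne'] at this
  have hlam := Lam_le
  have hH04 : Hn u0 < 4 := by rw [hH0]; linarith
  have hK0 := Ks_of_far hE0 rot_ne rot_ne2 hcard hH04 hF0
  obtain ⟨v, hKv, hHv, hmin⟩ := exists_min hcard hK0 hH04
  have hm : Hn v ≤ 31739 / 10000 := by rw [hH0] at hHv; linarith
  have hX := min_ext (by rw [Fintype.card_fin]) hKv hm hmin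
  obtain ⟨σ, hE, h1, h2⟩ := hX.exists_succ hcard
  have hcyc := hX.cycle hE h1 h2
  set w : Fin 9 → ℂ := fun i => v ((σ ^ (i : ℕ)) 0) with hw
  have hwc : ∀ i j k : Fin 9, i < j → j < k → 0 < cr (w j - w i) (w k - w i) := by
    intro i j k hij hjk
    exact triples hE hcyc 0 (Fin.lt_def.1 hij) (Fin.lt_def.1 hjk)
      (by rw [Fintype.card_fin]; exact k.isLt)
  have hrange : range w = range v := by
    ext z
    constructor
    · rintro ⟨i, rfl⟩; exact ⟨_, rfl⟩
    · rintro ⟨l, rfl⟩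
      obtain ⟨n, hn, e⟩ := cyc_surj hcyc 0 l
      rw [Fintype.card_fin] at hn
      exact ⟨⟨n, hn⟩, by simp only [hw]; rw [e]⟩
  have hHw := reindex hrange
  have hKw : Ks w ⊆ convexHull ℝ (range w) := by
    rw [hrange]
    refine fun z hz => hKv (Ks_anti (u := w) (v := v) (fun i => ?_) hz)
    rw [hrange]
    exact subset_convexHull ℝ _ ⟨i, rfl⟩
  have hEw := EC_of_triples hwc
  have hFw := far_of_Ks hEw rot_ne rot_ne2 hKw
  have hδw := le_selfR hFw
  have hLw : Lg w (finRotate 9) = Hn v := by rw [← Hn_eq_Lg hEw hTr, hHw]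
  have hge : ∀ z : Fin 9 → ℂ, (∀ i j k : Fin 9, i < j → j < k → 0 < cr (z j - z i) (z k - z i)) →
      Hn v ≤ Lg z (finRotate 9) / selfR (bdry z (finRotate 9)) := fun z hz =>
    ratio_ge (EC_of_triples hz) rot_ne rot_ne2 hTr hcard (by linarith) hmin
  have hH0' : 0 ≤ Hn v := by rw [← hLw]; exact Finset.sum_nonneg fun i _ => norm_nonneg _
  have hratio : Lg w (finRotate 9) / selfR (bdry w (finRotate 9)) ≤ Hn v := by
    rw [hLw]
    exact div_le_self hH0' hδw
  by_cases hreg : ∃ o a : ℂ, ∀ i, ∃ k : Fin 9, w i = o + a * zk k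
  · obtain ⟨o, a, hr⟩ := hreg
    have h3 := reg_lower hEw hr
    refine ⟨RR, RR_convex, RR_not_reg, fun z hz => ?_⟩
    have h4 : Lg RR (finRotate 9) / selfR (bdry RR (finRotate 9)) ≤ 18 * eA / dA := by
      rw [RR_Lg]
      exact div_le_div_of_nonneg_left (by linarith [eA_pos]) dA_pos (le_selfR RR_far)
    exact h4.trans (h3.trans (hratio.trans (hge z hz)))
  · exact ⟨w, hwc, hreg, fun z hz => hratio.trans (hge z hz)⟩

end Pool.Agent.K7.H36.RP
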