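import Pool.Agent.K7.H36.RP.Fan
import Mathlib.Analysis.Convex.Radon

/-!
# Convex hulls of finite families, the perimeter of the hull
-/

set_option autoImplicit false

open Real Set Filter Topology MeasureTheory

namespace Pool.Agent.K7.H36.RP

section

variable {ι κ : Type} [Fintype ι] [Fintype κ]

lemma mem_hull {v : ι → ℂ} {z : ℂ} : z ∈ convexHull ℝ (range v) ↔
    ∃ w : ι → ℝ, (∀ i, 0 ≤ w i) ∧ ∑ i, w i = 1 ∧ ∑ i, w i • v i = z := by
  classical
  constructor
  · intro hz
    have hconv : Convex ℝ {z : ℂ | ∃ w : ι → ℝ, (∀ i, 0 ≤ w i) ∧ ∑ i, w i = 1 ∧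
        ∑ i, w i • v i = z} := by
      rintro _ ⟨w1, h1, h2, rfl⟩ _ ⟨w2, h3, h4, rfl⟩ a b ha hb hab
      refine ⟨fun i => a * w1 i + b * w2 i, fun i => add_nonneg (mul_nonneg ha (h1 i))
        (mul_nonneg hb (h3 i)), ?_, ?_⟩
      · rw [Finset.sum_add_distrib, ← Finset.mul_sum, ← Finset.mul_sum, h2, h4]; linarith
      · simp only [add_smul, Finset.sum_add_distrib, Finset.smul_sum, mul_smul]
    have hsub : range v ⊆ {z : ℂ | ∃ w : ι → ℝ, (∀ i, 0 ≤ w i) ∧ ∑ i, w i = 1 ∧
        ∑ i, w i • v i = z} := by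
      rintro _ ⟨j, rfl⟩
      refine ⟨fun i => if i = j then 1 else 0, fun i => by positivity, by simp, ?_⟩
      simp
    exact convexHull_min hsub hconv hz
  · rintro ⟨w, h1, h2, rfl⟩
    exact (convex_convexHull ℝ (range v)).sum_mem (fun i _ => h1 i) h2
      (fun i _ => subset_convexHull ℝ _ ⟨i, rfl⟩)

lemma dt_sum_left {w : ι → ℝ} {v : ι → ℂ} (m : ℂ) :
    dt (∑ i, w i • v i) m = ∑ i, w i * dt (v i) m := by
  simp only [dt, Complex.re_sum, Complex.im_sum, Finset.sum_mul, ← Finset.sum_add_distrib,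
    Complex.real_smul, Complex.mul_re, Complex.mul_im, Complex.ofReal_re, Complex.ofReal_im]
  apply Finset.sum_congr rfl
  intro i _
  ring

lemma sepS {s : Set ℂ} (hc : Convex ℝ s) (hcl : IsClosed s) {z : ℂ} (hz : z ∉ s) :
    ∃ m : ℂ, ∀ a ∈ s, dt a m < dt z m := by
  obtain ⟨f, u, h1, h2⟩ := geometric_hahn_banach_closed_point hc hcl hz
  refine ⟨⟨f 1, f Complex.I⟩, fun a ha => ?_⟩
  have key : ∀ x : ℂ, f x = dt x ⟨f 1, f Complex.I⟩ := by
    intro x
    have hx : x = x.re • (1 : ℂ) + x.im • Complex.I := by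
      apply Complex.ext <;> simp
    conv_lhs => rw [hx]
    rw [map_add, map_smul, map_smul]
    simp [dt]
  rw [← key, ← key]
  exact (h1 a ha).trans h2

lemma sep {s : Set ℂ} (hs : s.Finite) {z : ℂ} (hz : z ∉ convexHull ℝ s) :
    ∃ m : ℂ, ∀ a ∈ s, dt a m < dt z m := by
  obtain ⟨m, hm⟩ := sepS (convex_convexHull ℝ s) (hs.isClosed_convexHull ℝ) hz
  exact ⟨m, fun a ha => hm a (subset_convexHull ℝ s ha)⟩

end

section

variable {ι κ : Type} [Fintype ι] [Fintype κ] [Nonempty ι] [Nonempty κ]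

/-- the perimeter of the convex hull (Cauchy) -/
noncomputable def Hn (v : ι → ℂ) : ℝ := ∫ θ in (0 : ℝ)..(2 * π), hs v θ

lemma hull_hs {v : ι → ℂ} {z : ℂ} (hz : z ∈ convexHull ℝ (range v)) (θ : ℝ) :
    dt z (ev θ) ≤ hs v θ := hull_half hz (fun j => le_hs v θ j)

lemma hs_mono {u : κ → ℂ} {v : ι → ℂ} (h : ∀ i, u i ∈ convexHull ℝ (range v)) (θ : ℝ) :
    hs u θ ≤ hs v θ := hs_le fun i => hull_hs (h i) θ

lemma Hn_mono {u : κ → ℂ} {v : ι → ℂ} (h : ∀ i, u i ∈ convexHull ℝ (range v)) :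
    Hn u ≤ Hn v := by
  apply intervalIntegral.integral_mono_on (by positivity)
    ((continuous_hs u).intervalIntegrable _ _) ((continuous_hs v).intervalIntegrable _ _)
  intro θ _
  exact hs_mono h θ

lemma Hn_lt {u : κ → ℂ} {v : ι → ℂ} (h : ∀ i, u i ∈ convexHull ℝ (range v)) {m : ℂ} {a : ι}
    (ha : ∀ i, dt (u i) m < dt (v a) m) : Hn u < Hn v := by
  have hm : m ≠ 0 := by
    rintro rfl
    obtain ⟨i⟩ := ‹Nonempty κ›
    have := ha i
    simp at this
  have hm0 : 0 < ‖m‖ := norm_pos_iff.2 hm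
  obtain ⟨φ, hφ⟩ := exists_polar hm
  have hlt : ∀ i, dt (u i) (ev φ) < dt (v a) (ev φ) := by
    intro i
    have := ha i
    rw [hφ, dt_smul_right, dt_smul_right] at this
    exact lt_of_mul_lt_mul_left this hm0.le
  have hφlt : hs u φ < hs v φ := by
    obtain ⟨i, hi⟩ := exists_hs u φ
    rw [hi]
    exact (hlt i).trans_le (le_hs v φ a)
  have e1 : Hn u = ∫ θ in φ..(φ + 2 * π), hs u θ := by
    have := (per_hs u).intervalIntegral_add_eq φ 0
    rw [this, zero_add]; rfl
  have e2 : Hn v = ∫ θ in φ..(φ + 2 * π), hs v θ := by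
    have := (per_hs v).intervalIntegral_add_eq φ 0
    rw [this, zero_add]; rfl
  rw [e1, e2]
  apply intervalIntegral.integral_lt_integral_of_continuousOn_of_le_of_exists_lt
    (by linarith [Real.pi_pos]) (continuous_hs u).continuousOn (continuous_hs v).continuousOn
  · intro θ _; exact hs_mono h θ
  · exact ⟨φ, ⟨le_rfl, by linarith [Real.pi_pos]⟩, hφlt⟩

lemma hs_lip (u v : ι → ℂ) (θ : ℝ) : hs u θ ≤ hs v θ + ‖u - v‖ := by
  apply hs_le
  intro i
  have h1 := le_hs v θ i
  have h2 := dt_le (u i - v i) (ev θ)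
  rw [norm_ev, mul_one, dt_sub_left] at h2
  have h3 : ‖u i - v i‖ ≤ ‖u - v‖ := norm_le_pi_norm (u - v) i
  linarith

lemma continuous_Hn : Continuous (Hn : (ι → ℂ) → ℝ) := by
  have : LipschitzWith ⟨2 * π, by positivity⟩ (Hn : (ι → ℂ) → ℝ) := by
    apply LipschitzWith.of_le_add_mul
    intro u v
    have h1 : Hn u ≤ ∫ θ in (0 : ℝ)..(2 * π), (hs v θ + ‖u - v‖) := by
      apply intervalIntegral.integral_mono_on (by positivity)
        ((continuous_hs u).intervalIntegrable _ _)
        (((continuous_hs v).add continuous_const).intervalIntegrable _ _)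
      intro θ _
      exact hs_lip u v θ
    rw [intervalIntegral.integral_add ((continuous_hs v).intervalIntegrable _ _)
      (continuous_const.intervalIntegrable _ _), intervalIntegral.integral_const, sub_zero,
      smul_eq_mul] at h1
    rw [dist_eq_norm]
    exact h1
  exact this.continuous

lemma tri_le (v : ι → ℂ) (a b c : ι) :
    ‖v a - v b‖ + ‖v b - v c‖ + ‖v c - v a‖ ≤ Hn v := by
  have hpt : ∀ θ, |dt (v a - v b) (ev θ)| + |dt (v b - v c) (ev θ)| + |dt (v c - v a) (ev θ)| ≤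
      2 * (hs v θ + hs v (θ + π)) := by
    intro θ
    have a1 := le_hs v θ a
    have a2 := le_hs v θ b
    have a3 := le_hs v θ c
    have b1 := le_hs v (θ + π) a
    have b2 := le_hs v (θ + π) b
    have b3 := le_hs v (θ + π) c
    rw [ev_add_pi, dt_neg_right] at b1 b2 b3
    simp only [dt_sub_left]
    rcases abs_cases (dt (v a) (ev θ) - dt (v b) (ev θ)) with h1 | h1 <;>
    rcases abs_cases (dt (v b) (ev θ) - dt (v c) (ev θ)) with h2 | h2 <;>
    rcases abs_cases (dt (v c) (ev θ) - dt (v a) (ev θ)) with h3 | h3 <;>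
    linarith
  have hc1 : ∀ w : ℂ, Continuous fun θ => |dt w (ev θ)| := by
    intro w
    unfold dt; simp only [ev_re, ev_im]; fun_prop
  have hcs := continuous_hs v
  have hcs2 : Continuous fun θ => hs v (θ + π) := by fun_prop
  have h1 : ∫ θ in (0 : ℝ)..(2 * π), (|dt (v a - v b) (ev θ)| + |dt (v b - v c) (ev θ)| +
      |dt (v c - v a) (ev θ)|) ≤ ∫ θ in (0 : ℝ)..(2 * π), 2 * (hs v θ + hs v (θ + π)) := by
    apply intervalIntegral.integral_mono_on (by positivity)
    · exact (((hc1 _).add (hc1 _)).add (hc1 _)).intervalIntegrable _ _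
    · exact (continuous_const.mul (hcs.add hcs2)).intervalIntegrable _ _
    · intro θ _; exact hpt θ
  have hc3 : Continuous fun θ => |dt (v a - v b) (ev θ)| + |dt (v b - v c) (ev θ)| :=
    (hc1 _).add (hc1 _)
  rw [intervalIntegral.integral_add (hc3.intervalIntegrable _ _)
    ((hc1 _).intervalIntegrable _ _),
    intervalIntegral.integral_add ((hc1 _).intervalIntegrable _ _)
    ((hc1 _).intervalIntegrable _ _), int_abs_dt, int_abs_dt, int_abs_dt,
    intervalIntegral.integral_const_mul,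
    intervalIntegral.integral_add (hcs.intervalIntegrable _ _) (hcs2.intervalIntegrable _ _),
    int_shift (per_hs v)] at h1
  unfold Hn
  linarith

lemma diam_le (v : ι → ℂ) (a b : ι) : 2 * ‖v a - v b‖ ≤ Hn v := by
  have := tri_le v a b a
  rw [norm_sub_rev (v b) (v a), sub_self, norm_zero] at this
  linarith

/-- a point of a triangle at distance at most a quarter of the perimeter from the vertices -/
lemma tri_centre (a b c : ℂ) : ∃ o ∈ convexHull ℝ ({a, b, c} : Set ℂ),
    ‖o - a‖ ≤ (‖a - b‖ + ‖b - c‖ + ‖c - a‖) / 4 ∧ ‖o - b‖ ≤ (‖a - b‖ + ‖b - c‖ + ‖c - a‖) / 4 ∧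
    ‖o - c‖ ≤ (‖a - b‖ + ‖b - c‖ + ‖c - a‖) / 4 := by
  set p := ‖a - b‖ + ‖b - c‖ + ‖c - a‖ with hp
  have hconv := convex_convexHull ℝ ({a, b, c} : Set ℂ)
  have ha : a ∈ convexHull ℝ ({a, b, c} : Set ℂ) := subset_convexHull ℝ _ (by simp)
  have hb : b ∈ convexHull ℝ ({a, b, c} : Set ℂ) := subset_convexHull ℝ _ (by simp)
  have hc : c ∈ convexHull ℝ ({a, b, c} : Set ℂ) := subset_convexHull ℝ _ (by simp)
  -- the point `q` on the side `b c`
  obtain ⟨q, hq, hqb, hqc⟩ : ∃ q ∈ convexHull ℝ ({a, b, c} : Set ℂ),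
      ‖q - b‖ ≤ p / 2 - ‖a - b‖ ∧ ‖q - c‖ ≤ p / 2 - ‖c - a‖ := by
    have t1 : ‖a - b‖ ≤ ‖b - c‖ + ‖c - a‖ := by
      have := norm_add_le (a - c) (c - b)
      rw [show a - c + (c - b) = a - b by ring, norm_sub_rev a c, norm_sub_rev c b] at this
      linarith
    have t2 : ‖c - a‖ ≤ ‖a - b‖ + ‖b - c‖ := by
      have := norm_add_le (c - b) (b - a)
      rw [show c - b + (b - a) = c - a by ring, norm_sub_rev c b, norm_sub_rev b a] at this
      linarith
    rcases eq_or_ne b c with hbc | hbc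
    · subst hbc
      refine ⟨b, hb, ?_, ?_⟩ <;> rw [sub_self, norm_zero]
      · rw [sub_self, norm_zero] at t1 t2; rw [hp, sub_self, norm_zero]; linarith
      · rw [sub_self, norm_zero] at t1 t2; rw [hp, sub_self, norm_zero]; linarith
    · have hbc0 : 0 < ‖b - c‖ := norm_pos_iff.2 (sub_ne_zero.2 hbc)
      set t := (p / 2 - ‖a - b‖) / ‖b - c‖ with ht
      have ht0 : 0 ≤ t := div_nonneg (by linarith) hbc0.le
      have ht1 : t ≤ 1 := by rw [ht, div_le_one hbc0]; linarith
      refine ⟨(1 - t) • b + t • c, hconv hb hc (by linarith) ht0 (by ring), ?_, ?_⟩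
      · have e : (1 - t) • b + t • c - b = t • (c - b) := by
          simp only [sub_smul, one_smul, smul_sub]; ring
        rw [e, norm_smul, Real.norm_eq_abs, abs_of_nonneg ht0, norm_sub_rev c b, ht,
          div_mul_cancel₀ _ hbc0.ne']
      · have e : (1 - t) • b + t • c - c = (1 - t) • (b - c) := by
          simp only [sub_smul, one_smul, smul_sub]; ring
        rw [e, norm_smul, Real.norm_eq_abs, abs_of_nonneg (by linarith), sub_mul, one_mul, ht,
          div_mul_cancel₀ _ hbc0.ne']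
        linarith
  refine ⟨(1 / 2 : ℝ) • a + (1 / 2 : ℝ) • q, hconv ha hq (by norm_num) (by norm_num)
    (by norm_num), ?_, ?_, ?_⟩
  · have e : (1 / 2 : ℝ) • a + (1 / 2 : ℝ) • q - a = (1 / 2 : ℝ) • ((q - b) + (b - a)) := by
      have : a = (1 / 2 : ℝ) • a + (1 / 2 : ℝ) • a := by rw [← add_smul]; norm_num
      conv_lhs => rw [this]
      simp only [Complex.real_smul]; push_cast; ring
    rw [e, norm_smul, Real.norm_eq_abs, abs_of_pos (by norm_num)]
    have := norm_add_le (q - b) (b - a)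
    rw [norm_sub_rev b a] at this
    linarith
  · have e : (1 / 2 : ℝ) • a + (1 / 2 : ℝ) • q - b = (1 / 2 : ℝ) • ((q - b) + (a - b)) := by
      simp only [Complex.real_smul]; push_cast; ring
    rw [e, norm_smul, Real.norm_eq_abs, abs_of_pos (by norm_num)]
    have := norm_add_le (q - b) (a - b)
    linarith
  · have e : (1 / 2 : ℝ) • a + (1 / 2 : ℝ) • q - c = (1 / 2 : ℝ) • ((q - c) + (a - c)) := by
      simp only [Complex.real_smul]; push_cast; ring
    rw [e, norm_smul, Real.norm_eq_abs, abs_of_pos (by norm_num)]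
    have := norm_add_le (q - c) (a - c)
    rw [norm_sub_rev a c] at this
    linarith

/-- the centre -/
lemma centre {v : ι → ℂ} (hcard : 3 ≤ Fintype.card ι) (hH : Hn v < 4) :
    ∃ o ∈ convexHull ℝ (range v), ∀ j, dt (o - v j) (o - v j) < 1 := by
  classical
  have h := Convex.helly_theorem (𝕜 := ℝ) (E := ℂ)
    (F := fun i : ι => Metric.closedBall (v i) (Hn v / 4) ∩ convexHull ℝ (range v))
    (s := Finset.univ) (by rw [Complex.finrank_real_complex, Finset.card_univ]; exact hcard)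
    (fun i _ => (convex_closedBall _ _).inter (convex_convexHull ℝ _)) (by
      intro I _ hI
      rw [Complex.finrank_real_complex] at hI
      obtain ⟨x, y, z, -, -, -, rfl⟩ := Finset.card_eq_three.1 hI
      obtain ⟨o, ho, h1, h2, h3⟩ := tri_centre (v x) (v y) (v z)
      have htri := tri_le v x y z
      have hoh : o ∈ convexHull ℝ (range v) := by
        apply convexHull_mono _ ho
        intro w hw
        simp only [mem_insert_iff, mem_singleton_iff] at hw
        rcases hw with rfl | rfl | rfl <;> exact ⟨_, rfl⟩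
      refine ⟨o, ?_⟩
      simp only [Finset.mem_insert, Finset.mem_singleton, iInter_iInter_eq_or_left,
        iInter_iInter_eq_left, mem_inter_iff, Metric.mem_closedBall, dist_eq_norm]
      exact ⟨⟨by linarith, hoh⟩, ⟨by linarith, hoh⟩, ⟨by linarith, hoh⟩⟩)
  obtain ⟨o, ho⟩ := h
  simp only [mem_iInter, Finset.mem_univ, true_implies] at ho
  obtain ⟨i0⟩ := ‹Nonempty ι›
  refine ⟨o, (ho i0).2, fun j => ?_⟩
  have h1 := (ho j).1
  rw [Metric.mem_closedBall, dist_eq_norm] at h1
  rw [dt_self]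
  nlinarith [norm_nonneg (o - v j)]

end

end Pool.Agent.K7.H36.RP
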