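import Mathlib

/-!
# The kernel `|sin (s - t)|`
-/

set_option autoImplicit false

open Real Set Filter Topology MeasureTheory

namespace Pool.Agent.K7.H36.RP

instance factPi : Fact (0 < π) := ⟨Real.pi_pos⟩

/-- `sin` on `[0, π)`, continued periodically -/
noncomputable def sF : C(AddCircle π, ℂ) :=
  ContinuousMap.mk (AddCircle.liftIco π 0 (fun x : ℝ => ((Real.sin x : ℝ) : ℂ)))
    (AddCircle.liftIco_zero_continuous (by simp) (by fun_prop))

lemma deriv_prim (n : ℤ) (x : ℝ) : HasDerivAt (fun x : ℝ => Complex.exp (-(2 * Complex.I * n * x)) *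
    (-(2 * Complex.I * n) * ((Real.sin x : ℝ) : ℂ) - ((Real.cos x : ℝ) : ℂ)))
    (Complex.exp (-(2 * Complex.I * n * x)) * ((1 - 4 * (n : ℂ) ^ 2) * ((Real.sin x : ℝ) : ℂ))) x := by
  have h1 : HasDerivAt (fun x : ℝ => -(2 * Complex.I * n * (x : ℂ))) (-(2 * Complex.I * n)) x := by
    have := ((hasDerivAt_id x).ofReal_comp).const_mul (2 * Complex.I * (n : ℂ))
    have h := this.fun_neg
    simpa using h
  have h2 := h1.cexp
  have h3 : HasDerivAt (fun x : ℝ => ((Real.cos x : ℝ) : ℂ)) ((-Real.sin x : ℝ) : ℂ) x :=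
    (Real.hasDerivAt_cos x).ofReal_comp
  have h4 : HasDerivAt (fun x : ℝ => ((Real.sin x : ℝ) : ℂ)) ((Real.cos x : ℝ) : ℂ) x :=
    (Real.hasDerivAt_sin x).ofReal_comp
  have h5 := h2.fun_mul ((h4.const_mul (-(2 * Complex.I * (n : ℂ)))).fun_sub h3)
  refine h5.congr_deriv ?_
  have hI := Complex.I_sq
  simp only [Complex.ofReal_neg]
  linear_combination (4 * (n : ℂ) ^ 2 * Complex.exp (-(2 * Complex.I * n * x)) *
    ((Real.sin x : ℝ) : ℂ)) * hI

lemma exp_per (n : ℤ) : Complex.exp (-(2 * Complex.I * n * (π : ℝ))) = 1 := by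
  have := Complex.exp_int_mul_two_pi_mul_I (-n)
  rw [← this]
  congr 1
  push_cast
  ring

lemma coeff (n : ℤ) : fourierCoeff sF n = ((2 / π / (1 - 4 * (n : ℝ) ^ 2) : ℝ) : ℂ) := by
  have hne : (1 - 4 * (n : ℂ) ^ 2) ≠ 0 := by
    intro h
    have h1 : ((1 - 4 * n ^ 2 : ℤ) : ℂ) = 0 := by push_cast; exact h
    have h2 : 1 - 4 * n ^ 2 = 0 := by exact_mod_cast h1
    omega
  have h0 : fourierCoeff sF n = fourierCoeff (AddCircle.liftIco π 0
    (fun x : ℝ => ((Real.sin x : ℝ) : ℂ))) n := rfl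
  rw [h0, fourierCoeff_liftIco_eq, fourierCoeffOn_eq_integral]
  have h1 : ∀ (T : ℝ) (_ : T = π) (x : ℝ),
      (fourier (-n) (x : AddCircle T) : ℂ) • ((Real.sin x : ℝ) : ℂ) =
      (1 / (1 - 4 * (n : ℂ) ^ 2)) *
        (Complex.exp (-(2 * Complex.I * n * x)) * ((1 - 4 * (n : ℂ) ^ 2) * ((Real.sin x : ℝ) : ℂ))) := by
    intro T hT x
    rw [fourier_coe_apply, smul_eq_mul, hT]
    have hpi : (π : ℂ) ≠ 0 := by exact_mod_cast Real.pi_ne_zero
    have : (2 * (π : ℂ) * Complex.I * ((-n : ℤ) : ℂ) * (x : ℂ) / ((π : ℝ) : ℂ)) =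
        -(2 * Complex.I * n * x) := by
      push_cast
      field_simp
    rw [this]
    have h' : (1 - 4 * (n : ℂ) ^ 2) * (1 / (1 - 4 * (n : ℂ) ^ 2)) = 1 := mul_one_div_cancel hne
    linear_combination (-Complex.exp (-(2 * Complex.I * n * x)) * ((Real.sin x : ℝ) : ℂ)) * h'
  rw [intervalIntegral.integral_congr (fun x _ => h1 (0 + π - 0) (by ring) x)]
  rw [intervalIntegral.integral_const_mul, intervalIntegral.integral_eq_sub_of_hasDerivAt
    (fun x _ => deriv_prim n x) (by apply Continuous.intervalIntegrable; fun_prop)]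
  rw [zero_add, exp_per]
  simp only [Real.sin_pi, Real.cos_pi, Real.sin_zero, Real.cos_zero, sub_zero]
  have hpi : (π : ℂ) ≠ 0 := by exact_mod_cast Real.pi_ne_zero
  rw [Complex.real_smul]
  push_cast
  have he : Complex.exp (-(2 * Complex.I * (n : ℂ) * 0)) = 1 := by simp
  rw [he]
  field_simp
  ring

lemma summ_real : Summable fun n : ℤ => (2 / π / (1 - 4 * (n : ℝ) ^ 2) : ℝ) := by
  have h1 : Summable fun n : ℤ => (2 / π) * (1 / ((n : ℝ) ^ 2)) :=
    (Real.summable_one_div_int_pow.2 (by norm_num)).mul_left _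
  apply Summable.of_norm_bounded_eventually (g := fun n : ℤ => (2 / π) * (1 / ((n : ℝ) ^ 2))) h1
  rw [Filter.eventually_cofinite]
  apply (Set.finite_singleton (0 : ℤ)).subset
  intro n hn
  by_contra h0
  apply hn
  have h0' : n ≠ 0 := h0
  have h2 : (1 : ℝ) ≤ (n : ℝ) ^ 2 := by
    have : 1 ≤ n ^ 2 := by
      have := Int.one_le_abs h0'
      nlinarith [sq_abs n]
    exact_mod_cast this
  have hpi := Real.pi_pos
  rw [Real.norm_eq_abs, abs_div, abs_of_pos (by positivity : (0 : ℝ) < 2 / π),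
    abs_of_neg (by linarith), div_eq_mul_inv, mul_one_div, div_eq_mul_inv]
  apply mul_le_mul_of_nonneg_left _ (by positivity)
  apply inv_anti₀ (by linarith)
  linarith

lemma summ : Summable (fourierCoeff sF) := by
  have h : fourierCoeff sF = fun n : ℤ => ((2 / π / (1 - 4 * (n : ℝ) ^ 2) : ℝ) : ℂ) := by
    funext n; exact coeff n
  rw [h]
  exact Complex.summable_ofReal.2 summ_real |>.congr fun n => rfl

/-- coefficients -/
noncomputable def ak (n : ℕ) : ℝ := 4 / π / (4 * (n : ℝ) ^ 2 - 1)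

lemma hasSum_sin {x : ℝ} (hx : x ∈ Ico (0 : ℝ) π) :
    HasSum (fun n : ℕ => ak (n + 1) * Real.cos (2 * (n + 1 : ℕ) * x)) (2 / π - Real.sin x) := by
  have h1 := has_pointwise_sum_fourier_series_of_summable summ (x : AddCircle π)
  have h2 : sF (x : AddCircle π) = ((Real.sin x : ℝ) : ℂ) := by
    show AddCircle.liftIco π 0 (fun x : ℝ => ((Real.sin x : ℝ) : ℂ)) (x : AddCircle π) = _
    rw [AddCircle.liftIco_coe_apply (by rwa [zero_add])]
  rw [h2] at h1
  have h3 : ∀ n : ℤ, (fourierCoeff sF n • fourier n (x : AddCircle π) : ℂ) =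
      ((2 / π / (1 - 4 * (n : ℝ) ^ 2) : ℝ) : ℂ) * Complex.exp ((2 * n * x : ℝ) * Complex.I) := by
    intro n
    rw [coeff, fourier_coe_apply, smul_eq_mul]
    congr 2
    have hpi : (π : ℂ) ≠ 0 := by exact_mod_cast Real.pi_ne_zero
    push_cast
    field_simp
  simp only [h3] at h1
  have h4 := (Complex.hasSum_re h1)
  have h5 : ∀ n : ℤ, (((2 / π / (1 - 4 * (n : ℝ) ^ 2) : ℝ) : ℂ) *
      Complex.exp ((2 * n * x : ℝ) * Complex.I)).re =
      (2 / π / (1 - 4 * (n : ℝ) ^ 2)) * Real.cos (2 * n * x) := by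
    intro n
    rw [Complex.re_ofReal_mul, Complex.exp_ofReal_mul_I_re]
  simp only [h5, Complex.ofReal_re] at h4
  have h6 := h4.nat_add_neg
  have h7 : HasSum (fun n : ℕ => 2 * (2 / π / (1 - 4 * (n : ℝ) ^ 2)) * Real.cos (2 * n * x))
      (Real.sin x + 2 / π) := by
    have e1 : (fun n : ℕ => 2 * (2 / π / (1 - 4 * (n : ℝ) ^ 2)) * Real.cos (2 * n * x)) =
        fun n : ℕ => 2 / π / (1 - 4 * (((n : ℕ) : ℤ) : ℝ) ^ 2) * Real.cos (2 * (((n : ℕ) : ℤ) : ℝ) * x) +
          2 / π / (1 - 4 * ((-((n : ℕ) : ℤ) : ℤ) : ℝ) ^ 2) *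
            Real.cos (2 * ((-((n : ℕ) : ℤ) : ℤ) : ℝ) * x) := by
      funext n
      push_cast
      rw [neg_sq, show (2 * -(n : ℝ) * x) = -(2 * n * x) by ring, Real.cos_neg]
      ring
    have e2 : Real.sin x + 2 / π = Real.sin x + 2 / π / (1 - 4 * ((0 : ℤ) : ℝ) ^ 2) *
        Real.cos (2 * ((0 : ℤ) : ℝ) * x) := by norm_num
    rw [e1, e2]
    exact h6
  have h8 := (hasSum_nat_add_iff' 1).2 h7
  simp only [Finset.range_one, Finset.sum_singleton] at h8
  have h9 := h8.neg
  have e1 : (fun n : ℕ => ak (n + 1) * Real.cos (2 * (n + 1 : ℕ) * x)) = fun b : ℕ =>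
      -(2 * (2 / π / (1 - 4 * ((b + 1 : ℕ) : ℝ) ^ 2)) * Real.cos (2 * ((b + 1 : ℕ) : ℝ) * x)) := by
    funext n
    unfold ak
    have : (1 - 4 * ((n + 1 : ℕ) : ℝ) ^ 2) = - (4 * ((n + 1 : ℕ) : ℝ) ^ 2 - 1) := by ring
    rw [this, div_neg]
    ring
  have e2 : 2 / π - Real.sin x = -(Real.sin x + 2 / π - 2 * (2 / π / (1 - 4 * ((0 : ℕ) : ℝ) ^ 2)) *
      Real.cos (2 * ((0 : ℕ) : ℝ) * x)) := by
    norm_num
    ring
  rw [e1, e2]
  exact h9

lemma ak_nonneg (n : ℕ) : 0 ≤ ak (n + 1) := by
  unfold ak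
  have : (0 : ℝ) < 4 * ((n + 1 : ℕ) : ℝ) ^ 2 - 1 := by
    push_cast; nlinarith [(Nat.cast_nonneg n : (0 : ℝ) ≤ n)]
  have := Real.pi_pos
  positivity

lemma summ_ak : Summable fun n : ℕ => ak (n + 1) := by
  have h := hasSum_sin (x := 0) ⟨le_refl _, Real.pi_pos⟩
  simpa using h.summable

/-- tail of the coefficients -/
noncomputable def tl (N : ℕ) : ℝ := ∑' n, ak (n + N + 1)

lemma tl_tendsto : Tendsto tl atTop (𝓝 0) := by
  have := tendsto_sum_nat_add (fun n : ℕ => ak (n + 1))
  exact this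

lemma sin_le (N : ℕ) (x : ℝ) : |Real.sin x| ≤
    2 / π + tl N - ∑ n ∈ Finset.range N, ak (n + 1) * Real.cos (2 * (n + 1 : ℕ) * x) := by
  -- reduce to `[0, π)`
  have key : ∀ x ∈ Ico (0 : ℝ) π, |Real.sin x| ≤
    2 / π + tl N - ∑ n ∈ Finset.range N, ak (n + 1) * Real.cos (2 * (n + 1 : ℕ) * x) := by
    intro x hx
    have h0 : 0 ≤ Real.sin x := Real.sin_nonneg_of_nonneg_of_le_pi hx.1 hx.2.le
    rw [abs_of_nonneg h0]
    have h1 := hasSum_sin hx
    have h2 := h1.summable.sum_add_tsum_nat_add N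
    rw [h1.tsum_eq] at h2
    have h3 : -tl N ≤ ∑' n : ℕ, ak (n + N + 1) * Real.cos (2 * (n + N + 1 : ℕ) * x) := by
      have hs : Summable fun n : ℕ => ak (n + N + 1) := (summable_nat_add_iff N).2 summ_ak
      unfold tl
      rw [← tsum_neg]
      apply Summable.tsum_le_tsum _ hs.neg
      · exact (summable_nat_add_iff N).2 h1.summable
      · intro n
        have := ak_nonneg (n + N)
        nlinarith [Real.neg_one_le_cos (2 * (n + N + 1 : ℕ) * x)]
    linarith
  have hpi := Real.pi_pos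
  obtain ⟨k, hk⟩ : ∃ k : ℤ, x - k * π ∈ Ico (0 : ℝ) π := by
    refine ⟨⌊x / π⌋, ?_, ?_⟩
    · have := Int.floor_le (x / π)
      have h := mul_le_mul_of_nonneg_right this hpi.le
      rw [div_mul_cancel₀ _ hpi.ne'] at h
      linarith
    · have := Int.lt_floor_add_one (x / π)
      have h := mul_lt_mul_of_pos_right this hpi
      rw [div_mul_cancel₀ _ hpi.ne'] at h
      linarith
  have h := key _ hk
  have hs : |Real.sin (x - k * π)| = |Real.sin x| := by
    rw [Real.sin_sub_int_mul_pi, abs_mul, abs_zpow, abs_neg, abs_one, one_zpow, one_mul]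
  rw [hs] at h
  refine h.trans (le_of_eq ?_)
  congr 1
  apply Finset.sum_congr rfl
  intro n _
  congr 1
  have : 2 * ((n + 1 : ℕ) : ℝ) * (x - k * π) = 2 * ((n + 1 : ℕ) : ℝ) * x -
      (((n + 1 : ℕ) : ℤ) * k : ℤ) * (2 * π) := by
    push_cast; ring
  rw [this, Real.cos_sub_int_mul_two_pi]

section

variable {u : ℝ → ℝ}

lemma int_mul (hu : Measurable u) (h0 : ∀ x, 0 ≤ u x) (h1 : ∀ x, u x ≤ 1) {f : ℝ → ℝ}
    (hf : Continuous f) (a b : ℝ) : IntervalIntegrable (fun x => u x * f x) volume a b := by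
  have hf' := hf.intervalIntegrable (μ := volume) a b
  refine hf'.norm.mono_fun ((hu.mul hf.measurable).aestronglyMeasurable) ?_
  refine Eventually.of_forall fun x => ?_
  simp only [norm_mul, Real.norm_eq_abs, abs_abs]
  have : |u x| ≤ 1 := by rw [abs_of_nonneg (h0 x)]; exact h1 x
  calc |u x| * |f x| ≤ 1 * |f x| := mul_le_mul_of_nonneg_right this (abs_nonneg _)
    _ = |f x| := one_mul _

lemma intSum {s : Finset ℕ} {f : ℕ → ℝ → ℝ} {a b : ℝ}
    (h : ∀ i ∈ s, IntervalIntegrable (f i) volume a b) :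
    IntervalIntegrable (fun x => ∑ i ∈ s, f i x) volume a b := by
  have h1 := IntervalIntegrable.sum s h
  have h2 : (∑ i ∈ s, f i) = fun x => ∑ i ∈ s, f i x := by
    funext x; rw [Finset.sum_apply]
  rwa [h2] at h1

lemma cont_inner (hu : Measurable u) (h0 : ∀ x, 0 ≤ u x) (h1 : ∀ x, u x ≤ 1) :
    Continuous fun b => ∫ θ in (0 : ℝ)..(2 * π), u θ * |Real.sin (θ - b)| := by
  apply intervalIntegral.continuous_of_dominated_interval (bound := fun _ => 1)
  · intro b
    have : Measurable fun θ => u θ * |Real.sin (θ - b)| := by fun_prop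
    exact this.aestronglyMeasurable
  · intro b
    refine Eventually.of_forall fun θ _ => ?_
    rw [Real.norm_eq_abs, abs_mul, abs_of_nonneg (h0 θ), abs_abs]
    have := Real.abs_sin_le_one (θ - b)
    have := h1 θ
    have := h0 θ
    have := abs_nonneg (Real.sin (θ - b))
    nlinarith
  · exact intervalIntegrable_const
  · refine Eventually.of_forall fun θ _ => ?_
    fun_prop

/-- **The isoperimetric inequality for centrally symmetric convex sets**, in kernel form. -/
theorem kernel (hu : Measurable u) (h0 : ∀ x, 0 ≤ u x) (h1 : ∀ x, u x ≤ 1) :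
    ∫ b in (0 : ℝ)..(2 * π), u b * ∫ θ in (0 : ℝ)..(2 * π), u θ * |Real.sin (θ - b)| ≤
      (2 / π) * (∫ θ in (0 : ℝ)..(2 * π), u θ) ^ 2 := by
  set A := ∫ θ in (0 : ℝ)..(2 * π), u θ with hA
  have hpi := Real.pi_pos
  have hAint : ∀ a b : ℝ, IntervalIntegrable u volume a b := by
    intro a b
    have := int_mul hu h0 h1 (f := fun _ => (1 : ℝ)) continuous_const a b
    simpa using this
  have hmain : ∀ N : ℕ, ∫ b in (0 : ℝ)..(2 * π), u b * ∫ θ in (0 : ℝ)..(2 * π),
      u θ * |Real.sin (θ - b)| ≤ (2 / π + tl N) * A ^ 2 := by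
    intro N
    set C : ℕ → ℝ := fun n => ∫ θ in (0 : ℝ)..(2 * π), u θ * Real.cos (2 * (n + 1 : ℕ) * θ) with hC
    set S : ℕ → ℝ := fun n => ∫ θ in (0 : ℝ)..(2 * π), u θ * Real.sin (2 * (n + 1 : ℕ) * θ) with hS
    have hcos : ∀ (n : ℕ) (a b : ℝ), IntervalIntegrable
        (fun θ => u θ * Real.cos (2 * (n + 1 : ℕ) * θ)) volume a b := fun n a b =>
      int_mul hu h0 h1 (by fun_prop) a b
    have hsin : ∀ (n : ℕ) (a b : ℝ), IntervalIntegrable
        (fun θ => u θ * Real.sin (2 * (n + 1 : ℕ) * θ)) volume a b := fun n a b =>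
      int_mul hu h0 h1 (by fun_prop) a b
    have hin : ∀ b, ∫ θ in (0 : ℝ)..(2 * π), u θ * |Real.sin (θ - b)| ≤
        (2 / π + tl N) * A - ∑ n ∈ Finset.range N, ak (n + 1) *
          (Real.cos (2 * (n + 1 : ℕ) * b) * C n + Real.sin (2 * (n + 1 : ℕ) * b) * S n) := by
      intro b
      have e1 : ∫ θ in (0 : ℝ)..(2 * π), u θ * |Real.sin (θ - b)| ≤
          ∫ θ in (0 : ℝ)..(2 * π), ((2 / π + tl N) * u θ - ∑ n ∈ Finset.range N, ak (n + 1) *
          (Real.cos (2 * (n + 1 : ℕ) * b) * (u θ * Real.cos (2 * (n + 1 : ℕ) * θ)) +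
            Real.sin (2 * (n + 1 : ℕ) * b) * (u θ * Real.sin (2 * (n + 1 : ℕ) * θ)))) := by
        apply intervalIntegral.integral_mono_on (by positivity)
        · exact int_mul hu h0 h1 (by fun_prop) _ _
        · apply IntervalIntegrable.sub
          · exact (hAint _ _).const_mul _
          · apply intSum
            intro n _
            exact (((hcos n _ _).const_mul _).add ((hsin n _ _).const_mul _)).const_mul _
        · intro θ _
          have h2 := mul_le_mul_of_nonneg_left (sin_le N (θ - b)) (h0 θ)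
          refine h2.trans (le_of_eq ?_)
          rw [mul_sub, Finset.mul_sum, mul_comm (u θ)]
          congr 1
          apply Finset.sum_congr rfl
          intro n _
          rw [mul_sub, Real.cos_sub]
          ring
      refine e1.trans (le_of_eq ?_)
      rw [intervalIntegral.integral_sub, intervalIntegral.integral_const_mul,
        intervalIntegral.integral_finsetSum]
      · congr 1
        apply Finset.sum_congr rfl
        intro n _
        rw [intervalIntegral.integral_const_mul, intervalIntegral.integral_add,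
          intervalIntegral.integral_const_mul, intervalIntegral.integral_const_mul]
        · exact (hcos n _ _).const_mul _
        · exact (hsin n _ _).const_mul _
      · intro n _
        exact (((hcos n _ _).const_mul _).add ((hsin n _ _).const_mul _)).const_mul _
      · exact (hAint _ _).const_mul _
      · apply intSum
        intro n _
        exact (((hcos n _ _).const_mul _).add ((hsin n _ _).const_mul _)).const_mul _
    have e2 : ∫ b in (0 : ℝ)..(2 * π), u b * ∫ θ in (0 : ℝ)..(2 * π), u θ * |Real.sin (θ - b)| ≤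
        ∫ b in (0 : ℝ)..(2 * π), ((2 / π + tl N) * A * u b - ∑ n ∈ Finset.range N, ak (n + 1) *
          (C n * (u b * Real.cos (2 * (n + 1 : ℕ) * b)) +
            S n * (u b * Real.sin (2 * (n + 1 : ℕ) * b)))) := by
      apply intervalIntegral.integral_mono_on (by positivity)
      · exact int_mul hu h0 h1 (cont_inner hu h0 h1) _ _
      · apply IntervalIntegrable.sub
        · exact (hAint _ _).const_mul _
        · apply intSum
          intro n _
          exact (((hcos n _ _).const_mul _).add ((hsin n _ _).const_mul _)).const_mul _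
      · intro b _
        have h2 := mul_le_mul_of_nonneg_left (hin b) (h0 b)
        refine h2.trans (le_of_eq ?_)
        rw [mul_sub, Finset.mul_sum]
        congr 1
        · ring
        · apply Finset.sum_congr rfl
          intro n _
          ring
    refine e2.trans ?_
    rw [intervalIntegral.integral_sub, intervalIntegral.integral_const_mul,
      intervalIntegral.integral_finsetSum]
    · have h3 : 0 ≤ ∑ n ∈ Finset.range N, ∫ b in (0 : ℝ)..(2 * π), ak (n + 1) *
          (C n * (u b * Real.cos (2 * (n + 1 : ℕ) * b)) +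
            S n * (u b * Real.sin (2 * (n + 1 : ℕ) * b))) := by
        apply Finset.sum_nonneg
        intro n _
        rw [intervalIntegral.integral_const_mul, intervalIntegral.integral_add,
          intervalIntegral.integral_const_mul, intervalIntegral.integral_const_mul]
        · exact mul_nonneg (ak_nonneg n) (add_nonneg (mul_self_nonneg _) (mul_self_nonneg _))
        · exact (hcos n _ _).const_mul _
        · exact (hsin n _ _).const_mul _
      rw [← hA]
      nlinarith
    · intro n _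
      exact (((hcos n _ _).const_mul _).add ((hsin n _ _).const_mul _)).const_mul _
    · exact (hAint _ _).const_mul _
    · apply intSum
      intro n _
      exact (((hcos n _ _).const_mul _).add ((hsin n _ _).const_mul _)).const_mul _
  have hlim : Tendsto (fun N => (2 / π + tl N) * A ^ 2) atTop (𝓝 ((2 / π + 0) * A ^ 2)) :=
    (tendsto_const_nhds.add tl_tendsto).mul_const _
  rw [add_zero] at hlim
  exact ge_of_tendsto' hlim hmain

end

end Pool.Agent.K7.H36.RP
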