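import Pool.Agent.K7.H36.RP.Poly
import Pool.Agent.K7.H36.RP.Kern

/-!
# The main inequality
-/

set_option autoImplicit false

open Real Set Filter Topology MeasureTheory

namespace Pool.Agent.K7.H36.RP

variable {ι : Type} [Fintype ι] [Nonempty ι]

/-- the measure of the set of directions outside `Ns` -/
noncomputable def AA (v : ι → ℂ) : ℝ := ∫ θ in (0 : ℝ)..(2 * π), uU v θ

variable {v : ι → ℂ} {σ : Equiv.Perm ι} {o : ℂ} {y : ℝ → ℂ}

omit [Nonempty ι] in
lemma continuous_PU (v : ι → ℂ) : Continuous (PU v) := by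
  unfold PU
  exact continuous_const.mul (cont_inner (measurable_uU v) uU_nonneg uU_le_one)

omit [Nonempty ι] in
lemma int_PU (v : ι → ℂ) : ∫ b in (0 : ℝ)..(2 * π), uU v b * PU v b ≤ AA v ^ 2 / π := by
  have h := kernel (measurable_uU v) uU_nonneg uU_le_one (u := uU v)
  have h1 : ∫ b in (0 : ℝ)..(2 * π), uU v b * PU v b =
      (1 / 2) * ∫ b in (0 : ℝ)..(2 * π), uU v b *
        ∫ θ in (0 : ℝ)..(2 * π), uU v θ * |Real.sin (θ - b)| := by
    rw [← intervalIntegral.integral_const_mul]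
    apply intervalIntegral.integral_congr
    intro b _
    simp only [PU]
    ring
  rw [h1]
  have hpi := Real.pi_pos
  have h2 : (2 / π) * (∫ θ in (0 : ℝ)..(2 * π), uU v θ) ^ 2 = 2 * (AA v ^ 2 / π) := by
    unfold AA; field_simp
  rw [h2] at h
  linarith

/-- the points `v j` are within distance one of points of `Ks`: support function bound -/
lemma hs_opp (hy : IsMn v y) (θ : ℝ) :
    hs v (θ + π) ≤ 1 - dt (y (θ + π)) (ev θ) := by
  apply hs_le
  intro j
  rw [ev_add_pi, dt_neg_right]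
  have h1 := (hy (θ + π)).1 j
  have h2 := abs_dt_le (y (θ + π) - v j) (ev θ)
  rw [norm_ev, mul_one] at h2
  have h3 : ‖y (θ + π) - v j‖ ≤ 1 := by
    rw [dt_self] at h1
    exact (sq_le_one_iff₀ (norm_nonneg _)).1 h1
  have h4 := le_of_abs_le (h2.trans h3)
  rw [dt_sub_left] at h4
  linarith

/-- `D θ` -/
noncomputable def DD (v : ι → ℂ) (y : ℝ → ℂ) (θ : ℝ) : ℝ := 1 + dt (y θ) (ev θ) - hs v θ

lemma wt_le_PU (ho : ∀ j, dt (o - v j) (o - v j) < 1) (hy : IsMn v y) (hE : EC v σ) (θ : ℝ) :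
    wt v σ θ ≤ PU v θ - DD v y θ := by
  have h1 := wt_le hE θ
  have h2 := hs_opp hy θ
  have h3 := PU_lower ho hy θ
  rw [dt_sub_left] at h3
  unfold DD
  linarith

lemma DD_nonneg (hy : IsMn v y) (θ : ℝ) : 0 ≤ DD v y θ := by
  unfold DD
  have : hs v θ ≤ 1 + dt (y θ) (ev θ) := by
    apply hs_le
    intro j
    have h1 := (hy θ).1 j
    have h2 := abs_dt_le (y θ - v j) (ev θ)
    rw [norm_ev, mul_one] at h2
    have h3 : ‖y θ - v j‖ ≤ 1 := by
      rw [dt_self] at h1
      exact (sq_le_one_iff₀ (norm_nonneg _)).1 h1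
    have h4 := neg_le_of_abs_le (h2.trans h3)
    rw [dt_sub_left] at h4
    linarith
  linarith

lemma DD_N (ho : ∀ j, dt (o - v j) (o - v j) < 1) (hy : IsMn v y) {θ : ℝ} (hθ : θ ∈ Ns v) :
    DD v y θ = 0 := by
  obtain ⟨j, hj⟩ := hθ
  apply le_antisymm _ (DD_nonneg hy θ)
  unfold DD
  rw [yN ho hy hj, dt_sub_left, dt_ev]
  have := le_hs v θ j
  linarith

lemma continuous_DD (ho : ∀ j, dt (o - v j) (o - v j) < 1) (hy : IsMn v y) :
    Continuous (DD v y) := by
  unfold DD
  have h1 := conty ho hy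
  have h2 := continuous_ev
  have h3 := continuous_hs v
  unfold dt
  fun_prop

lemma int_DD (ho : ∀ j, dt (o - v j) (o - v j) < 1) (hy : IsMn v y) (hT : TV σ) :
    AA v - Lg v σ ≤ ∫ θ in (0 : ℝ)..(2 * π), uU v θ * DD v y θ := by
  have h1 : ∫ θ in (0 : ℝ)..(2 * π), uU v θ * DD v y θ = ∫ θ in (0 : ℝ)..(2 * π), DD v y θ := by
    apply intervalIntegral.integral_congr
    intro θ _
    simp only
    by_cases h : θ ∈ Ns v
    · rw [DD_N ho hy h, mul_zero]
    · rw [uU_of_notMem h, one_mul]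
  rw [h1]
  have h2 := area ho hy
  have h3 := int_hs_le (v := v) hT
  have hcy := conty ho hy
  have hce := continuous_ev
  have hc1 : Continuous fun θ => dt (y θ) (ev θ) := by unfold dt; fun_prop
  have h4 : ∫ θ in (0 : ℝ)..(2 * π), DD v y θ =
      2 * π + (∫ θ in (0 : ℝ)..(2 * π), dt (y θ) (ev θ)) - ∫ θ in (0 : ℝ)..(2 * π), hs v θ := by
    unfold DD
    rw [intervalIntegral.integral_sub, intervalIntegral.integral_add]
    · simp
    · exact intervalIntegrable_const
    · exact hc1.intervalIntegrable _ _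
    · exact (continuous_const.add hc1).intervalIntegrable _ _
    · exact (continuous_hs v).intervalIntegrable _ _
  rw [h4, h2]
  unfold AA
  linarith

/-- **The main inequality.** -/
theorem main_ineq (ho : ∀ j, dt (o - v j) (o - v j) < 1) (hy : IsMn v y) (hE : EC v σ) (hT : TV σ)
    (hK : ∀ z ∈ Ks v, ∀ j, 0 ≤ cr (v (σ j) - v j) (z - v j)) (b ℓ : ι → ℝ) (hℓ : ∀ j, 0 < ℓ j)
    (hb : ∀ j, v (σ j) - v j = ℓ j • (Complex.I * ev (b j))) :
    ∑ j, ℓ j * (1 - dt (v j - y (b j)) (ev (b j))) ≤ AA v ^ 2 / π - AA v := by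
  have hLg : Lg v σ = ∑ j, ℓ j := by
    unfold Lg
    apply Finset.sum_congr rfl
    intro j _
    rw [hb j, norm_smul, norm_mul, Complex.norm_I, norm_ev, Real.norm_eq_abs,
      abs_of_pos (hℓ j)]
    ring
  -- step (a)
  have ha : ∀ j, 2 - dt (v j - y (b j)) (ev (b j)) ≤ PU v (b j) := by
    intro j
    have h1 := PU_lower ho hy (b j)
    have h2 := hK _ (hy (b j + π)).1 j
    rw [hb j, cr_smul_left] at h2
    have h3 : cr (Complex.I * ev (b j)) (y (b j + π) - v j) =
        - dt (y (b j + π) - v j) (ev (b j)) := by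
      simp only [cr, dt, Complex.mul_re, Complex.mul_im, Complex.I_re, Complex.I_im,
        Complex.sub_re, Complex.sub_im]
      ring
    rw [h3] at h2
    have h4 : dt (y (b j + π) - v j) (ev (b j)) ≤ 0 := by
      by_contra hcon
      push Not at hcon
      have := mul_pos (hℓ j) hcon
      linarith
    rw [dt_sub_left] at h1 h4 ⊢
    linarith
  -- step (b)
  have hwt : ∀ θ, wt v σ θ = (1 / 2) * ∑ j, ℓ j * |Real.sin (θ - b j)| := by
    intro θ
    unfold wt
    congr 1
    apply Finset.sum_congr rfl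
    intro j _
    rw [hb j, dt_smul_left, abs_mul, abs_of_pos (hℓ j)]
    congr 2
    rw [Real.sin_sub]
    simp only [dt, Complex.mul_re, Complex.mul_im, Complex.I_re, Complex.I_im, ev_re, ev_im]
    ring
  have hbs : ∑ j, ℓ j * PU v (b j) = ∫ θ in (0 : ℝ)..(2 * π), uU v θ * wt v σ θ := by
    have e1 : ∀ θ, uU v θ * wt v σ θ =
        ∑ j, ℓ j * ((1 / 2) * (uU v θ * |Real.sin (θ - b j)|)) := by
      intro θ
      rw [hwt, Finset.mul_sum, Finset.mul_sum]
      apply Finset.sum_congr rfl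
      intro j _
      ring
    simp only [e1]
    rw [intervalIntegral.integral_finsetSum]
    · apply Finset.sum_congr rfl
      intro j _
      rw [intervalIntegral.integral_const_mul, intervalIntegral.integral_const_mul]
      rfl
    · intro j _
      exact ((intU v (by fun_prop) _ _).const_mul _).const_mul _
  -- step (c)
  have hc : ∫ θ in (0 : ℝ)..(2 * π), uU v θ * wt v σ θ ≤
      ∫ θ in (0 : ℝ)..(2 * π), (uU v θ * PU v θ - uU v θ * DD v y θ) := by
    apply intervalIntegral.integral_mono_on (by positivity)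
    · exact intU v (continuous_wt v σ) _ _
    · exact (intU v (continuous_PU v) _ _).sub (intU v (continuous_DD ho hy) _ _)
    · intro θ _
      have := mul_le_mul_of_nonneg_left (wt_le_PU ho hy hE θ) (uU_nonneg (v := v) θ)
      linarith
  rw [intervalIntegral.integral_sub (intU v (continuous_PU v) _ _)
    (intU v (continuous_DD ho hy) _ _)] at hc
  have hd := int_PU v
  have he := int_DD ho hy hT
  have hf : ∑ j, ℓ j * (2 - dt (v j - y (b j)) (ev (b j))) ≤ ∑ j, ℓ j * PU v (b j) :=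
    Finset.sum_le_sum fun j _ => mul_le_mul_of_nonneg_left (ha j) (hℓ j).le
  have hg : ∑ j, ℓ j * (2 - dt (v j - y (b j)) (ev (b j))) =
      ∑ j, ℓ j * (1 - dt (v j - y (b j)) (ev (b j))) + ∑ j, ℓ j := by
    rw [← Finset.sum_add_distrib]
    apply Finset.sum_congr rfl
    intro j _
    ring
  rw [hLg] at he
  linarith

end Pool.Agent.K7.H36.RP
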