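import Pool.Agent.K7.H36.RP.Fan
import Pool.Agent.K7.H36.RP.NumPoly

/-!
# At most eight vertices are not enough
-/

set_option autoImplicit false

open Real Set Filter Topology MeasureTheory

namespace Pool.Agent.K7.H36.RP

lemma aux_mono {f f' : ℝ → ℝ} (hf : ∀ x, HasDerivAt f (f' x) x) (h0 : 0 ≤ f 0)
    (h : ∀ x, 0 ≤ x → 0 ≤ f' x) {x : ℝ} (hx : 0 ≤ x) : 0 ≤ f x := by
  have hmono : MonotoneOn f (Set.Ici 0) := by
    apply monotoneOn_of_deriv_nonneg (convex_Ici 0)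
      (fun y _ => (hf y).continuousAt.continuousWithinAt)
      (fun y _ => (hf y).differentiableAt.differentiableWithinAt)
    intro y hy
    rw [interior_Ici] at hy
    rw [(hf y).deriv]; exact h y (le_of_lt hy)
  exact h0.trans (hmono (by simp) hx hx)

lemma cos_le4 {x : ℝ} (hx : 0 ≤ x) : Real.cos x ≤ 1 - x ^ 2 / 2 + x ^ 4 / 24 := by
  have := aux_mono (f := fun x => 1 - x ^ 2 / 2 + x ^ 4 / 24 - Real.cos x)
    (f' := fun x => -x + x ^ 3 / 6 + Real.sin x) (fun x => by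
      have h := ((((hasDerivAt_const x (1 : ℝ)).sub ((hasDerivAt_pow 2 x).div_const 2)).add
        ((hasDerivAt_pow 4 x).div_const 24)).sub (Real.hasDerivAt_cos x))
      refine h.congr_deriv ?_; simp; ring) (by simp) (fun x hx => by
      have := Real.sin_ge_sub_cube hx
      linarith) hx
  linarith

lemma sin_le5 {x : ℝ} (hx : 0 ≤ x) : Real.sin x ≤ x - x ^ 3 / 6 + x ^ 5 / 120 := by
  have := aux_mono (f := fun x => x - x ^ 3 / 6 + x ^ 5 / 120 - Real.sin x)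
    (f' := fun x => 1 - x ^ 2 / 2 + x ^ 4 / 24 - Real.cos x) (fun x => by
      have h := ((((hasDerivAt_id x).sub ((hasDerivAt_pow 3 x).div_const 6)).add
        ((hasDerivAt_pow 5 x).div_const 120)).sub (Real.hasDerivAt_sin x))
      refine h.congr_deriv ?_; simp; ring) (by simp) (fun x hx => by
      have := cos_le4 hx
      linarith) hx
  linarith

lemma cos_ge6 {x : ℝ} (hx : 0 ≤ x) : 1 - x ^ 2 / 2 + x ^ 4 / 24 - x ^ 6 / 720 ≤ Real.cos x := by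
  have := aux_mono (f := fun x => Real.cos x - (1 - x ^ 2 / 2 + x ^ 4 / 24 - x ^ 6 / 720))
    (f' := fun x => x - x ^ 3 / 6 + x ^ 5 / 120 - Real.sin x) (fun x => by
      have h := (Real.hasDerivAt_cos x).sub
        ((((hasDerivAt_const x (1 : ℝ)).sub ((hasDerivAt_pow 2 x).div_const 2)).add
        ((hasDerivAt_pow 4 x).div_const 24)).sub ((hasDerivAt_pow 6 x).div_const 720))
      refine h.congr_deriv ?_; simp; ring) (by simp) (fun x hx => by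
      have := sin_le5 hx
      linarith) hx
  linarith

lemma sin_ge7 {x : ℝ} (hx : 0 ≤ x) :
    x - x ^ 3 / 6 + x ^ 5 / 120 - x ^ 7 / 5040 ≤ Real.sin x := by
  have := aux_mono (f := fun x => Real.sin x - (x - x ^ 3 / 6 + x ^ 5 / 120 - x ^ 7 / 5040))
    (f' := fun x => Real.cos x - (1 - x ^ 2 / 2 + x ^ 4 / 24 - x ^ 6 / 720)) (fun x => by
      have h := (Real.hasDerivAt_sin x).sub
        ((((hasDerivAt_id x).sub ((hasDerivAt_pow 3 x).div_const 6)).add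
        ((hasDerivAt_pow 5 x).div_const 120)).sub ((hasDerivAt_pow 7 x).div_const 5040))
      refine h.congr_deriv ?_; simp; ring) (by simp) (fun x hx => by
      have := cos_ge6 hx
      linarith) hx
  linarith

lemma sin_sq_le6 {x : ℝ} (hx : 0 ≤ x) :
    Real.sin x ^ 2 ≤ x ^ 2 - x ^ 4 / 3 + 2 * x ^ 6 / 45 := by
  have h1 := cos_ge6 (x := 2 * x) (by linarith)
  rw [Real.cos_two_mul] at h1
  have h2 := Real.sin_sq_add_cos_sq x
  nlinarith

lemma u_sq {x : ℝ} (hx : 0 ≤ x) (h1 : x ≤ 127 / 100) :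
    (x ^ 2 - x ^ 4 / 3 + 2 * x ^ 6 / 45) ^ 2 ≤ x ^ 4 - 2 / 5 * x ^ 6 := by
  have ht0 : 0 ≤ x ^ 2 := by positivity
  have ht1 : x ^ 2 ≤ 16129 / 10000 := by nlinarith
  have key : 0 ≤ 4 / 15 - x ^ 2 / 5 + 4 * (x ^ 2) ^ 2 / 135 - 4 * (x ^ 2) ^ 3 / 2025 := by
    generalize x ^ 2 = t at *
    nlinarith [mul_nonneg ht0 (sub_nonneg.2 ht1), mul_nonneg (mul_nonneg ht0 ht0) (sub_nonneg.2 ht1)]
  have : x ^ 4 - 2 / 5 * x ^ 6 - (x ^ 2 - x ^ 4 / 3 + 2 * x ^ 6 / 45) ^ 2 =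
      x ^ 6 * (4 / 15 - x ^ 2 / 5 + 4 * (x ^ 2) ^ 2 / 135 - 4 * (x ^ 2) ^ 3 / 2025) := by ring
  have h3 : 0 ≤ x ^ 6 * (4 / 15 - x ^ 2 / 5 + 4 * (x ^ 2) ^ 2 / 135 - 4 * (x ^ 2) ^ 3 / 2025) :=
    mul_nonneg (by positivity) key
  linarith

lemma u_bd {x : ℝ} (hx : 0 ≤ x) (h1 : x ≤ 127 / 100) :
    0 ≤ x ^ 2 - x ^ 4 / 3 + 2 * x ^ 6 / 45 ∧ x ^ 2 - x ^ 4 / 3 + 2 * x ^ 6 / 45 ≤ 1 ∧
    x ^ 2 - x ^ 4 / 3 + 2 * x ^ 6 / 45 ≤ x ^ 2 := by
  have h0 := sin_sq_le6 hx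
  have h00 : 0 ≤ Real.sin x ^ 2 := by positivity
  have ht0 : 0 ≤ x ^ 2 := by positivity
  have ht1 : x ^ 2 ≤ 16129 / 10000 := by nlinarith
  refine ⟨by linarith, ?_, ?_⟩
  · have : x ^ 2 - x ^ 4 / 3 + 2 * x ^ 6 / 45 = (x ^ 2) - (x ^ 2) ^ 2 / 3 + 2 * (x ^ 2) ^ 3 / 45 := by
      ring
    rw [this]
    generalize x ^ 2 = t at *
    nlinarith [mul_nonneg ht0 (sub_nonneg.2 ht1), mul_nonneg (mul_nonneg ht0 ht0) (sub_nonneg.2 ht1)]
  · have : x ^ 2 - x ^ 4 / 3 + 2 * x ^ 6 / 45 =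
        x ^ 2 - (x ^ 2) ^ 2 * (1 / 3 - 2 * (x ^ 2) / 45) := by
      ring
    rw [this]
    generalize x ^ 2 = t at *
    have : 0 ≤ t ^ 2 * (1 / 3 - 2 * t / 45) := mul_nonneg (by positivity) (by linarith)
    linarith

/-- the square root bound -/
lemma root_bd {c k x : ℝ} (hc : 2 ≤ c) (hk0 : 0 ≤ k) (hk1 : k ≤ 1 / 10)
    (hk : (1 / (2 * c) + k) ^ 2 ≤ 2 * c * k) (hx : 0 ≤ x) (h1 : x ≤ 127 / 100) :
    0 ≤ c - (x ^ 2 - x ^ 4 / 3 + 2 * x ^ 6 / 45) / (2 * c) - k * (x ^ 4 - 2 / 5 * x ^ 6) ∧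
    Real.sin x ^ 2 + (c - (x ^ 2 - x ^ 4 / 3 + 2 * x ^ 6 / 45) / (2 * c) -
      k * (x ^ 4 - 2 / 5 * x ^ 6)) ^ 2 ≤ c ^ 2 := by
  obtain ⟨hu0, hu1, hu2⟩ := u_bd hx h1
  have hw := sin_sq_le6 hx
  have hU := u_sq hx h1
  have hx4 : x ^ 4 - 2 / 5 * x ^ 6 ≤ 3 := by
    have : x ^ 4 ≤ (127 / 100) ^ 4 := by gcongr
    have h6 : 0 ≤ x ^ 6 := by positivity
    norm_num at this
    linarith
  generalize x ^ 2 - x ^ 4 / 3 + 2 * x ^ 6 / 45 = u at *
  generalize x ^ 4 - 2 / 5 * x ^ 6 = U at *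
  have hcpos : 0 < c := by linarith
  have hud : u / (2 * c) ≤ 1 / 4 := by
    rw [div_le_iff₀ (by linarith)]; nlinarith
  have hkU : k * U ≤ 3 / 10 := by
    have : k * U ≤ k * 3 := mul_le_mul_of_nonneg_left hx4 hk0
    linarith
  have hr : 0 ≤ c - u / (2 * c) - k * U := by linarith
  refine ⟨hr, ?_⟩
  have hrr : c - u / (2 * c) - k * U ≤ c - u / (2 * c) - k * u ^ 2 := by
    have := mul_le_mul_of_nonneg_left hU hk0
    linarith
  have h2 : (c - u / (2 * c) - k * U) ^ 2 ≤ (c - u / (2 * c) - k * u ^ 2) ^ 2 :=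
    pow_le_pow_left₀ hr hrr 2
  have h3 : (c - u / (2 * c) - k * u ^ 2) ^ 2 =
      c ^ 2 - u - 2 * c * k * u ^ 2 + u ^ 2 * (1 / (2 * c) + k * u) ^ 2 := by
    field_simp; ring
  have h4 : (1 / (2 * c) + k * u) ^ 2 ≤ (1 / (2 * c) + k) ^ 2 := by
    apply pow_le_pow_left₀ (by positivity)
    have := mul_le_mul_of_nonneg_left hu1 hk0
    linarith
  have h5 : u ^ 2 * (1 / (2 * c) + k * u) ^ 2 ≤ u ^ 2 * (2 * c * k) :=
    mul_le_mul_of_nonneg_left (h4.trans hk) (by positivity)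
  nlinarith

lemma rng1 {x : ℝ} (hx : 0 ≤ x) (h1 : x ≤ 127 / 100) : ∃ r : ℝ,
    Real.sin x ^ 2 + r ^ 2 ≤ (511 / 250) ^ 2 ∧
    108226 / 100000 * x - 10806 / 1000000 ≤ Real.sin x * (r - Real.cos x) := by
  obtain ⟨h2, h3⟩ := root_bd (c := 511 / 250) (k := 17 / 1000) (by norm_num) (by norm_num)
    (by norm_num) (by norm_num) hx h1
  refine ⟨_, h3, ?_⟩
  have hp := pol1 hx h1
  have hs := Real.sin_ge_sub_cube hx
  have hc := cos_le4 hx
  obtain ⟨hu0, hu1, hu2⟩ := u_bd hx h1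
  have ht1 : x ^ 2 ≤ 16129 / 10000 := by nlinarith
  have hx4 : x ^ 4 ≤ 16129 / 10000 * x ^ 2 := by
    have : x ^ 4 = x ^ 2 * x ^ 2 := by ring
    rw [this]; exact mul_le_mul_of_nonneg_right ht1 (by positivity)
  have hx6 : 0 ≤ x ^ 6 := by positivity
  have hs0 : 0 ≤ x - x ^ 3 / 6 := by
    have : x - x ^ 3 / 6 = x * (1 - x ^ 2 / 6) := by ring
    rw [this]; exact mul_nonneg hx (by linarith)
  have hd0 : 0 ≤ 511 / 250 - (x ^ 2 - x ^ 4 / 3 + 2 * x ^ 6 / 45) / (2 * (511 / 250)) -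
      17 / 1000 * (x ^ 4 - 2 / 5 * x ^ 6) - (1 - x ^ 2 / 2 + x ^ 4 / 24) := by
    have : (x ^ 2 - x ^ 4 / 3 + 2 * x ^ 6 / 45) / (2 * (511 / 250)) ≤ x ^ 2 / 4 := by
      rw [div_le_div_iff₀ (by norm_num) (by norm_num)]
      have : 0 ≤ x ^ 2 := by positivity
      linarith
    linarith
  generalize 511 / 250 - (x ^ 2 - x ^ 4 / 3 + 2 * x ^ 6 / 45) / (2 * (511 / 250)) -
      17 / 1000 * (x ^ 4 - 2 / 5 * x ^ 6) = R at *
  have e1 : (x - x ^ 3 / 6) * (R - (1 - x ^ 2 / 2 + x ^ 4 / 24)) ≤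
      Real.sin x * (R - (1 - x ^ 2 / 2 + x ^ 4 / 24)) := mul_le_mul_of_nonneg_right hs hd0
  have e2 : Real.sin x * (R - (1 - x ^ 2 / 2 + x ^ 4 / 24)) ≤ Real.sin x * (R - Real.cos x) :=
    mul_le_mul_of_nonneg_left (by linarith) (hs0.trans hs)
  linarith

lemma rng2 {x : ℝ} (hx : 0 ≤ x) (h1 : x ≤ 127 / 100) : ∃ r : ℝ,
    Real.sin x ^ 2 + r ^ 2 ≤ (61 / 25) ^ 2 ∧
    146692 / 100000 * x - 1073 / 62500 ≤ Real.sin x * (r - Real.cos x) := by
  obtain ⟨h2, h3⟩ := root_bd (c := 61 / 25) (k := 97 / 10000) (by norm_num) (by norm_num)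
    (by norm_num) (by norm_num) hx h1
  refine ⟨_, h3, ?_⟩
  have hp := pol2 hx h1
  have hs := sin_ge7 hx
  have hs3 := Real.sin_ge_sub_cube hx
  have hc := cos_le4 hx
  obtain ⟨hu0, hu1, hu2⟩ := u_bd hx h1
  have ht1 : x ^ 2 ≤ 16129 / 10000 := by nlinarith
  have hx4 : x ^ 4 ≤ 16129 / 10000 * x ^ 2 := by
    have : x ^ 4 = x ^ 2 * x ^ 2 := by ring
    rw [this]; exact mul_le_mul_of_nonneg_right ht1 (by positivity)
  have hx6 : 0 ≤ x ^ 6 := by positivity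
  have hs0 : 0 ≤ x - x ^ 3 / 6 := by
    have : x - x ^ 3 / 6 = x * (1 - x ^ 2 / 6) := by ring
    rw [this]; exact mul_nonneg hx (by linarith)
  have hd0 : 0 ≤ 61 / 25 - (x ^ 2 - x ^ 4 / 3 + 2 * x ^ 6 / 45) / (2 * (61 / 25)) -
      97 / 10000 * (x ^ 4 - 2 / 5 * x ^ 6) - (1 - x ^ 2 / 2 + x ^ 4 / 24) := by
    have : (x ^ 2 - x ^ 4 / 3 + 2 * x ^ 6 / 45) / (2 * (61 / 25)) ≤ x ^ 2 / 4 := by
      rw [div_le_div_iff₀ (by norm_num) (by norm_num)]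
      have : 0 ≤ x ^ 2 := by positivity
      linarith
    linarith
  generalize 61 / 25 - (x ^ 2 - x ^ 4 / 3 + 2 * x ^ 6 / 45) / (2 * (61 / 25)) -
      97 / 10000 * (x ^ 4 - 2 / 5 * x ^ 6) = R at *
  have e1 : (x - x ^ 3 / 6 + x ^ 5 / 120 - x ^ 7 / 5040) * (R - (1 - x ^ 2 / 2 + x ^ 4 / 24)) ≤
      Real.sin x * (R - (1 - x ^ 2 / 2 + x ^ 4 / 24)) := mul_le_mul_of_nonneg_right hs hd0
  have e2 : Real.sin x * (R - (1 - x ^ 2 / 2 + x ^ 4 / 24)) ≤ Real.sin x * (R - Real.cos x) :=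
    mul_le_mul_of_nonneg_left (by linarith) (hs0.trans hs3)
  linarith

lemma cs_edge {c r s C ρ ℓ : ℝ} (hc : 0 ≤ c) (hℓ : 0 ≤ ℓ) (h1 : ℓ ^ 2 = (ρ - C) ^ 2 + s ^ 2)
    (h2 : s ^ 2 + r ^ 2 ≤ c ^ 2) : s * (r - C) ≤ c * ℓ - ρ * s := by
  have h3 : s * (ρ - C) + r * s ≤ c * ℓ := by
    apply le_of_abs_le
    apply abs_le_of_sq_le_sq _ (by positivity)
    have e : (c * ℓ) ^ 2 = c ^ 2 * ((ρ - C) ^ 2 + s ^ 2) := by rw [mul_pow, h1]
    rw [e]
    have : (s ^ 2 + r ^ 2) * ((ρ - C) ^ 2 + s ^ 2) ≤ c ^ 2 * ((ρ - C) ^ 2 + s ^ 2) :=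
      mul_le_mul_of_nonneg_right h2 (by positivity)
    nlinarith [sq_nonneg (s * s - r * (ρ - C))]
  linarith

variable {ι : Type} [Fintype ι] [Nonempty ι]
variable {v : ι → ℂ} {σ : Equiv.Perm ι} {o : ℂ} {y : ℝ → ℂ} {b ℓ : ι → ℝ}

/-- numerical data of an edge -/
lemma Conf.edge_num (C : Conf v σ o y b ℓ) (j : ι) {k0 : ℝ} (hk0 : (31 : ℝ) / 100 ≤ k0)
    (hL : 1 - (Lg v σ - 2) ^ 2 / 2 = k0) :
    ∃ ρ x : ℝ, x = ang (v j - y (b j)) (v (σ j) - y (b j)) ∧ 0 ≤ ρ ∧ ρ ≤ 1 ∧ 0 < x ∧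
      x ≤ 127 / 100 ∧ ℓ j ^ 2 = (ρ - Real.cos x) ^ 2 + Real.sin x ^ 2 ∧
      ℓ j * dt (v j - y (b j)) (ev (b j)) = ρ * Real.sin x := by
  obtain ⟨e1, e2, e3, e4, e5, e6⟩ := C.edge j (k0 := k0) (by linarith) hL
  obtain ⟨φ, -, -, p1, p2, p3, p4, p5, p6⟩ := polar_pair e2
  set V := v j - y (b j) with hV
  set W := v (σ j) - y (b j) with hW
  set x := ang V W with hx
  have hcos : k0 ≤ Real.cos x := by
    rw [p6, mul_comm] at e6
    exact le_of_mul_le_mul_left e6 (by positivity)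
  have hx1 : x ≤ 127 / 100 := by
    by_contra hcon
    push Not at hcon
    have h1 : Real.cos x ≤ Real.cos (127 / 100) :=
      Real.cos_le_cos_of_nonneg_of_le_pi (by norm_num) p4.le hcon.le
    have h2 := cos_le4 (x := 127 / 100) (by norm_num)
    norm_num at h2
    linarith
  have hℓ : ℓ j ^ 2 = ‖V‖ ^ 2 + ‖W‖ ^ 2 - 2 * (‖V‖ * ‖W‖ * Real.cos x) := by
    have h1 : W - V = ℓ j • (Complex.I * ev (b j)) := by
      rw [← C.hb j, hV, hW]; ring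
    have h2 : dt (W - V) (W - V) = ℓ j ^ 2 := by
      rw [h1, dt_smul_left, dt_smul_right]
      have h3 : dt (Complex.I * ev (b j)) (Complex.I * ev (b j)) = dt (ev (b j)) (ev (b j)) := by
        simp only [dt, Complex.mul_re, Complex.mul_im, Complex.I_re, Complex.I_im]; ring
      rw [h3, dt_ev]; ring
    have h3 : dt (W - V) (W - V) = dt W W - 2 * dt V W + dt V V := by
      simp only [dt, Complex.sub_re, Complex.sub_im]; ring
    rw [← h2, ← p6, h3, dt_self V, dt_self W]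
    ring
  have hn : ∀ {U : ℂ}, dt U U ≤ 1 → ‖U‖ ≤ 1 := by
    intro U hU
    rw [dt_self] at hU
    nlinarith [norm_nonneg U]
  have hn1 : ∀ {U : ℂ}, dt U U = 1 → ‖U‖ = 1 := by
    intro U hU
    rw [dt_self] at hU
    nlinarith [norm_nonneg U]
  have hsc := Real.sin_sq_add_cos_sq x
  rcases e5 with e5 | e5
  · have h1 := hn1 e5
    refine ⟨‖W‖, x, rfl, p2.le, hn e4, p3, hx1, ?_, ?_⟩
    · rw [hℓ, h1]; nlinarith
    · rw [← e1, p5, h1, one_mul]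
  · have h1 := hn1 e5
    refine ⟨‖V‖, x, rfl, p1.le, hn e3, p3, hx1, ?_, ?_⟩
    · rw [hℓ, h1]; nlinarith
    · rw [← e1, p5, h1, mul_one]

omit [Nonempty ι] in
lemma sum_const_le {m : ℝ} (hm : 0 ≤ m) (hcard : Fintype.card ι ≤ 8) : ∑ _j : ι, m ≤ 8 * m := by
  rw [Finset.sum_const, Finset.card_univ, nsmul_eq_mul]
  exact mul_le_mul_of_nonneg_right (by exact_mod_cast hcard) hm

/-- a configuration has at least nine vertices or perimeter greater than `3.1739` -/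
theorem Conf.absurd (C : Conf v σ o y b ℓ) (hcard : Fintype.card ι ≤ 8)
    (hL : Lg v σ ≤ 31739 / 10000) : False := by
  obtain ⟨j0⟩ := ‹Nonempty ι›
  obtain ⟨p, q, hp, hq, -, -, -⟩ := kktU C.ho C.hy (C.b_notMem j0)
  have h2 := C.triangle (C.hy (b j0)).1 hp hq
  have h2' : 2 ≤ Lg v σ := by linarith [norm_nonneg (v q - v p)]
  have hLg : Lg v σ = ∑ j, ℓ j := by
    unfold Lg
    apply Finset.sum_congr rfl
    intro j _
    rw [C.hb j, norm_smul, norm_mul, Complex.norm_I, norm_ev, Real.norm_eq_abs,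
      abs_of_pos (C.hℓ j)]
    ring
  have hk : (31 / 100 : ℝ) ≤ 1 - (Lg v σ - 2) ^ 2 / 2 := by nlinarith
  choose ρ x hx hρ0 hρ1 hx0 hx1 hℓ hcr using fun j => C.edge_num j hk rfl
  have hcov : AA v ≤ ∑ j, x j := by
    have := C.cover (fun j => (C.edge j (k0 := 1 - (Lg v σ - 2) ^ 2 / 2) (by linarith) rfl).2.1)
    simp only [← hx] at this
    exact this
  have hmain := main_ineq C.ho C.hy C.hE C.hT (fun z hz j => C.Ks_cr hz j) b ℓ C.hℓ C.hb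
  have hsum : ∑ j, ℓ j * (1 - dt (v j - y (b j)) (ev (b j))) = ∑ j, (ℓ j - ρ j * Real.sin (x j)) := by
    apply Finset.sum_congr rfl
    intro j _
    rw [mul_sub, mul_one, hcr]
  rw [hsum] at hmain
  have hs0 : ∀ j, 0 < Real.sin (x j) := fun j =>
    Real.sin_pos_of_pos_of_lt_pi (hx0 j) (by linarith [hx1 j, Real.pi_gt_three])
  have hsℓ : ∀ j, Real.sin (x j) ≤ ℓ j := by
    intro j
    apply le_of_abs_le
    apply abs_le_of_sq_le_sq _ (C.hℓ j).le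
    rw [hℓ j]
    nlinarith [sq_nonneg (ρ j - Real.cos (x j))]
  have hlt : ∀ j, 0 < ℓ j - ρ j * Real.sin (x j) := by
    intro j
    have h1 : ρ j * Real.sin (x j) ≤ 1 * Real.sin (x j) :=
      mul_le_mul_of_nonneg_right (hρ1 j) (hs0 j).le
    have h3 := hsℓ j
    rcases lt_or_ge (Real.sin (x j)) (ℓ j) with h4 | h4
    · linarith
    · have h5 : ℓ j = Real.sin (x j) := le_antisymm h4 h3
      have h6 := hℓ j
      rw [h5] at h6
      have h7 : (ρ j - Real.cos (x j)) ^ 2 = 0 := by linarith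
      have h8 : ρ j = Real.cos (x j) := by
        have := pow_eq_zero_iff (two_ne_zero) |>.1 h7
        linarith
      have h9 : Real.cos (x j) < 1 := by
        have := Real.sin_sq_add_cos_sq (x j)
        nlinarith [hs0 j]
      rw [h5, h8]
      nlinarith [hs0 j]
  have hpos : 0 < ∑ j, (ℓ j - ρ j * Real.sin (x j)) := Finset.sum_pos (fun j _ => hlt j) ⟨j0, Finset.mem_univ _⟩
  have hA0 : 0 ≤ AA v := by
    apply intervalIntegral.integral_nonneg (by positivity)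
    intro θ _
    exact uU_nonneg θ
  have hπ := Real.pi_pos
  have hAπ : π < AA v := by
    by_contra hcon
    push Not at hcon
    have h3 : AA v ^ 2 / π ≤ AA v := by
      rw [div_le_iff₀ hπ]; nlinarith
    linarith
  have hX : ∑ j, x j ≤ 87 / 20 := by
    have h3 : ∀ j, x j ≤ 136765 / 100000 * ℓ j + 0 := by
      intro j
      have h4 := Real.sin_ge_sub_cube (hx0 j).le
      have h5 := hsℓ j
      have h6 : x j ^ 2 ≤ 16129 / 10000 := by nlinarith [hx0 j, hx1 j]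
      have h7 : x j - x j ^ 3 / 6 = x j * (1 - x j ^ 2 / 6) := by ring
      have h8 : x j * (1 - 16129 / 60000) ≤ x j * (1 - x j ^ 2 / 6) :=
        mul_le_mul_of_nonneg_left (by linarith) (hx0 j).le
      linarith [hx0 j]
    have h4 : ∑ j, x j ≤ ∑ j, (136765 / 100000 * ℓ j + 0) := Finset.sum_le_sum fun j _ => h3 j
    simp only [add_zero] at h4
    rw [← Finset.mul_sum, ← hLg] at h4
    linarith
  have hlow : ∀ {c μ m : ℝ}, 0 ≤ c → 0 ≤ m →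
      (∀ t : ℝ, 0 ≤ t → t ≤ 127 / 100 → ∃ r : ℝ, Real.sin t ^ 2 + r ^ 2 ≤ c ^ 2 ∧
        μ * t - m ≤ Real.sin t * (r - Real.cos t)) →
      μ * ∑ j, x j - 8 * m ≤ (c - 1) * Lg v σ + ∑ j, (ℓ j - ρ j * Real.sin (x j)) := by
    intro c μ m hc hm h
    have h3 : ∀ j, μ * x j - m ≤ (c - 1) * ℓ j + (ℓ j - ρ j * Real.sin (x j)) := by
      intro j
      obtain ⟨r, hr1, hr2⟩ := h (x j) (hx0 j).le (hx1 j)
      have := cs_edge hc (C.hℓ j).le (hℓ j) hr1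
      linarith
    have h4 : ∑ j, (μ * x j - m) ≤ ∑ j, ((c - 1) * ℓ j + (ℓ j - ρ j * Real.sin (x j))) :=
      Finset.sum_le_sum fun j _ => h3 j
    rw [Finset.sum_sub_distrib, Finset.sum_add_distrib, ← Finset.mul_sum, ← Finset.mul_sum,
      ← hLg] at h4
    have h5 := sum_const_le (ι := ι) hm hcard
    linarith
  have hπ1 := Real.pi_gt_d6
  have hπ2 := Real.pi_lt_d6
  rcases le_total (AA v) (17 / 5) with hcase | hcase
  · have h3 := hlow (c := 511 / 250) (μ := 108226 / 100000) (m := 10806 / 1000000 )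
      (by norm_num) (by norm_num) (fun t ht0 ht1 => rng1 ht0 ht1)
    have h4 : AA v ^ 2 / π - AA v ≤ 108226 / 100000 * AA v - 17 / 5 := by
      rw [sub_le_iff_le_add, div_le_iff₀ hπ]
      have h5 : (AA v - π) * (AA v - 17 / 5) ≤ 0 :=
        mul_nonpos_of_nonneg_of_nonpos (by linarith) (by linarith)
      nlinarith
    nlinarith
  · have h3 := hlow (c := 61 / 25) (μ := 146692 / 100000) (m := 1073 / 62500)
      (by norm_num) (by norm_num) (fun t ht0 ht1 => rng2 ht0 ht1)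
    have h4 : AA v ^ 2 / π - AA v ≤ 146692 / 100000 * AA v - 47078 / 10000 := by
      rw [sub_le_iff_le_add, div_le_iff₀ hπ]
      have h5 : (AA v - 17 / 5) * (AA v - 87 / 20) ≤ 0 :=
        mul_nonpos_of_nonneg_of_nonpos (by linarith) (by linarith)
      nlinarith
    nlinarith

end Pool.Agent.K7.H36.RP
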