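import Pool.Agent.K7.H36.RP.Exist

/-!
# The cyclic order of the extreme points
-/

set_option autoImplicit false

open Real Set Filter Topology MeasureTheory

namespace Pool.Agent.K7.H36.RP

section

variable {ι : Type} [Fintype ι] {u : ι → ℂ}

/-- every point is outside the hull of the others -/
def Ext (u : ι → ℂ) : Prop := ∀ a, u a ∉ convexHull ℝ (u '' {a}ᶜ)

lemma Ext.sep (h : Ext u) (a : ι) : ∃ n : ℂ, ∀ l, l ≠ a → 0 < dt (u l - u a) n := by
  obtain ⟨m, hm⟩ := RP.sep (Set.toFinite (u '' {a}ᶜ)) (h a)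
  refine ⟨-m, fun l hl => ?_⟩
  have := hm (u l) ⟨l, hl, rfl⟩
  rw [dt_neg_right, dt_sub_left]
  linarith

lemma cr_dt (n x y : ℂ) : cr x y * dt n n = dt x n * cr n y - cr n x * dt y n := by
  simp only [cr, dt]; ring

lemma seg_mem {S : Set ℂ} {p q : ℂ} (hp : p ∈ S) (hq : q ∈ S) {z : ℂ} {s : ℝ} (h0 : 0 ≤ s)
    (h1 : s ≤ 1) (hz : z - p = s • (q - p)) : z ∈ convexHull ℝ S := by
  have e : z = (1 - s) • p + s • q := by
    have : z = p + s • (q - p) := by rw [← hz]; ring
    rw [this]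
    simp only [Complex.real_smul]; push_cast; ring
  rw [e]
  exact (convex_convexHull ℝ S) (subset_convexHull ℝ S hp) (subset_convexHull ℝ S hq)
    (by linarith) h0 (by ring)

/-- no three points are collinear -/
lemma Ext.cr_ne (h : Ext u) {a b l : ι} (hab : b ≠ a) (hal : l ≠ a) (hbl : l ≠ b) :
    cr (u b - u a) (u l - u a) ≠ 0 := by
  intro h0
  obtain ⟨n, hn⟩ := h.sep a
  have hx := hn b hab
  have hy := hn l hal
  -- `y = s x`
  have h1 : (dt (u b - u a) n) • (u l - u a) = (dt (u l - u a) n) • (u b - u a) := by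
    have hk := h0
    simp only [cr] at hk
    apply Complex.ext
    · simp only [dt, Complex.real_smul, Complex.mul_re, Complex.ofReal_re, Complex.ofReal_im]
      linear_combination (-n.im) * hk
    · simp only [dt, Complex.real_smul, Complex.mul_im, Complex.ofReal_re, Complex.ofReal_im]
      linear_combination n.re * hk
  rcases le_total (dt (u l - u a) n) (dt (u b - u a) n) with h2 | h2
  · refine h l (seg_mem (S := u '' {l}ᶜ) (p := u a) (q := u b) ⟨a, by simpa using hal.symm, rfl⟩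
      ⟨b, by simpa using hbl.symm, rfl⟩ (s := dt (u l - u a) n / dt (u b - u a) n)
      (div_nonneg hy.le hx.le) ((div_le_one hx).2 h2) ?_)
    rw [div_eq_inv_mul, mul_smul, ← h1, smul_smul, inv_mul_cancel₀ hx.ne', one_smul]
  · refine h b (seg_mem (S := u '' {b}ᶜ) (p := u a) (q := u l) ⟨a, by simpa using hab.symm, rfl⟩
      ⟨l, by simpa using hbl, rfl⟩ (s := dt (u b - u a) n / dt (u l - u a) n)
      (div_nonneg hx.le hy.le) ((div_le_one hy).2 h2) ?_)
    rw [div_eq_inv_mul, mul_smul, h1, smul_smul, inv_mul_cancel₀ hy.ne', one_smul]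

lemma Ext.exists_next (h : Ext u) (hcard : 2 ≤ Fintype.card ι) (a : ι) :
    ∃ b, b ≠ a ∧ ∀ l, l ≠ a → l ≠ b → 0 < cr (u b - u a) (u l - u a) := by
  classical
  obtain ⟨n, hn⟩ := h.sep a
  have hne : (Finset.univ.erase a).Nonempty := by
    rw [← Finset.card_pos, Finset.card_erase_of_mem (Finset.mem_univ a), Finset.card_univ]
    omega
  obtain ⟨b, hb, hmin⟩ := Finset.exists_min_image (Finset.univ.erase a)
    (fun l => cr n (u l - u a) / dt (u l - u a) n) hne
  have hba : b ≠ a := (Finset.mem_erase.1 hb).1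
  refine ⟨b, hba, fun l hla hlb => ?_⟩
  have h1 := hmin l (Finset.mem_erase.2 ⟨hla, Finset.mem_univ _⟩)
  have hx := hn b hba
  have hy := hn l hla
  rw [div_le_div_iff₀ hx hy] at h1
  have h2 := cr_dt n (u b - u a) (u l - u a)
  have hn0 : 0 < dt n n := by
    rcases (dt_self_nonneg n).lt_or_eq with h3 | h3
    · exact h3
    · have : n = 0 := dt_self_eq_zero.1 h3.symm
      rw [this, dt_zero_right] at hx
      exact absurd hx (lt_irrefl _)
  have h3 : 0 ≤ cr (u b - u a) (u l - u a) * dt n n := by rw [h2]; linarith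
  have h4 : 0 ≤ cr (u b - u a) (u l - u a) := nonneg_of_mul_nonneg_left h3 hn0
  exact lt_of_le_of_ne h4 (Ne.symm (h.cr_ne hba hla hlb))

/-- the successor permutation -/
lemma Ext.exists_succ (h : Ext u) (hcard : 3 ≤ Fintype.card ι) :
    ∃ σ : Equiv.Perm ι, EC u σ ∧ (∀ j, σ j ≠ j) ∧ ∀ j, σ (σ j) ≠ j := by
  classical
  choose f hf1 hf2 using h.exists_next (by omega : 2 ≤ Fintype.card ι)
  have hinj : Function.Injective f := by
    intro a a' haa
    by_contra hne
    have h1 := hf2 a a' (Ne.symm hne) (by rw [haa]; exact (hf1 a').symm)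
    have h2 := hf2 a' a hne (by rw [← haa]; exact (hf1 a).symm)
    rw [← haa] at h2
    have h3 : cr (u (f a) - u a) (u a' - u a) + cr (u (f a) - u a') (u a - u a') = 0 := by
      simp only [cr, Complex.sub_re, Complex.sub_im]; ring
    linarith
  have hbij : Function.Bijective f := Finite.injective_iff_bijective.1 hinj
  refine ⟨Equiv.ofBijective f hbij, fun j l hlj hlf => hf2 j l hlj hlf, fun j => hf1 j, ?_⟩
  intro j hj
  change f (f j) = j at hj
  obtain ⟨l, hl⟩ : ∃ l, l ∉ ({j, f j} : Finset ι) := by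
    by_contra hcon
    push Not at hcon
    have h1 : (Finset.univ : Finset ι) ⊆ {j, f j} := fun l _ => hcon l
    have h2 := Finset.card_le_card h1
    have h3 : ({j, f j} : Finset ι).card ≤ 2 := Finset.card_le_two
    rw [Finset.card_univ] at h2
    omega
  simp only [Finset.mem_insert, Finset.mem_singleton, not_or] at hl
  have h1 := hf2 j l hl.1 hl.2
  have h2 := hf2 (f j) l hl.2 (by rw [hj]; exact hl.1)
  rw [hj] at h2
  have h3 : cr (u (f j) - u j) (u l - u j) + cr (u j - u (f j)) (u l - u (f j)) = 0 := by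
    simp only [cr, Complex.sub_re, Complex.sub_im]; ring
  linarith

end

section

variable {ι : Type} {u : ι → ℂ} {σ : Equiv.Perm ι}

lemma cone_rep (hE : EC u σ) (h1 : ∀ j, σ j ≠ j) (h2 : ∀ j, σ (σ j) ≠ j) (a : ι) {z : ℂ}
    (hz1 : 0 ≤ cr (u (σ a) - u a) (z - u a))
    (hz2 : 0 ≤ cr (u a - u (σ.symm a)) (z - u (σ.symm a))) :
    ∃ α β : ℝ, 0 ≤ α ∧ 0 ≤ β ∧
      z - u a = α • (u (σ a) - u a) + β • (u (σ.symm a) - u a) := by
  have hp1 : σ.symm a ≠ a := by
    intro h
    have := h1 (σ.symm a)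
    rw [Equiv.apply_symm_apply, h] at this
    exact this rfl
  have hp2 : σ.symm a ≠ σ a := by
    intro h
    have := h2 (σ.symm a)
    rw [Equiv.apply_symm_apply, h] at this
    exact this rfl
  have hD := hE a (σ.symm a) hp1 hp2
  set q := u (σ a) - u a with hq
  set p := u (σ.symm a) - u a with hp
  have hex := expand (z - u a) q p
  have hα : 0 ≤ cr (z - u a) p := by
    have : cr (z - u a) p = cr (u a - u (σ.symm a)) (z - u (σ.symm a)) := by
      rw [hp]; simp only [cr, Complex.sub_re, Complex.sub_im]; ring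
    rw [this]; exact hz2
  refine ⟨cr (z - u a) p / cr q p, cr q (z - u a) / cr q p, div_nonneg hα hD.le,
    div_nonneg hz1 hD.le, ?_⟩
  have h3 : z - u a = (1 / cr q p) • (cr q p • (z - u a)) := by
    rw [smul_smul, one_div_mul_cancel hD.ne', one_smul]
  refine h3.trans ?_
  rw [hex, smul_add, smul_smul, smul_smul]
  congr 2 <;> ring

lemma max_on (hE : EC u σ) (h1 : ∀ j, σ j ≠ j) (h2 : ∀ j, σ (σ j) ≠ j) {C : Finset ι}
    (hC : C.Nonempty) (hCs : ∀ c ∈ C, σ c ∈ C) (hCp : ∀ c ∈ C, σ.symm c ∈ C) {z : ℂ}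
    (hz : ∀ c ∈ C, 0 ≤ cr (u (σ c) - u c) (z - u c)) (m : ℂ) :
    ∃ c ∈ C, dt z m ≤ dt (u c) m := by
  obtain ⟨a, ha, hmax⟩ := Finset.exists_max_image C (fun c => dt (u c) m) hC
  refine ⟨a, ha, ?_⟩
  have h3 := hz _ (hCp a ha)
  rw [Equiv.apply_symm_apply] at h3
  obtain ⟨α, β, hα, hβ, e⟩ := cone_rep hE h1 h2 a (hz a ha) h3
  have h4 : dt (z - u a) m = α * dt (u (σ a) - u a) m + β * dt (u (σ.symm a) - u a) m := by
    rw [e, dt_add_left, dt_smul_left, dt_smul_left]
  have h5 := hmax _ (hCs a ha)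
  have h6 := hmax _ (hCp a ha)
  simp only [dt_sub_left] at h4
  have h7 := mul_nonneg hα (sub_nonneg.2 h5)
  have h8 := mul_nonneg hβ (sub_nonneg.2 h6)
  nlinarith

end

section

variable {ι : Type} [Fintype ι] {u : ι → ℂ} {σ : Equiv.Perm ι}

/-- intersection of the half planes of the edges -/
lemma half_hull [Nonempty ι] (hE : EC u σ) (h1 : ∀ j, σ j ≠ j) (h2 : ∀ j, σ (σ j) ≠ j) {z : ℂ}
    (hz : ∀ c, 0 ≤ cr (u (σ c) - u c) (z - u c)) : z ∈ convexHull ℝ (range u) := by
  classical
  by_contra hcon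
  obtain ⟨m, hm⟩ := sep (finite_range u) hcon
  obtain ⟨c, -, hc⟩ := max_on hE h1 h2 (C := Finset.univ) Finset.univ_nonempty
    (fun _ _ => Finset.mem_univ _) (fun _ _ => Finset.mem_univ _) (fun c _ => hz c) m
  have := hm (u c) ⟨c, rfl⟩
  linarith

/-- the hull is contained in the half planes -/
lemma hull_half_cr (hE : EC u σ) {z : ℂ} (hz : z ∈ convexHull ℝ (range u)) (c : ι) :
    0 ≤ cr (u (σ c) - u c) (z - u c) := by
  obtain ⟨w, hw0, hw1, rfl⟩ := mem_hull.1 hz
  have e : ∑ i, w i • u i - u c = ∑ i, w i • (u i - u c) := by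
    simp only [smul_sub, Finset.sum_sub_distrib]
    rw [← Finset.sum_smul, hw1, one_smul]
  have e2 : cr (u (σ c) - u c) (∑ i, w i • (u i - u c)) =
      ∑ i, w i * cr (u (σ c) - u c) (u i - u c) := by
    simp only [cr, Complex.re_sum, Complex.im_sum, Finset.mul_sum, ← Finset.sum_sub_distrib,
      Complex.real_smul, Complex.mul_re, Complex.mul_im, Complex.ofReal_re, Complex.ofReal_im]
    apply Finset.sum_congr rfl
    intro i _
    ring
  rw [e, e2]
  exact Finset.sum_nonneg fun i _ => mul_nonneg (hw0 i) (hE.nonneg c i)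

/-- the successor function is a single cycle -/
lemma Ext.cycle [Nonempty ι] (h : Ext u) (hE : EC u σ) (h1 : ∀ j, σ j ≠ j)
    (h2 : ∀ j, σ (σ j) ≠ j) (i l : ι) : σ.SameCycle i l := by
  classical
  by_contra hcon
  obtain ⟨n, hn⟩ := h.sep l
  obtain ⟨c, hc, hc2⟩ := max_on hE h1 h2 (C := Finset.univ.filter (fun x => σ.SameCycle i x))
    ⟨i, by simpa using Equiv.Perm.SameCycle.refl σ i⟩ (fun c hc => by
      simp only [Finset.mem_filter, Finset.mem_univ, true_and] at hc ⊢
      exact Equiv.Perm.sameCycle_apply_right.2 hc) (fun c hc => by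
      simp only [Finset.mem_filter, Finset.mem_univ, true_and] at hc ⊢
      exact Equiv.Perm.sameCycle_symm_apply_right.2 hc) (z := u l)
    (fun c _ => hE.nonneg c l) (-n)
  simp only [Finset.mem_filter, Finset.mem_univ, true_and] at hc
  have hcl : c ≠ l := by rintro rfl; exact hcon hc
  have := hn c hcl
  rw [dt_sub_left] at this
  rw [dt_neg_right, dt_neg_right] at hc2
  linarith

lemma cyc_on (h : ∀ i l, σ.SameCycle i l) : σ.IsCycleOn ((Finset.univ : Finset ι) : Set ι) := by
  refine ⟨?_, fun x _ y _ => h x y⟩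
  rw [Finset.coe_univ]
  exact Set.bijOn_univ.2 σ.bijective

/-- enumeration of a cycle -/
lemma cyc_sum (h : ∀ i l, σ.SameCycle i l) (i : ι) (F : ι → ℝ) :
    ∑ l, F l = ∑ t ∈ Finset.range (Fintype.card ι), F ((σ ^ t) i) := by
  classical
  have hc := cyc_on h
  have himg : (Finset.range (Fintype.card ι)).image (fun t => (σ ^ t) i) = Finset.univ := by
    apply Finset.eq_univ_of_forall
    intro l
    obtain ⟨n, hn, e⟩ := hc.exists_pow_eq (Finset.mem_univ i) (Finset.mem_univ l)
    exact Finset.mem_image.2 ⟨n, Finset.mem_range.2 (by rwa [Finset.card_univ] at hn), e⟩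
  have hinj : Set.InjOn (fun t => (σ ^ t) i) (Finset.range (Fintype.card ι) : Set ℕ) := by
    apply Finset.injOn_of_card_image_eq
    rw [himg, Finset.card_range, Finset.card_univ]
  rw [← himg, Finset.sum_image (fun x hx y hy e => hinj hx hy e)]

lemma cyc_TV (h : ∀ i l, σ.SameCycle i l) : TV σ := by
  classical
  intro f i j
  have hc := cyc_on h
  obtain ⟨m, hm, e⟩ := hc.exists_pow_eq (Finset.mem_univ i) (Finset.mem_univ j)
  rw [Finset.card_univ] at hm
  have hN : (σ ^ Fintype.card ι) i = i := by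
    have := hc.pow_card_apply (Finset.mem_univ i)
    rwa [Finset.card_univ] at this
  rw [cyc_sum h i]
  set g : ℕ → ℝ := fun t => f ((σ ^ t) i) with hg
  have hstep : ∀ t, |f (σ ((σ ^ t) i)) - f ((σ ^ t) i)| = |g (t + 1) - g t| := by
    intro t
    simp only [hg, pow_succ', Equiv.Perm.mul_apply]
  simp only [hstep]
  have hsplit : ∑ t ∈ Finset.range (Fintype.card ι), |g (t + 1) - g t| =
      ∑ t ∈ Finset.range m, |g (t + 1) - g t| +
      ∑ t ∈ Finset.Ico m (Fintype.card ι), |g (t + 1) - g t| := by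
    rw [Finset.range_eq_Ico, Finset.range_eq_Ico, Finset.sum_Ico_consecutive _ (Nat.zero_le _) hm.le]
  rw [hsplit]
  have a1 : g m - g 0 = ∑ t ∈ Finset.range m, (g (t + 1) - g t) := (Finset.sum_range_sub g m).symm
  have a2 : g (Fintype.card ι) - g m = ∑ t ∈ Finset.Ico m (Fintype.card ι), (g (t + 1) - g t) :=
    (Finset.sum_Ico_sub g hm.le).symm
  have b1 := Finset.abs_sum_le_sum_abs (fun t => g (t + 1) - g t) (Finset.range m)
  have b2 := Finset.abs_sum_le_sum_abs (fun t => g (t + 1) - g t)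
    (Finset.Ico m (Fintype.card ι))
  rw [← a1] at b1
  rw [← a2] at b2
  have c1 : g m = f j := by simp only [hg, e]
  have c2 : g 0 = f i := by simp [hg]
  have c3 : g (Fintype.card ι) = f i := by simp only [hg, hN]
  rw [c1, c2] at b1
  rw [c1, c3] at b2
  have d1 := neg_abs_le (f j - f i)
  have d2 := le_abs_self (f i - f j)
  linarith

/-- perimeter and the integral of the support function -/
lemma Hn_eq_Lg [Nonempty ι] (hE : EC u σ) (hT : TV σ) : Hn u = Lg u σ :=
  le_antisymm (int_hs_le hT) (int_hs_ge hE)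

end

end Pool.Agent.K7.H36.RP
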