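import Pool.Agent.K7.H36.RP.Rot

/-!
# Convex polygons: variation of a linear function along the boundary
-/

set_option autoImplicit false

open Real Set Filter Topology MeasureTheory

namespace Pool.Agent.K7.H36.RP

variable {ι : Type} [Fintype ι]

/-- every point `v l` other than the two end points is strictly to the left of every edge -/
def EC (v : ι → ℂ) (σ : Equiv.Perm ι) : Prop :=
  ∀ j l, l ≠ j → l ≠ σ j → 0 < cr (v (σ j) - v j) (v l - v j)

section

variable {v : ι → ℂ} {σ : Equiv.Perm ι}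

omit [Fintype ι] in
lemma EC.nonneg (h : EC v σ) (j l : ι) : 0 ≤ cr (v (σ j) - v j) (v l - v j) := by
  by_cases h1 : l = j
  · rw [h1, sub_self, cr_zero_right]
  · by_cases h2 : l = σ j
    · rw [h2, cr_self]
    · exact (h j l h1 h2).le

omit [Fintype ι] in
/-- two edges cannot both cross a level upwards -/
lemma cross_disj (h : EC v σ) {e : ℂ} {j k : ι} (hjk : j ≠ k) {τ : ℝ}
    (h1 : dt (v j) e < τ) (h2 : τ < dt (v (σ j)) e) (h3 : dt (v k) e < τ)
    (h4 : τ < dt (v (σ k)) e) : False := by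
  obtain ⟨s, hs0, hs1, hs⟩ : ∃ s : ℝ, 0 < s ∧ s < 1 ∧
      dt (v j) e + s * (dt (v (σ j)) e - dt (v j) e) = τ := by
    refine ⟨(τ - dt (v j) e) / (dt (v (σ j)) e - dt (v j) e), ?_, ?_, ?_⟩
    · apply div_pos <;> linarith
    · rw [div_lt_one (by linarith)]; linarith
    · field_simp [show dt (v (σ j)) e - dt (v j) e ≠ 0 by linarith]; ring
  obtain ⟨r, hr0, hr1, hr⟩ : ∃ s : ℝ, 0 < s ∧ s < 1 ∧
      dt (v k) e + s * (dt (v (σ k)) e - dt (v k) e) = τ := by
    refine ⟨(τ - dt (v k) e) / (dt (v (σ k)) e - dt (v k) e), ?_, ?_, ?_⟩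
    · apply div_pos <;> linarith
    · rw [div_lt_one (by linarith)]; linarith
    · field_simp [show dt (v (σ k)) e - dt (v k) e ≠ 0 by linarith]; ring
  -- the two points at level `τ`
  set z := v j + s • (v (σ j) - v j) with hz
  set z' := v k + r • (v (σ k) - v k) with hz'
  set D := z' - z with hD
  have hDe : dt D e = 0 := by
    rw [hD, hz, hz', dt_sub_left, dt_add_left, dt_add_left, dt_smul_left, dt_smul_left,
      dt_sub_left, dt_sub_left]
    linarith
  have hj0 := h.nonneg j k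
  have hj1 := h.nonneg j (σ k)
  have hk0 := h.nonneg k j
  have hk1 := h.nonneg k (σ j)
  have c1 : cr (v (σ j) - v j) D = (1 - r) * cr (v (σ j) - v j) (v k - v j) +
      r * cr (v (σ j) - v j) (v (σ k) - v j) := by
    rw [hD, hz, hz']
    simp only [cr, Complex.sub_re, Complex.sub_im, Complex.add_re, Complex.add_im,
      Complex.real_smul, Complex.mul_re, Complex.mul_im, Complex.ofReal_re, Complex.ofReal_im]
    ring
  have c2 : cr (v (σ k) - v k) (-D) = (1 - s) * cr (v (σ k) - v k) (v j - v k) +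
      s * cr (v (σ k) - v k) (v (σ j) - v k) := by
    rw [hD, hz, hz']
    simp only [cr, Complex.sub_re, Complex.sub_im, Complex.add_re, Complex.add_im,
      Complex.real_smul, Complex.mul_re, Complex.mul_im, Complex.ofReal_re, Complex.ofReal_im,
      Complex.neg_re, Complex.neg_im]
    ring
  have c1' : 0 ≤ cr (v (σ j) - v j) D := by
    rw [c1]; exact add_nonneg (mul_nonneg (by linarith) hj0) (mul_nonneg hr0.le hj1)
  have c2' : 0 ≤ cr (v (σ k) - v k) (-D) := by
    rw [c2]; exact add_nonneg (mul_nonneg (by linarith) hk0) (mul_nonneg hs0.le hk1)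
  have g1 : 0 < dt (v (σ j) - v j) e := by rw [dt_sub_left]; linarith
  have g2 : 0 < dt (v (σ k) - v k) e := by rw [dt_sub_left]; linarith
  -- identity: `dt g e * cr (e) D = dt e e * cr g D` when `dt D e = 0`
  have key : ∀ g : ℂ, dt e e * cr g D = dt g e * cr e D := by
    intro g
    have hk : dt e e * cr g D - dt g e * cr e D = - cr e g * dt D e := by
      simp only [dt, cr]; ring
    rw [hDe, mul_zero] at hk
    linarith
  have he : 0 < dt e e := by
    rcases (dt_self_nonneg e).lt_or_eq with h0 | h0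
    · exact h0
    · rw [dt_self_eq_zero.1 h0.symm, dt_zero_right] at g1
      exact absurd g1 (lt_irrefl _)
  have k1 := key (v (σ j) - v j)
  have k2 := key (v (σ k) - v k)
  rw [cr_neg_right] at c2'
  have e1 : 0 ≤ cr e D := by
    by_contra hneg
    push Not at hneg
    have := mul_nonneg he.le c1'
    nlinarith
  have e2 : cr e D ≤ 0 := by
    by_contra hneg
    push Not at hneg
    have h5 := mul_nonneg he.le c2'
    have h6 := mul_pos g2 hneg
    nlinarith
  have e3 : cr e D = 0 := le_antisymm e2 e1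
  have d1 : cr (v (σ j) - v j) D = 0 := by
    rw [e3, mul_zero] at k1
    exact (mul_eq_zero.1 k1).resolve_left he.ne'
  rw [d1] at c1
  have f1 : (1 - r) * cr (v (σ j) - v j) (v k - v j) = 0 := by
    have a1 := mul_nonneg (show 0 ≤ 1 - r by linarith) hj0
    have a2 := mul_nonneg hr0.le hj1
    linarith
  have f2 : r * cr (v (σ j) - v j) (v (σ k) - v j) = 0 := by
    have a1 := mul_nonneg (show 0 ≤ 1 - r by linarith) hj0
    have a2 := mul_nonneg hr0.le hj1
    linarith
  have f1' := (mul_eq_zero.1 f1).resolve_left (by linarith)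
  have f2' := (mul_eq_zero.1 f2).resolve_left hr0.ne'
  have hk : k = σ j := by
    by_contra hne
    exact absurd (h j k (Ne.symm hjk) hne) (by rw [f1']; exact lt_irrefl _)
  rw [← hk] at h2
  linarith

/-- the total variation of a linear function along a convex polygon -/
lemma tv_le [Nonempty ι] (h : EC v σ) {e : ℂ} {m M : ℝ} (hm : ∀ l, m ≤ dt (v l) e)
    (hM : ∀ l, dt (v l) e ≤ M) :
    ∑ l, |dt (v (σ l) - v l) e| ≤ 2 * (M - m) := by
  classical
  have hsum : ∑ l, (dt (v (σ l)) e - dt (v l) e) = 0 := by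
    rw [Finset.sum_sub_distrib, Equiv.sum_comp σ (fun l => dt (v l) e), sub_self]
  have habs : ∀ l, |dt (v (σ l) - v l) e| =
      2 * max (dt (v (σ l)) e - dt (v l) e) 0 - (dt (v (σ l)) e - dt (v l) e) := by
    intro l
    rw [dt_sub_left]
    rcases le_total (dt (v (σ l)) e - dt (v l) e) 0 with h0 | h0
    · rw [abs_of_nonpos h0, max_eq_right h0]; ring
    · rw [abs_of_nonneg h0, max_eq_left h0]; ring
  rw [Finset.sum_congr rfl fun l _ => habs l, Finset.sum_sub_distrib, hsum, sub_zero,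
    ← Finset.mul_sum]
  have hdisj : Pairwise (Function.onFun Disjoint fun l => Ioo (dt (v l) e) (dt (v (σ l)) e)) := by
    intro j k hjk
    rw [Function.onFun, Set.disjoint_left]
    intro τ h1 h2
    exact cross_disj h hjk h1.1 h1.2 h2.1 h2.2
  have hmeas : ∑ l, volume (Ioo (dt (v l) e) (dt (v (σ l)) e)) =
      volume (⋃ l, Ioo (dt (v l) e) (dt (v (σ l)) e)) := by
    rw [measure_iUnion hdisj (fun l => measurableSet_Ioo), tsum_fintype]
  have hsub : (⋃ l, Ioo (dt (v l) e) (dt (v (σ l)) e)) ⊆ Icc m M := by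
    apply iUnion_subset
    intro l τ hτ
    exact ⟨(hm l).trans hτ.1.le, hτ.2.le.trans (hM (σ l))⟩
  have hle := (hmeas.trans_le (measure_mono hsub))
  simp only [Real.volume_Ioo, Real.volume_Icc] at hle
  have hconv : ∀ l, ENNReal.ofReal (dt (v (σ l)) e - dt (v l) e) =
      ENNReal.ofReal (max (dt (v (σ l)) e - dt (v l) e) 0) := by
    intro l
    rcases le_total (dt (v (σ l)) e - dt (v l) e) 0 with h0 | h0
    · rw [max_eq_right h0, ENNReal.ofReal_of_nonpos h0, ENNReal.ofReal_zero]
    · rw [max_eq_left h0]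
  rw [Finset.sum_congr rfl fun l _ => hconv l,
    ← ENNReal.ofReal_sum_of_nonneg (fun l _ => le_max_right _ _)] at hle
  obtain ⟨l0⟩ := ‹Nonempty ι›
  have hmM : m ≤ M := (hm l0).trans (hM l0)
  have := (ENNReal.ofReal_le_ofReal_iff (by linarith)).1 hle
  linarith

/-- support function of the polygon -/
noncomputable def hs [Nonempty ι] (v : ι → ℂ) (θ : ℝ) : ℝ :=
  Finset.univ.sup' Finset.univ_nonempty fun j => dt (v j) (ev θ)

lemma le_hs [Nonempty ι] (v : ι → ℂ) (θ : ℝ) (j : ι) : dt (v j) (ev θ) ≤ hs v θ :=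
  Finset.le_sup' (fun j => dt (v j) (ev θ)) (Finset.mem_univ j)

lemma hs_le [Nonempty ι] {v : ι → ℂ} {θ B : ℝ} (h : ∀ j, dt (v j) (ev θ) ≤ B) : hs v θ ≤ B :=
  Finset.sup'_le _ _ fun j _ => h j

lemma exists_hs [Nonempty ι] (v : ι → ℂ) (θ : ℝ) : ∃ j, hs v θ = dt (v j) (ev θ) := by
  obtain ⟨j, _, hj⟩ := Finset.exists_mem_eq_sup' (Finset.univ_nonempty (α := ι))
    (fun j => dt (v j) (ev θ))
  exact ⟨j, hj⟩

lemma continuous_hs [Nonempty ι] (v : ι → ℂ) : Continuous (hs v) := by
  unfold hs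
  apply Continuous.finset_sup'_apply
  intro j _
  unfold dt
  simp only [ev_re, ev_im]
  fun_prop

/-- half of the variation along the boundary -/
noncomputable def wt (v : ι → ℂ) (σ : Equiv.Perm ι) (θ : ℝ) : ℝ :=
  (1 / 2) * ∑ l, |dt (v (σ l) - v l) (ev θ)|

lemma continuous_wt (v : ι → ℂ) (σ : Equiv.Perm ι) : Continuous (wt v σ) := by
  unfold wt dt
  simp only [ev_re, ev_im]
  fun_prop

lemma wt_le [Nonempty ι] (h : EC v σ) (θ : ℝ) : wt v σ θ ≤ hs v θ + hs v (θ + π) := by
  have h1 := tv_le h (e := ev θ) (m := -hs v (θ + π)) (M := hs v θ) (fun l => by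
    have := le_hs v (θ + π) l
    rw [ev_add_pi, dt_neg_right] at this
    linarith) (fun l => le_hs v θ l)
  unfold wt
  linarith

/-- closed polygons -/
def TV (σ : Equiv.Perm ι) : Prop := ∀ (f : ι → ℝ) (i j : ι), 2 * (f i - f j) ≤ ∑ l, |f (σ l) - f l|

lemma le_wt [Nonempty ι] (hT : TV σ) (θ : ℝ) : hs v θ + hs v (θ + π) ≤ wt v σ θ := by
  obtain ⟨i, hi⟩ := exists_hs v θ
  obtain ⟨j, hj⟩ := exists_hs v (θ + π)
  rw [ev_add_pi, dt_neg_right] at hj
  have h1 := hT (fun l => dt (v l) (ev θ)) i j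
  unfold wt
  simp only [dt_sub_left]
  rw [hi, hj]
  linarith

lemma int_abs_cos : ∫ θ in (0 : ℝ)..(2 * π), |Real.cos θ| = 4 := by
  have hp : Function.Periodic (fun θ => |Real.cos θ|) (2 * π) := by
    intro θ; simp only; rw [Real.cos_add_two_pi]
  have h1 := hp.intervalIntegral_add_eq 0 (-(π / 2))
  rw [zero_add] at h1
  rw [h1]
  have hi : ∀ a b : ℝ, IntervalIntegrable (fun θ => |Real.cos θ|) volume a b := fun a b =>
    (Real.continuous_cos.abs).intervalIntegrable a b
  rw [← intervalIntegral.integral_add_adjacent_intervals (hi (-(π / 2)) (π / 2))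
    (hi (π / 2) (-(π / 2) + 2 * π))]
  have hpi := Real.pi_pos
  have e1 : ∫ θ in (-(π / 2))..(π / 2), |Real.cos θ| = ∫ θ in (-(π / 2))..(π / 2), Real.cos θ := by
    apply intervalIntegral.integral_congr
    intro θ hθ
    rw [uIcc_of_le (by linarith)] at hθ
    simp only
    rw [abs_of_nonneg (Real.cos_nonneg_of_mem_Icc hθ)]
  have e2 : ∫ θ in (π / 2)..(-(π / 2) + 2 * π), |Real.cos θ| =
      ∫ θ in (π / 2)..(-(π / 2) + 2 * π), -Real.cos θ := by
    apply intervalIntegral.integral_congr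
    intro θ hθ
    rw [uIcc_of_le (by linarith)] at hθ
    simp only
    rw [abs_of_nonpos]
    exact Real.cos_nonpos_of_pi_div_two_le_of_le hθ.1 (by linarith [hθ.2])
  rw [e1, e2, integral_cos, intervalIntegral.integral_neg, integral_cos]
  have s1 : Real.sin (-(π / 2) + 2 * π) = -1 := by
    rw [Real.sin_add_two_pi, Real.sin_neg, Real.sin_pi_div_two]
  rw [s1, Real.sin_neg, Real.sin_pi_div_two]
  norm_num

lemma int_abs_dt (z : ℂ) : ∫ θ in (0 : ℝ)..(2 * π), |dt z (ev θ)| = 4 * ‖z‖ := by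
  by_cases hz : z = 0
  · simp [hz]
  have hn : 0 < ‖z‖ := norm_pos_iff.2 hz
  have h1 : dt ((1 / ‖z‖) • z) ((1 / ‖z‖) • z) = 1 := by
    rw [dt_smul_left, dt_smul_right, dt_self]; field_simp
  obtain ⟨φ, hφ⟩ := exists_ev h1
  have hw : z = ‖z‖ • ev φ := by
    rw [hφ, smul_smul, mul_one_div_cancel hn.ne', one_smul]
  have h2 : ∀ θ, |dt z (ev θ)| = ‖z‖ * |Real.cos (θ - φ)| := by
    intro θ
    have : dt z (ev θ) = ‖z‖ * Real.cos (θ - φ) := by
      conv_lhs => rw [hw]
      rw [dt_smul_left, Real.cos_sub]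
      simp only [dt, ev_re, ev_im]; ring
    rw [this, abs_mul, abs_of_pos hn]
  simp only [h2]
  rw [intervalIntegral.integral_const_mul,
    intervalIntegral.integral_comp_sub_right (fun θ => |Real.cos θ|) φ]
  have hp : Function.Periodic (fun θ => |Real.cos θ|) (2 * π) := by
    intro θ; simp only; rw [Real.cos_add_two_pi]
  have h3 := hp.intervalIntegral_add_eq (0 - φ) 0
  rw [zero_add, show (0 - φ) + 2 * π = 2 * π - φ by ring] at h3
  rw [h3, int_abs_cos]
  ring

/-- length of the closed polygon -/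
noncomputable def Lg (v : ι → ℂ) (σ : Equiv.Perm ι) : ℝ := ∑ l, ‖v (σ l) - v l‖

lemma int_wt (v : ι → ℂ) (σ : Equiv.Perm ι) :
    ∫ θ in (0 : ℝ)..(2 * π), wt v σ θ = 2 * Lg v σ := by
  unfold wt Lg
  rw [intervalIntegral.integral_const_mul, intervalIntegral.integral_finsetSum]
  · simp only [int_abs_dt]
    rw [← Finset.mul_sum]; ring
  · intro l _
    apply Continuous.intervalIntegrable
    unfold dt
    simp only [ev_re, ev_im]
    fun_prop

lemma per_hs [Nonempty ι] (v : ι → ℂ) : Function.Periodic (hs v) (2 * π) := by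
  intro θ
  unfold hs
  simp only [ev_add_two_pi]

lemma int_shift {f : ℝ → ℝ} (hf : Function.Periodic f (2 * π)) :
    ∫ θ in (0 : ℝ)..(2 * π), f (θ + π) = ∫ θ in (0 : ℝ)..(2 * π), f θ := by
  rw [intervalIntegral.integral_comp_add_right f π]
  have := hf.intervalIntegral_add_eq π 0
  rw [zero_add] at this
  rw [← this]
  congr 1 <;> ring

lemma int_hs_le [Nonempty ι] (hT : TV σ) : ∫ θ in (0 : ℝ)..(2 * π), hs v θ ≤ Lg v σ := by
  have h1 : ∫ θ in (0 : ℝ)..(2 * π), (hs v θ + hs v (θ + π)) ≤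
      ∫ θ in (0 : ℝ)..(2 * π), wt v σ θ := by
    apply intervalIntegral.integral_mono_on (by positivity)
    · apply Continuous.intervalIntegrable
      have := continuous_hs v
      fun_prop
    · exact (continuous_wt v σ).intervalIntegrable _ _
    · intro θ _
      exact le_wt hT θ
  have hc := continuous_hs v
  have hc2 : Continuous fun θ => hs v (θ + π) := by fun_prop
  rw [intervalIntegral.integral_add (hc.intervalIntegrable _ _)
    (hc2.intervalIntegrable _ _)] at h1
  have h2 := int_shift (per_hs v)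
  rw [int_wt] at h1
  linarith

lemma int_hs_ge [Nonempty ι] (h : EC v σ) : Lg v σ ≤ ∫ θ in (0 : ℝ)..(2 * π), hs v θ := by
  have h1 : ∫ θ in (0 : ℝ)..(2 * π), wt v σ θ ≤
      ∫ θ in (0 : ℝ)..(2 * π), (hs v θ + hs v (θ + π)) := by
    apply intervalIntegral.integral_mono_on (by positivity)
    · exact (continuous_wt v σ).intervalIntegrable _ _
    · apply Continuous.intervalIntegrable
      have := continuous_hs v
      fun_prop
    · intro θ _
      exact wt_le h θ
  have hc := continuous_hs v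
  have hc2 : Continuous fun θ => hs v (θ + π) := by fun_prop
  rw [intervalIntegral.integral_add (hc.intervalIntegrable _ _)
    (hc2.intervalIntegrable _ _)] at h1
  have h2 := int_shift (per_hs v)
  rw [int_wt] at h1
  linarith

end

end Pool.Agent.K7.H36.RP
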