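import Pool.Agent.K7.H36.RP.Delta

/-!
# A Reinhardt polygon with nine vertices
-/

set_option autoImplicit false

open Real Set Filter Topology MeasureTheory

namespace Pool.Agent.K7.H36.RP

/-- `cos 20°` -/
noncomputable def cA : ℝ := Real.cos (π / 9)
/-- `sin 20°` -/
noncomputable def sA : ℝ := Real.sin (π / 9)
/-- `sin 60°` -/
noncomputable def sB : ℝ := Real.sin (π / 3)

lemma cA_eq : 8 * cA ^ 3 - 6 * cA - 1 = 0 := by
  have h := Real.cos_three_mul (π / 9)
  rw [show 3 * (π / 9) = π / 3 by ring, Real.cos_pi_div_three] at h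
  unfold cA
  linarith

lemma sB_eq : sB = 3 * sA - 4 * sA ^ 3 := by
  have h := Real.sin_three_mul (π / 9)
  rw [show 3 * (π / 9) = π / 3 by ring] at h
  exact h

lemma sq_eq : sA ^ 2 + cA ^ 2 = 1 := Real.sin_sq_add_cos_sq _

lemma sB_sq : sB ^ 2 = 3 / 4 := by
  unfold sB
  rw [Real.sin_pi_div_three, div_pow, Real.sq_sqrt (by norm_num)]; norm_num

lemma sB_pos : 0 < sB := Real.sin_pos_of_pos_of_lt_pi (by positivity) (by linarith [Real.pi_pos])
lemma sA_pos : 0 < sA := Real.sin_pos_of_pos_of_lt_pi (by positivity) (by linarith [Real.pi_pos])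

lemma cA_lo' : (938 : ℝ) / 1000 < cA := by
  have h := Real.one_sub_sq_div_two_le_cos (x := π / 9)
  have h1 := Real.pi_lt_d6
  have h2 := Real.pi_pos
  unfold cA
  nlinarith

lemma cA_lo : (9396925 : ℝ) / 10000000 < cA := by
  have h1 := cA_lo'
  have h2 := cA_eq
  by_contra h
  push Not at h
  nlinarith [mul_nonneg (sub_nonneg.2 h) (sub_nonneg.2 h1.le), sq_nonneg (cA - 938 / 1000)]

lemma cA_hi : cA < (939693 : ℝ) / 1000000 := by
  have h2 := cA_eq
  by_contra h
  push Not at h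
  nlinarith [mul_nonneg (sub_nonneg.2 h) (sub_nonneg.2 h), sq_nonneg (cA - 939693 / 1000000)]

lemma sA_lo : (34200 : ℝ) / 100000 < sA := by
  have h1 := cA_hi
  have h2 := cA_lo
  have h3 := sq_eq
  have h4 := sA_pos
  nlinarith

lemma sA_hi : sA < (34203 : ℝ) / 100000 := by
  have h1 := cA_hi
  have h2 := cA_lo
  have h3 := sq_eq
  have h4 := sA_pos
  nlinarith

lemma sB_lo : (8660 : ℝ) / 10000 < sB := by
  have h1 := sB_sq
  have h2 := sB_pos
  nlinarith

lemma sB_hi : sB < (86603 : ℝ) / 100000 := by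
  have h1 := sB_sq
  have h2 := sB_pos
  nlinarith

/-- `cos 40°` -/
noncomputable def cC : ℝ := 2 * cA ^ 2 - 1
/-- `sin 40°` -/
noncomputable def sC : ℝ := 2 * sA * cA
/-- `cos 80°` -/
noncomputable def cD : ℝ := 2 * cC ^ 2 - 1
/-- `sin 80°` -/
noncomputable def sD : ℝ := 2 * sC * cC

lemma cC_bd : (76603 : ℝ) / 100000 < cC ∧ cC < (76605 : ℝ) / 100000 := by
  have h1 := cA_hi
  have h2 := cA_lo
  unfold cC
  constructor <;> nlinarith

lemma sC_bd : (64272 : ℝ) / 100000 < sC ∧ sC < (64285 : ℝ) / 100000 := by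
  have h1 := cA_hi
  have h2 := cA_lo
  have h3 := sA_hi
  have h4 := sA_lo
  unfold sC
  constructor <;> nlinarith

lemma cD_bd : (17360 : ℝ) / 100000 < cD ∧ cD < (17375 : ℝ) / 100000 := by
  obtain ⟨h1, h2⟩ := cC_bd
  unfold cD
  constructor <;> nlinarith

lemma sD_bd : (98465 : ℝ) / 100000 < sD ∧ sD < (98492 : ℝ) / 100000 := by
  obtain ⟨h1, h2⟩ := cC_bd
  obtain ⟨h3, h4⟩ := sC_bd
  unfold sD
  constructor <;> nlinarith

lemma sqC : sC ^ 2 + cC ^ 2 = 1 := by
  have h := sq_eq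
  unfold sC cC
  have : sA ^ 2 = 1 - cA ^ 2 := by linarith
  have e : (2 * sA * cA) ^ 2 = 4 * sA ^ 2 * cA ^ 2 := by ring
  rw [e, this]; ring

lemma sqD : sD ^ 2 + cD ^ 2 = 1 := by
  have h := sqC
  unfold sD cD
  have : sC ^ 2 = 1 - cC ^ 2 := by linarith
  have e : (2 * sC * cC) ^ 2 = 4 * sC ^ 2 * cC ^ 2 := by ring
  rw [e, this]; ring

/-- The polygon: vertices of the Reuleaux triangle of width one and the points dividing the
arcs into three equal parts. -/
noncomputable def RR : Fin 9 → ℂ :=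
  ![1, ⟨cA, sA⟩, ⟨cC, sC⟩, ⟨1 / 2, sB⟩, ⟨1 - cC, sC⟩, ⟨1 - cA, sA⟩, 0, ⟨1 / 2 - cD, sB - sD⟩,
    ⟨1 / 2 + cD, sB - sD⟩]

/-- approximate coordinates -/
def XI : Fin 9 → ℤ := ![10000, 9397, 7660, 5000, 2340, 603, 0, 3264, 6736]
/-- approximate coordinates -/
def YI : Fin 9 → ℤ := ![0, 3420, 6428, 8660, 6428, 3420, 0, -1188, -1188]

lemma detI : ∀ i j k : Fin 9, i < j → j < k →
    4000000 ≤ (XI j - XI i) * (YI k - YI i) - (YI j - YI i) * (XI k - XI i) := by
  decide +kernel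

lemma bdI : ∀ i j : Fin 9, |XI j - XI i| ≤ 20000 ∧ |YI j - YI i| ≤ 20000 := by
  decide +kernel

lemma approx_re (i : Fin 9) : |(RR i).re - (XI i : ℝ) / 10000| ≤ 2 / 10000 := by
  have a1 := cA_lo
  have a2 := cA_hi
  have a3 := cC_bd
  have a4 := cD_bd
  rw [abs_le]
  fin_cases i <;> simp [RR, XI] <;> (try constructor) <;> linarith

lemma approx_im (i : Fin 9) : |(RR i).im - (YI i : ℝ) / 10000| ≤ 2 / 10000 := by
  have a1 := sA_lo
  have a2 := sA_hi
  have a3 := sC_bd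
  have a4 := sD_bd
  have a5 := sB_lo
  have a6 := sB_hi
  rw [abs_le]
  fin_cases i <;> simp [RR, YI] <;> (try constructor) <;> linarith

lemma prod_approx {a d A D : ℝ} (h1 : |a - A| ≤ 4 / 10000) (h2 : |d - D| ≤ 4 / 10000)
    (h3 : |A| ≤ 2) (h4 : |D| ≤ 2) : |a * d - A * D| ≤ 2 / 1000 := by
  have e : a * d - A * D = (a - A) * (d - D) + (a - A) * D + A * (d - D) := by ring
  rw [e]
  have g1 : |(a - A) * (d - D)| ≤ 4 / 10000 * (4 / 10000) := by
    rw [abs_mul]; exact mul_le_mul h1 h2 (abs_nonneg _) (by norm_num)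
  have g2 : |(a - A) * D| ≤ 4 / 10000 * 2 := by
    rw [abs_mul]; exact mul_le_mul h1 h4 (abs_nonneg _) (by norm_num)
  have g3 : |A * (d - D)| ≤ 2 * (4 / 10000) := by
    rw [abs_mul]; exact mul_le_mul h3 h2 (abs_nonneg _) (by norm_num)
  have t1 := abs_add_le ((a - A) * (d - D) + (a - A) * D) (A * (d - D))
  have t2 := abs_add_le ((a - A) * (d - D)) ((a - A) * D)
  linarith

/-- strict convexity -/
lemma RR_convex : ∀ i j k : Fin 9, i < j → j < k → 0 < cr (RR j - RR i) (RR k - RR i) := by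
  intro i j k hij hjk
  have hd := detI i j k hij hjk
  have key : ∀ a b : Fin 9, |((RR b).re - (RR a).re) - ((XI b : ℝ) - XI a) / 10000| ≤ 4 / 10000 := by
    intro a b
    have h1 := approx_re a
    have h2 := approx_re b
    rw [abs_le] at *
    constructor <;> linarith [h1.1, h1.2, h2.1, h2.2]
  have key2 : ∀ a b : Fin 9, |((RR b).im - (RR a).im) - ((YI b : ℝ) - YI a) / 10000| ≤ 4 / 10000 := by
    intro a b
    have h1 := approx_im a
    have h2 := approx_im b
    rw [abs_le] at *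
    constructor <;> linarith [h1.1, h1.2, h2.1, h2.2]
  have bx : ∀ a b : Fin 9, |((XI b : ℝ) - XI a) / 10000| ≤ 2 := by
    intro a b
    have h := (bdI a b).1
    rw [abs_le] at h ⊢
    have h1 : (-20000 : ℝ) ≤ (XI b : ℝ) - XI a := by exact_mod_cast h.1
    have h2 : (XI b : ℝ) - XI a ≤ 20000 := by exact_mod_cast h.2
    constructor <;> linarith
  have bY : ∀ a b : Fin 9, |((YI b : ℝ) - YI a) / 10000| ≤ 2 := by
    intro a b
    have h := (bdI a b).2
    rw [abs_le] at h ⊢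
    have h1 : (-20000 : ℝ) ≤ (YI b : ℝ) - YI a := by exact_mod_cast h.1
    have h2 : (YI b : ℝ) - YI a ≤ 20000 := by exact_mod_cast h.2
    constructor <;> linarith
  have p1 := prod_approx (key i j) (key2 i k) (bx i j) (bY i k)
  have p2 := prod_approx (key2 i j) (key i k) (bY i j) (bx i k)
  have hd' : (4000000 : ℝ) ≤ ((XI j : ℝ) - XI i) * ((YI k : ℝ) - YI i) -
      ((YI j : ℝ) - YI i) * ((XI k : ℝ) - XI i) := by exact_mod_cast hd
  simp only [cr, Complex.sub_re, Complex.sub_im]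
  rw [abs_le] at p1 p2
  have q1 := p1.1
  have q2 := p2.2
  have q3 : ((XI j : ℝ) - XI i) / 10000 * (((YI k : ℝ) - YI i) / 10000) -
      ((YI j : ℝ) - YI i) / 10000 * (((XI k : ℝ) - XI i) / 10000) =
      (((XI j : ℝ) - XI i) * ((YI k : ℝ) - YI i) -
      ((YI j : ℝ) - YI i) * ((XI k : ℝ) - XI i)) / 100000000 := by ring
  have q4 : (4000000 : ℝ) / 100000000 ≤ (((XI j : ℝ) - XI i) * ((YI k : ℝ) - YI i) -
      ((YI j : ℝ) - YI i) * ((XI k : ℝ) - XI i)) / 100000000 := by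
    gcongr
  linarith

/-- the centres of the arcs -/
def ctr : Fin 9 → Fin 9 := ![6, 6, 6, 0, 0, 0, 3, 3, 3]

lemma cos_small : cC * cA + sC * sA = cA := by
  have h := sq_eq
  unfold cC sC
  have : (2 * cA ^ 2 - 1) * cA + 2 * sA * cA * sA = 2 * cA ^ 3 - cA + 2 * sA ^ 2 * cA := by ring
  rw [this, show sA ^ 2 = 1 - cA ^ 2 by linarith]; ring

lemma cos_sixty : cC / 2 + sC * sB = cA := by
  have h := sq_eq
  have h2 := cA_eq
  rw [sB_eq]
  unfold cC sC
  have : (2 * cA ^ 2 - 1) / 2 + 2 * sA * cA * (3 * sA - 4 * sA ^ 3) =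
      (2 * cA ^ 2 - 1) / 2 + 2 * cA * (3 * sA ^ 2 - 4 * (sA ^ 2) ^ 2) := by ring
  rw [this, show sA ^ 2 = 1 - cA ^ 2 by linarith]
  linear_combination (1 / 2 - cA ^ 2) * h2

lemma cos_eighty : cD / 2 + sB * sD = cA := by
  have h := sq_eq
  have h2 := cA_eq
  rw [sB_eq]
  unfold cD sD sC
  have hc : cC = 2 * cA ^ 2 - 1 := rfl
  have : (2 * cC ^ 2 - 1) / 2 + (3 * sA - 4 * sA ^ 3) * (2 * (2 * sA * cA) * cC) =
      (2 * cC ^ 2 - 1) / 2 + 4 * cA * cC * (3 * sA ^ 2 - 4 * (sA ^ 2) ^ 2) := by ring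
  rw [this, show sA ^ 2 = 1 - cA ^ 2 by linarith, hc]
  linear_combination (-1 / 2 + 4 * cA ^ 2 - 4 * cA ^ 4) * h2

lemma cD_sq : 4 * cD ^ 2 = 2 - 2 * cA := by
  have h2 := cA_eq
  unfold cD cC
  linear_combination (-2 + 10 * cA + 4 * cA ^ 2 - 40 * cA ^ 3 + 32 * cA ^ 5) * h2

/-- the successor -/
def nx : Fin 9 → Fin 9 := ![1, 2, 3, 4, 5, 6, 7, 8, 0]

lemma nx_eq (i : Fin 9) : finRotate 9 i = nx i := by
  revert i; decide

lemma rot_ne (i : Fin 9) : finRotate 9 i ≠ i := by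
  revert i; decide

lemma rot_ne2 (i : Fin 9) : finRotate 9 (finRotate 9 i) ≠ i := by
  revert i; decide

lemma R0 : RR 0 = ⟨1, 0⟩ := rfl
lemma R1 : RR 1 = ⟨cA, sA⟩ := rfl
lemma R2 : RR 2 = ⟨cC, sC⟩ := rfl
lemma R3 : RR 3 = ⟨1 / 2, sB⟩ := rfl
lemma R4 : RR 4 = ⟨1 - cC, sC⟩ := rfl
lemma R5 : RR 5 = ⟨1 - cA, sA⟩ := rfl
lemma R6 : RR 6 = ⟨0, 0⟩ := rfl
lemma R7 : RR 7 = ⟨1 / 2 - cD, sB - sD⟩ := rfl
lemma R8 : RR 8 = ⟨1 / 2 + cD, sB - sD⟩ := rfl

lemma RR_edge (i : Fin 9) : dt (RR (nx i) - RR i) (RR (nx i) - RR i) = 2 - 2 * cA := by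
  have a1 := sq_eq
  have a2 := sqC
  have a3 := sB_sq
  have a4 := sqD
  have b1 := cos_small
  have b2 := cos_sixty
  have b3 := cos_eighty
  have b4 := cD_sq
  fin_cases i
  · show dt (RR 1 - RR 0) (RR 1 - RR 0) = _
    simp only [R0, R1, dt, Complex.sub_re, Complex.sub_im]; linear_combination a1
  · show dt (RR 2 - RR 1) (RR 2 - RR 1) = _
    simp only [R2, R1, dt, Complex.sub_re, Complex.sub_im]; linear_combination a1 + a2 - 2 * b1
  · show dt (RR 3 - RR 2) (RR 3 - RR 2) = _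
    simp only [R2, R3, dt, Complex.sub_re, Complex.sub_im]; linear_combination a2 + a3 - 2 * b2
  · show dt (RR 4 - RR 3) (RR 4 - RR 3) = _
    simp only [R3, R4, dt, Complex.sub_re, Complex.sub_im]; linear_combination a2 + a3 - 2 * b2
  · show dt (RR 5 - RR 4) (RR 5 - RR 4) = _
    simp only [R5, R4, dt, Complex.sub_re, Complex.sub_im]; linear_combination a1 + a2 - 2 * b1
  · show dt (RR 6 - RR 5) (RR 6 - RR 5) = _
    simp only [R5, R6, dt, Complex.sub_re, Complex.sub_im]; linear_combination a1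
  · show dt (RR 7 - RR 6) (RR 7 - RR 6) = _
    simp only [R6, R7, dt, Complex.sub_re, Complex.sub_im]; linear_combination a3 + a4 - 2 * b3
  · show dt (RR 8 - RR 7) (RR 8 - RR 7) = _
    simp only [R7, R8, dt, Complex.sub_re, Complex.sub_im]; linear_combination b4
  · show dt (RR 0 - RR 8) (RR 0 - RR 8) = _
    simp only [R0, R8, dt, Complex.sub_re, Complex.sub_im]; linear_combination a3 + a4 - 2 * b3

lemma RR_unit (i : Fin 9) : dt (RR i - RR (ctr i)) (RR i - RR (ctr i)) = 1 ∧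
    dt (RR (nx i) - RR (ctr i)) (RR (nx i) - RR (ctr i)) = 1 := by
  have a1 := sq_eq
  have a2 := sqC
  have a3 := sB_sq
  have a4 := sqD
  fin_cases i
  · show dt (RR 0 - RR 6) (RR 0 - RR 6) = 1 ∧ dt (RR 1 - RR 6) (RR 1 - RR 6) = 1
    simp only [R0, R1, R6, dt, Complex.sub_re, Complex.sub_im]
    constructor
    · ring
    · linear_combination a1
  · show dt (RR 1 - RR 6) (RR 1 - RR 6) = 1 ∧ dt (RR 2 - RR 6) (RR 2 - RR 6) = 1
    simp only [R1, R2, R6, dt, Complex.sub_re, Complex.sub_im]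
    constructor
    · linear_combination a1
    · linear_combination a2
  · show dt (RR 2 - RR 6) (RR 2 - RR 6) = 1 ∧ dt (RR 3 - RR 6) (RR 3 - RR 6) = 1
    simp only [R2, R3, R6, dt, Complex.sub_re, Complex.sub_im]
    constructor
    · linear_combination a2
    · linear_combination a3
  · show dt (RR 3 - RR 0) (RR 3 - RR 0) = 1 ∧ dt (RR 4 - RR 0) (RR 4 - RR 0) = 1
    simp only [R3, R4, R0, dt, Complex.sub_re, Complex.sub_im]
    constructor
    · linear_combination a3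
    · linear_combination a2
  · show dt (RR 4 - RR 0) (RR 4 - RR 0) = 1 ∧ dt (RR 5 - RR 0) (RR 5 - RR 0) = 1
    simp only [R5, R4, R0, dt, Complex.sub_re, Complex.sub_im]
    constructor
    · linear_combination a2
    · linear_combination a1
  · show dt (RR 5 - RR 0) (RR 5 - RR 0) = 1 ∧ dt (RR 6 - RR 0) (RR 6 - RR 0) = 1
    simp only [R5, R6, R0, dt, Complex.sub_re, Complex.sub_im]
    constructor
    · linear_combination a1
    · ring
  · show dt (RR 6 - RR 3) (RR 6 - RR 3) = 1 ∧ dt (RR 7 - RR 3) (RR 7 - RR 3) = 1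
    simp only [R3, R6, R7, dt, Complex.sub_re, Complex.sub_im]
    constructor
    · linear_combination a3
    · linear_combination a4
  · show dt (RR 7 - RR 3) (RR 7 - RR 3) = 1 ∧ dt (RR 8 - RR 3) (RR 8 - RR 3) = 1
    simp only [R3, R8, R7, dt, Complex.sub_re, Complex.sub_im]
    constructor
    · linear_combination a4
    · linear_combination a4
  · show dt (RR 8 - RR 3) (RR 8 - RR 3) = 1 ∧ dt (RR 0 - RR 3) (RR 0 - RR 3) = 1
    simp only [R3, R8, R0, dt, Complex.sub_re, Complex.sub_im]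
    constructor
    · linear_combination a4
    · linear_combination a3

/-- `cos 10°` -/
noncomputable def dA : ℝ := Real.cos (π / 18)
/-- `sin 10°` -/
noncomputable def eA : ℝ := Real.sin (π / 18)

lemma dA_pos : 0 < dA := Real.cos_pos_of_mem_Ioo ⟨by linarith [Real.pi_pos], by linarith [Real.pi_pos]⟩
lemma eA_pos : 0 < eA := Real.sin_pos_of_pos_of_lt_pi (by positivity) (by linarith [Real.pi_pos])

lemma dA_sq : dA ^ 2 = (1 + cA) / 2 := by
  have h := Real.cos_sq (π / 18)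
  rw [show 2 * (π / 18) = π / 9 by ring] at h
  unfold dA cA
  rw [h]; ring

lemma eA_sq : eA ^ 2 = (1 - cA) / 2 := by
  have h := Real.sin_sq_add_cos_sq (π / 18)
  have h2 := dA_sq
  unfold dA at h2
  unfold eA
  linarith

lemma RR_len (i : Fin 9) : ‖RR (nx i) - RR i‖ = 2 * eA := by
  have h := RR_edge i
  rw [dt_self] at h
  have h2 := eA_sq
  have h3 := eA_pos
  have h4 : ‖RR (nx i) - RR i‖ ^ 2 = (2 * eA) ^ 2 := by rw [h, mul_pow, h2]; ring
  exact (pow_left_inj₀ (norm_nonneg _) (by positivity) two_ne_zero).1 h4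

lemma RR_Lg : Lg RR (finRotate 9) = 18 * eA := by
  unfold Lg
  simp only [nx_eq, RR_len]
  rw [Finset.sum_const, Finset.card_univ, Fintype.card_fin]
  simp; ring

lemma RR_far : Far RR (finRotate 9) dA := by
  intro i x hx
  rw [nx_eq] at hx
  refine ⟨ctr i, ?_⟩
  obtain ⟨a, b, ha, hb, hab, rfl⟩ := hx
  obtain ⟨h1, h2⟩ := RR_unit i
  have h3 := RR_edge i
  set p := RR i - RR (ctr i) with hp
  set q := RR (nx i) - RR (ctr i) with hq
  have e1 : RR (nx i) - RR i = q - p := by rw [hp, hq]; ring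
  have e2 : a • RR i + b • RR (nx i) - RR (ctr i) = a • p + b • q := by
    have : a = 1 - b := by linarith
    rw [hp, hq, this]; simp only [Complex.real_smul]; push_cast; ring
  rw [e1] at h3
  have e3 : dt (q - p) (q - p) = dt q q + dt p p - 2 * dt p q := by
    simp only [dt, Complex.sub_re, Complex.sub_im]; ring
  have e4 : dt (a • p + b • q) (a • p + b • q) = a ^ 2 * dt p p + b ^ 2 * dt q q +
      2 * (a * b) * dt p q := by
    simp only [dt, Complex.add_re, Complex.add_im, Complex.real_smul, Complex.mul_re,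
      Complex.mul_im, Complex.ofReal_re, Complex.ofReal_im]; ring
  have e5 : dt p q = cA := by rw [h1, h2] at e3; linarith
  rw [h1, h2, e5] at e4
  rw [e2]
  apply le_of_abs_le
  apply abs_le_of_sq_le_sq _ (norm_nonneg _)
  rw [← dt_self, e4, dA_sq]
  have h5 : a * b ≤ 1 / 4 := by nlinarith [sq_nonneg (a - b)]
  have h6 : a ^ 2 + b ^ 2 = 1 - 2 * (a * b) := by nlinarith
  have h7 := cA_hi
  nlinarith

/-- strict orientation of triples gives the edge condition -/
lemma EC_of_triples {w : Fin 9 → ℂ}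
    (h : ∀ i j k : Fin 9, i < j → j < k → 0 < cr (w j - w i) (w k - w i)) :
    EC w (finRotate 9) := by
  have rot1 : ∀ a b c : ℂ, cr (b - a) (c - a) = cr (c - b) (a - b) := by
    intro a b c; simp only [cr, Complex.sub_re, Complex.sub_im]; ring
  have hval : ∀ j : Fin 9, (finRotate 9 j).val = if j.val = 8 then 0 else j.val + 1 := by decide
  intro j l hlj hlk
  have hj := hval j
  set k := finRotate 9 j with hk
  have hlj' : l.val ≠ j.val := fun e => hlj (Fin.ext e)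
  have hlk' : l.val ≠ k.val := fun e => hlk (Fin.ext e)
  have hl9 := l.isLt
  split_ifs at hj with h8
  · -- `j = 8`, `k = 0`
    have h1 := h k l j (Fin.lt_def.2 (by omega)) (Fin.lt_def.2 (by omega))
    rw [rot1, rot1] at h1
    exact h1
  · rcases Nat.lt_or_ge l.val j.val with h3 | h3
    · have h1 := h l j k (Fin.lt_def.2 h3) (Fin.lt_def.2 (by omega))
      rw [rot1] at h1
      exact h1
    · exact h j k l (Fin.lt_def.2 (by omega)) (Fin.lt_def.2 (by omega))

lemma rot_cycle (i l : Fin 9) : (finRotate 9).SameCycle i l :=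
  isCycle_finRotate.sameCycle (rot_ne i) (rot_ne l)

end Pool.Agent.K7.H36.RP
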