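import Pool.Agent.K7.H36.RP.Disc

/-!
# The rotating unit segment
-/

set_option autoImplicit false

open Real Set Filter Topology MeasureTheory

namespace Pool.Agent.K7.H36.RP

variable {ι : Type} [Fintype ι]

/-- `y θ` minimises the linear function of direction `ev θ` over `Ks v` -/
def IsMn (v : ι → ℂ) (y : ℝ → ℂ) : Prop := ∀ θ, y θ ∈ Ks v ∧ ∀ z ∈ Ks v, 0 ≤ dt (z - y θ) (ev θ)

omit [Fintype ι] in
lemma exists_mn [Nonempty ι] {v : ι → ℂ} {o : ℂ} (ho : o ∈ Ks v) : ∃ y, IsMn v y := by
  have : ∀ θ : ℝ, ∃ c, c ∈ Ks v ∧ ∀ z ∈ Ks v, 0 ≤ dt (z - c) (ev θ) := by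
    intro θ
    have hc : Continuous fun z : ℂ => dt z (ev θ) := by
      unfold dt; fun_prop
    obtain ⟨c, hcK, hcm⟩ := (isCompact_Ks v).exists_isMinOn ⟨o, ho⟩ hc.continuousOn
    refine ⟨c, hcK, fun z hz => ?_⟩
    have := isMinOn_iff.1 hcm z hz
    rw [dt_sub_left]; linarith
  choose y hy using this
  exact ⟨y, hy⟩

section

variable {v : ι → ℂ} {o : ℂ} {y : ℝ → ℂ}

lemma strongy (ho : ∀ j, dt (o - v j) (o - v j) < 1) (hy : IsMn v y) (θ : ℝ) {z : ℂ}
    (hz : z ∈ Ks v) : dt (z - y θ) (z - y θ) / 2 ≤ dt (z - y θ) (ev θ) :=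
  strong ho (hy θ).1 (hy θ).2 (dt_ev θ) hz

lemma uniqy (ho : ∀ j, dt (o - v j) (o - v j) < 1) (hy : IsMn v y) {θ : ℝ} {c : ℂ}
    (hc : c ∈ Ks v) (hm : ∀ z ∈ Ks v, 0 ≤ dt (z - c) (ev θ)) : y θ = c := by
  have h1 := strongy ho hy θ hc
  have h2 := hm _ (hy θ).1
  have h3 : dt (c - y θ) (ev θ) = - dt (y θ - c) (ev θ) := by
    rw [← dt_neg_left, neg_sub]
  have h4 := dt_self_nonneg (c - y θ)
  have h5 : dt (c - y θ) (c - y θ) = 0 := by linarith
  exact (sub_eq_zero.1 (dt_self_eq_zero.1 h5)).symm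

lemma lipy (ho : ∀ j, dt (o - v j) (o - v j) < 1) (hy : IsMn v y) (s t : ℝ) :
    ‖y s - y t‖ ≤ ‖ev s - ev t‖ := by
  have h1 := strongy ho hy t (hy s).1
  have h2 := strongy ho hy s (hy t).1
  have h3 : dt (y t - y s) (ev s) = - dt (y s - y t) (ev s) := by
    rw [← dt_neg_left, neg_sub]
  have h4 : dt (y t - y s) (y t - y s) = dt (y s - y t) (y s - y t) := by
    simp only [dt, Complex.sub_re, Complex.sub_im]; ring
  rw [h3, h4] at h2
  have h5 : dt (y s - y t) (y s - y t) ≤ dt (y s - y t) (ev t - ev s) := by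
    rw [dt_sub_right (ev t) (ev s)]; linarith
  have h6 := dt_le (y s - y t) (ev t - ev s)
  rw [dt_self] at h5
  rw [norm_sub_rev (ev t) (ev s)] at h6
  by_contra hcon
  push Not at hcon
  have h7 : 0 < ‖y s - y t‖ := lt_of_le_of_lt (norm_nonneg _) hcon
  nlinarith

lemma conty (ho : ∀ j, dt (o - v j) (o - v j) < 1) (hy : IsMn v y) : Continuous y := by
  rw [continuous_iff_continuousAt]
  intro t
  have h1 : Tendsto (fun s => ‖ev s - ev t‖) (𝓝 t) (𝓝 0) := by
    have : Continuous fun s => ‖ev s - ev t‖ := by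
      have := continuous_ev
      fun_prop
    have h := this.tendsto t
    simpa using h
  have h2 : Tendsto (fun s => ‖y s - y t‖) (𝓝 t) (𝓝 0) :=
    squeeze_zero (fun s => norm_nonneg _) (fun s => lipy ho hy s t) h1
  exact tendsto_iff_norm_sub_tendsto_zero.2 h2

lemma pery (ho : ∀ j, dt (o - v j) (o - v j) < 1) (hy : IsMn v y) (t : ℝ) :
    y (t + 2 * π) = y t := by
  apply uniqy ho hy (hy t).1
  rw [ev_add_two_pi]
  exact (hy t).2

/-- the directions in which the pivot is one of the points `v j` -/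
def Ns (v : ι → ℂ) : Set ℝ := {θ | ∃ j, v j - ev θ ∈ Ks v}

lemma yN (ho : ∀ j, dt (o - v j) (o - v j) < 1) (hy : IsMn v y) {θ : ℝ} {j : ι}
    (hj : v j - ev θ ∈ Ks v) : y θ = v j - ev θ := by
  apply uniqy ho hy hj
  intro z hz
  have h1 := half_le (c := v j - ev θ) (j := j) hz (by rw [sub_sub_cancel]; exact dt_ev θ)
  rw [sub_sub_cancel] at h1
  have := dt_self_nonneg (z - (v j - ev θ))
  linarith

lemma isClosed_Ns (v : ι → ℂ) : IsClosed (Ns v) := by
  have : Ns v = ⋃ j, (fun θ => v j - ev θ) ⁻¹' Ks v := by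
    ext θ; simp [Ns]
  rw [this]
  refine isClosed_iUnion_of_finite fun j => ?_
  exact (isClosed_Ks v).preimage (by have := continuous_ev; fun_prop)

omit [Fintype ι] in
lemma Ns_per (θ : ℝ) : θ + 2 * π ∈ Ns v ↔ θ ∈ Ns v := by
  unfold Ns
  simp only [mem_ofPred_eq, ev_add_two_pi]

/-- away from `Ns`, the minimiser is given by an open cone -/
lemma kktU (ho : ∀ j, dt (o - v j) (o - v j) < 1) (hy : IsMn v y) {θ : ℝ} (hθ : θ ∉ Ns v) :
    ∃ (j k : ι), dt (v j - y θ) (v j - y θ) = 1 ∧ dt (v k - y θ) (v k - y θ) = 1 ∧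
      0 < cr (v j - y θ) (ev θ) ∧ 0 < cr (ev θ) (v k - y θ) ∧ 0 < cr (v j - y θ) (v k - y θ) := by
  obtain ⟨j, k, a, b, hj, hk, ha, hb, hab⟩ := kkt ho (hy θ).1 (hy θ).2 (dt_ev θ)
  have hne : ∀ i, ev θ ≠ v i - y θ := by
    intro i hi
    apply hθ
    refine ⟨i, ?_⟩
    rw [hi, sub_sub_cancel]
    exact (hy θ).1
  have hone := dt_ev θ
  -- both coefficients are positive
  have hfac : ∀ (r : ℝ) (i : ι), 0 ≤ r → dt (v i - y θ) (v i - y θ) = 1 → ev θ ≠ r • (v i - y θ) := by
    intro r i hr hi h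
    have h1 : r ^ 2 = 1 := by
      have h2 : dt (ev θ) (ev θ) = r * (r * dt (v i - y θ) (v i - y θ)) := by
        rw [h, dt_smul_left, dt_smul_right]
      rw [hone, hi] at h2
      nlinarith
    have h3 : r = 1 := by nlinarith [sq_nonneg (r - 1)]
    rw [h3, one_smul] at h
    exact hne i h
  have ha0 : 0 < a := by
    rcases ha.lt_or_eq with h | h
    · exact h
    · exfalso
      rw [← h, zero_smul, zero_add] at hab
      exact hfac b k hb hk hab
  have hb0 : 0 < b := by
    rcases hb.lt_or_eq with h | h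
    · exact h
    · exfalso
      rw [← h, zero_smul, add_zero] at hab
      exact hfac a j ha hj hab
  have hD : cr (v j - y θ) (v k - y θ) ≠ 0 := by
    intro h
    have h1 := lagr (v j - y θ) (v k - y θ)
    rw [h, hj, hk] at h1
    have hoK : o ∈ Ks v := fun j => (ho j).le
    have hpos : ∀ j, dt (v j - y θ) (v j - y θ) = 1 → 0 < dt (o - y θ) (v j - y θ) := by
      intro j hj
      have h := ho j
      have h0 := dt_self_nonneg (o - y θ)
      simp only [dt, Complex.sub_re, Complex.sub_im] at *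
      nlinarith
    have h2 : (dt (v j - y θ) (v k - y θ) - 1) * (dt (v j - y θ) (v k - y θ) + 1) = 0 := by
      nlinarith
    rcases mul_eq_zero.1 h2 with h3 | h3
    · have : dt (v j - v k) (v j - v k) = 0 := by
        have h4 : v j - v k = (v j - y θ) - (v k - y θ) := by ring
        rw [h4, dt_sub_left, dt_sub_right _ _ (v j - y θ), dt_sub_right _ _ (v k - y θ), hj, hk,
          dt_comm (v k - y θ)]
        linarith
      have h5 : v j = v k := sub_eq_zero.1 (dt_self_eq_zero.1 this)
      rw [← h5, ← add_smul] at hab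
      exact hfac (a + b) j (by linarith) hj hab
    · have : dt ((v j - y θ) + (v k - y θ)) ((v j - y θ) + (v k - y θ)) = 0 := by
        rw [dt_add_left, dt_add_right _ _ (v j - y θ), dt_add_right _ _ (v k - y θ), hj, hk,
          dt_comm (v k - y θ)]
        linarith
      have h5 : v j - y θ = -(v k - y θ) := eq_neg_of_add_eq_zero_left (dt_self_eq_zero.1 this)
      have h6 := hpos j hj
      have h7 := hpos k hk
      rw [h5, dt_neg_right] at h6
      linarith
  have e1 : cr (v j - y θ) (ev θ) = b * cr (v j - y θ) (v k - y θ) := by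
    conv_lhs => rw [hab]
    rw [cr_add_right, cr_smul_right, cr_smul_right, cr_self]; ring
  have e2 : cr (ev θ) (v k - y θ) = a * cr (v j - y θ) (v k - y θ) := by
    conv_lhs => rw [hab]
    rw [cr_add_left, cr_smul_left, cr_smul_left, cr_self]; ring
  rcases lt_or_gt_of_ne hD with hD | hD
  · refine ⟨k, j, hk, hj, ?_, ?_, ?_⟩
    · rw [cr_comm, e2]; nlinarith
    · rw [cr_comm, e1]; nlinarith
    · rw [cr_comm]; linarith
  · exact ⟨j, k, hj, hk, by rw [e1]; positivity, by rw [e2]; positivity, hD⟩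

omit [Fintype ι] in
/-- a point at distance one from two points is the minimiser for all directions between -/
lemma cone_min {c n : ℂ} {j k : ι} (hj : dt (v j - c) (v j - c) = 1)
    (hk : dt (v k - c) (v k - c) = 1) (hD : 0 < cr (v j - c) (v k - c))
    (h1 : 0 ≤ cr (v j - c) n) (h2 : 0 ≤ cr n (v k - c)) {z : ℂ} (hz : z ∈ Ks v) :
    0 ≤ dt (z - c) n := by
  have hexp := expand n (v j - c) (v k - c)
  have h3 : cr (v j - c) (v k - c) * dt (z - c) n =
      cr n (v k - c) * dt (z - c) (v j - c) + cr (v j - c) n * dt (z - c) (v k - c) := by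
    rw [← dt_smul_right, hexp, dt_add_right, dt_smul_right, dt_smul_right]
  have h4 := half_le hz hj
  have h5 := half_le hz hk
  have h6 := dt_self_nonneg (z - c)
  have h7 : 0 ≤ dt (z - c) (v j - c) := by linarith
  have h8 : 0 ≤ dt (z - c) (v k - c) := by linarith
  have h9 := mul_nonneg h2 h7
  have h10 := mul_nonneg h1 h8
  by_contra hcon
  push Not at hcon
  nlinarith [mul_pos hD (neg_pos.2 hcon)]

lemma constU (ho : ∀ j, dt (o - v j) (o - v j) < 1) (hy : IsMn v y) {θ : ℝ} (hθ : θ ∉ Ns v) :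
    ∀ᶠ s in 𝓝 θ, y s = y θ := by
  obtain ⟨j, k, hj, hk, h1, h2, hD⟩ := kktU ho hy hθ
  have c1 : ∀ᶠ s in 𝓝 θ, 0 < cr (v j - y θ) (ev s) := by
    have : Continuous fun s => cr (v j - y θ) (ev s) := by
      unfold cr; simp only [ev_re, ev_im]; fun_prop
    exact this.tendsto θ |>.eventually_const_lt h1
  have c2 : ∀ᶠ s in 𝓝 θ, 0 < cr (ev s) (v k - y θ) := by
    have : Continuous fun s => cr (ev s) (v k - y θ) := by
      unfold cr; simp only [ev_re, ev_im]; fun_prop
    exact this.tendsto θ |>.eventually_const_lt h2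
  filter_upwards [c1, c2] with s hs1 hs2
  exact uniqy ho hy (hy θ).1 fun z hz => cone_min hj hk hD hs1.le hs2.le hz

/-- exceptional directions -/
def Es (v : ι → ℂ) : Set ℝ :=
  {θ | ∃ j k, v j ≠ v k ∧ dt (v j - v k) (ev θ) = dt (v j - v k) (v j - v k) / 2}

lemma countable_level {w : ℂ} (hw : w ≠ 0) (c : ℝ) : {θ : ℝ | dt w (ev θ) = c}.Countable := by
  obtain ⟨r, φ, hr, hw2⟩ : ∃ r φ : ℝ, 0 < r ∧ w = r • ev φ := by
    have hn : 0 < ‖w‖ := norm_pos_iff.2 hw
    have h1 : dt ((1 / ‖w‖) • w) ((1 / ‖w‖) • w) = 1 := by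
      rw [dt_smul_left, dt_smul_right, dt_self]; field_simp
    obtain ⟨φ, hφ⟩ := exists_ev h1
    refine ⟨‖w‖, φ, hn, ?_⟩
    rw [hφ, smul_smul, mul_one_div_cancel hn.ne', one_smul]
  have h2 : ∀ θ, dt w (ev θ) = r * Real.cos (θ - φ) := by
    intro θ
    rw [hw2, dt_smul_left, Real.cos_sub]
    simp only [dt, ev_re, ev_im]; ring
  by_cases hne : ∃ θ0, dt w (ev θ0) = c
  · obtain ⟨θ0, h0⟩ := hne
    have hsub : {θ : ℝ | dt w (ev θ) = c} ⊆
        (⋃ k : ℤ, {φ + (θ0 - φ) - 2 * k * π}) ∪ ⋃ k : ℤ, {φ + 2 * k * π - (θ0 - φ)} := by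
      intro θ hθ
      have hθ' : dt w (ev θ) = c := hθ
      rw [← h0, h2, h2] at hθ'
      have h3 := mul_left_cancel₀ hr.ne' hθ'
      obtain ⟨k, hk | hk⟩ := Real.cos_eq_cos_iff.1 h3
      · left
        simp only [mem_iUnion, mem_singleton_iff]
        exact ⟨k, by linarith⟩
      · right
        simp only [mem_iUnion, mem_singleton_iff]
        exact ⟨k, by linarith⟩
    exact ((countable_iUnion fun k => countable_singleton _).union
      (countable_iUnion fun k => countable_singleton _)).mono hsub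
  · push Not at hne
    have : {θ : ℝ | dt w (ev θ) = c} = ∅ := by
      ext θ; simp [hne θ]
    rw [this]; exact countable_empty

lemma countable_Es (v : ι → ℂ) : (Es v).Countable := by
  have : Es v ⊆ ⋃ (j : ι) (k : ι), if v j = v k then ∅ else
      {θ | dt (v j - v k) (ev θ) = dt (v j - v k) (v j - v k) / 2} := by
    rintro θ ⟨j, k, hne, h⟩
    simp only [mem_iUnion]
    exact ⟨j, k, by rw [if_neg hne]; exact h⟩
  refine Countable.mono this ?_
  refine countable_iUnion fun j => countable_iUnion fun k => ?_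
  split_ifs with h
  · exact countable_empty
  · exact countable_level (sub_ne_zero.2 h) _

/-- indicator of the directions outside `Ns` -/
noncomputable def uU (v : ι → ℂ) (θ : ℝ) : ℝ := (Ns v)ᶜ.indicator (fun _ => 1) θ

omit [Fintype ι] in
lemma uU_of_mem {θ : ℝ} (h : θ ∈ Ns v) : uU v θ = 0 := by
  unfold uU; rw [indicator_of_notMem]; simpa using h

omit [Fintype ι] in
lemma uU_of_notMem {θ : ℝ} (h : θ ∉ Ns v) : uU v θ = 1 := by
  unfold uU; rw [indicator_of_mem]; simpa using h

omit [Fintype ι] in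
lemma uU_nonneg (θ : ℝ) : 0 ≤ uU v θ := by
  by_cases h : θ ∈ Ns v
  · rw [uU_of_mem h]
  · rw [uU_of_notMem h]; norm_num

omit [Fintype ι] in
lemma uU_le_one (θ : ℝ) : uU v θ ≤ 1 := by
  by_cases h : θ ∈ Ns v
  · rw [uU_of_mem h]; norm_num
  · rw [uU_of_notMem h]

lemma measurable_uU (v : ι → ℂ) : Measurable (uU v) :=
  measurable_const.indicator (isClosed_Ns v).measurableSet.compl

omit [Fintype ι] in
lemma uU_per (v : ι → ℂ) : Function.Periodic (uU v) (2 * π) := by
  intro θ
  by_cases h : θ ∈ Ns v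
  · rw [uU_of_mem h, uU_of_mem ((Ns_per θ).2 h)]
  · rw [uU_of_notMem h, uU_of_notMem (fun h' => h ((Ns_per θ).1 h'))]

lemma intU (v : ι → ℂ) {f : ℝ → ℝ} (hf : Continuous f) (a b : ℝ) :
    IntervalIntegrable (fun θ => uU v θ * f θ) volume a b := by
  have h1 : (fun θ => uU v θ * f θ) = (Ns v)ᶜ.indicator f := by
    funext θ
    unfold uU
    by_cases h : θ ∈ (Ns v)ᶜ
    · rw [indicator_of_mem h, indicator_of_mem h, one_mul]
    · rw [indicator_of_notMem h, indicator_of_notMem h, zero_mul]
  rw [h1]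
  have h2 := hf.intervalIntegrable (μ := volume) a b
  exact ⟨h2.1.indicator (isClosed_Ns v).measurableSet.compl,
    h2.2.indicator (isClosed_Ns v).measurableSet.compl⟩

lemma intU1 (v : ι → ℂ) (a b : ℝ) : IntervalIntegrable (uU v) volume a b := by
  have := intU v (f := fun _ => (1 : ℝ)) continuous_const a b
  simpa using this

/-- the derivative of `y` -/
lemma deriv_y (ho : ∀ j, dt (o - v j) (o - v j) < 1) (hy : IsMn v y) {θ : ℝ} (hθ : θ ∉ Es v) :
    HasDerivAt y ((-(1 - uU v θ)) • (Complex.I * ev θ)) θ := by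
  by_cases h : θ ∈ Ns v
  · obtain ⟨j, hj⟩ := h
    rw [uU_of_mem ⟨j, hj⟩]
    have hev : ∀ᶠ s in 𝓝 θ, v j - ev s ∈ Ks v := by
      have : ∀ᶠ s in 𝓝 θ, ∀ k, dt (v j - ev s - v k) (v j - ev s - v k) ≤ 1 := by
        rw [eventually_all]
        intro k
        by_cases hjk : v j = v k
        · refine Eventually.of_forall fun s => ?_
          rw [hjk]
          have : v k - ev s - v k = - ev s := by ring
          rw [this, dt_neg_left, dt_neg_right, dt_ev]; norm_num
        · have hexp : ∀ s, dt (v j - ev s - v k) (v j - ev s - v k) =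
              dt (v j - v k) (v j - v k) - 2 * dt (v j - v k) (ev s) + 1 := by
            intro s
            have h1 : v j - ev s - v k = (v j - v k) - ev s := by ring
            rw [h1, dt_sub_left, dt_sub_right _ _ (v j - v k), dt_sub_right _ _ (ev s), dt_ev,
              dt_comm (ev s)]
            ring
          have hle := hj k
          rw [hexp] at hle
          have hne : dt (v j - v k) (ev θ) ≠ dt (v j - v k) (v j - v k) / 2 :=
            fun h => hθ ⟨j, k, hjk, h⟩
          have hlt : dt (v j - v k) (v j - v k) / 2 < dt (v j - v k) (ev θ) :=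
            lt_of_le_of_ne (by linarith) (Ne.symm hne)
          have hc : Continuous fun s => dt (v j - v k) (ev s) := by
            unfold dt; simp only [ev_re, ev_im]; fun_prop
          filter_upwards [(hc.tendsto θ).eventually_const_lt hlt] with s hs
          rw [hexp]; linarith
      filter_upwards [this] with s hs using hs
    have h2 : y =ᶠ[𝓝 θ] fun s => v j - ev s := by
      filter_upwards [hev] with s hs
      exact yN ho hy hs
    have h3 : HasDerivAt (fun s => v j - ev s) (-(Complex.I * ev θ)) θ :=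
      (hasDerivAt_ev θ).const_sub (v j)
    have h4 := h3.congr_of_eventuallyEq h2
    simpa using h4
  · rw [uU_of_notMem h]
    have h2 : y =ᶠ[𝓝 θ] fun _ => y θ := constU ho hy h
    have h4 := (hasDerivAt_const θ (y θ)).congr_of_eventuallyEq h2
    simpa using h4

lemma hasDerivAt_dt {f : ℝ → ℂ} {f' : ℂ} {t : ℝ} (hf : HasDerivAt f f' t) (w : ℂ) :
    HasDerivAt (fun s => dt (f s) w) (dt f' w) t := by
  have h1 : HasDerivAt (fun s => (f s).re) f'.re t := by
    have := Complex.reCLM.hasFDerivAt.comp_hasDerivAt t hf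
    exact this
  have h2 : HasDerivAt (fun s => (f s).im) f'.im t := by
    have := Complex.imCLM.hasFDerivAt.comp_hasDerivAt t hf
    exact this
  exact (h1.mul_const w.re).fun_add (h2.mul_const w.im)

lemma hasDerivAt_dt2 {f g : ℝ → ℂ} {f' g' : ℂ} {t : ℝ} (hf : HasDerivAt f f' t)
    (hg : HasDerivAt g g' t) :
    HasDerivAt (fun s => dt (f s) (g s)) (dt f' (g t) + dt (f t) g') t := by
  have h1 : HasDerivAt (fun s => (f s).re) f'.re t := by
    have := Complex.reCLM.hasFDerivAt.comp_hasDerivAt t hf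
    exact this
  have h2 : HasDerivAt (fun s => (f s).im) f'.im t := by
    have := Complex.imCLM.hasFDerivAt.comp_hasDerivAt t hf
    exact this
  have h3 : HasDerivAt (fun s => (g s).re) g'.re t := by
    have := Complex.reCLM.hasFDerivAt.comp_hasDerivAt t hg
    exact this
  have h4 : HasDerivAt (fun s => (g s).im) g'.im t := by
    have := Complex.imCLM.hasFDerivAt.comp_hasDerivAt t hg
    exact this
  have h5 := (h1.fun_mul h3).fun_add (h2.fun_mul h4)
  refine h5.congr_deriv ?_
  simp only [dt]; ring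

/-- the moving end point of the rotating segment -/
lemma step (ho : ∀ j, dt (o - v j) (o - v j) < 1) (hy : IsMn v y) (b : ℝ) {s t : ℝ} (hst : s ≤ t) :
    |dt (y t + ev t) (ev b) - dt (y s + ev s) (ev b)| ≤
      ∫ θ in s..t, uU v θ * |Real.sin (θ - b)| := by
  have hcy := conty ho hy
  have hce := continuous_ev
  have h1 : ∫ θ in s..t, uU v θ * (-Real.sin (θ - b)) =
      dt (y t + ev t) (ev b) - dt (y s + ev s) (ev b) := by
    refine integral_eq_of_hasDerivAt_off_countable_of_le
      (fun θ => dt (y θ + ev θ) (ev b)) (fun θ => uU v θ * (-Real.sin (θ - b))) hst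
      (countable_Es v) ?_ ?_ ?_
    · have : Continuous fun θ => dt (y θ + ev θ) (ev b) := by
        unfold dt; fun_prop
      exact this.continuousOn
    · intro θ hθ
      have h2 := deriv_y ho hy hθ.2
      have h3 := hasDerivAt_dt (h2.fun_add (hasDerivAt_ev θ)) (ev b)
      refine h3.congr_deriv ?_
      rw [Real.sin_sub]
      simp only [dt, ev_re, ev_im, Complex.add_re, Complex.add_im, Complex.real_smul,
        Complex.mul_re, Complex.mul_im, Complex.ofReal_re, Complex.ofReal_im, Complex.I_re,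
        Complex.I_im]
      ring
    · exact intU v (by fun_prop) s t
  rw [← h1]
  refine (intervalIntegral.abs_integral_le_integral_abs hst).trans (le_of_eq ?_)
  apply intervalIntegral.integral_congr
  intro θ _
  simp only [abs_mul, abs_neg]
  rw [abs_of_nonneg (uU_nonneg θ)]

/-- half of the measure of `U` weighted by `|sin (θ - b)|` -/
noncomputable def PU (v : ι → ℂ) (b : ℝ) : ℝ := (1 / 2) * ∫ θ in (0 : ℝ)..(2 * π), uU v θ * |Real.sin (θ - b)|

omit [Fintype ι] in
lemma PU_shift (v : ι → ℂ) (b s : ℝ) :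
    PU v b = (1 / 2) * ∫ θ in s..(s + 2 * π), uU v θ * |Real.sin (θ - b)| := by
  unfold PU
  have hp : Function.Periodic (fun θ => uU v θ * |Real.sin (θ - b)|) (2 * π) := by
    intro θ
    simp only
    rw [uU_per v θ]
    have : θ + 2 * π - b = (θ - b) + 2 * π := by ring
    rw [this, Real.sin_add_two_pi]
  have := hp.intervalIntegral_add_eq 0 s
  rw [zero_add] at this
  rw [this]

lemma PU_lower (ho : ∀ j, dt (o - v j) (o - v j) < 1) (hy : IsMn v y) (b : ℝ) :
    2 + dt (y b - y (b + π)) (ev b) ≤ PU v b := by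
  have hpi := Real.pi_pos
  have h1 := step ho hy b (s := b) (t := b + π) (by linarith)
  have h2 := step ho hy b (s := b + π) (t := b + 2 * π) (by linarith)
  have h3 : dt (y (b + π) + ev (b + π)) (ev b) = dt (y (b + π)) (ev b) - 1 := by
    rw [dt_add_left, ev_add_pi, dt_neg_left, dt_ev]; ring
  have h4 : dt (y b + ev b) (ev b) = dt (y b) (ev b) + 1 := by
    rw [dt_add_left, dt_ev]
  rw [pery ho hy, ev_add_two_pi, h3, h4] at h2
  rw [h3, h4] at h1
  have h5 := neg_le_of_abs_le h1
  have h6 := le_of_abs_le h2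
  have hint : ∀ a c : ℝ, IntervalIntegrable (fun θ => uU v θ * |Real.sin (θ - b)|) volume a c :=
    fun a c => intU v (by fun_prop) a c
  have h7 := intervalIntegral.integral_add_adjacent_intervals (hint b (b + π))
    (hint (b + π) (b + 2 * π))
  rw [PU_shift v b b, ← h7, dt_sub_left]
  linarith

/-- the integral of the support function of `Ks` -/
lemma area (ho : ∀ j, dt (o - v j) (o - v j) < 1) (hy : IsMn v y) :
    ∫ θ in (0 : ℝ)..(2 * π), dt (y θ) (ev θ) = (∫ θ in (0 : ℝ)..(2 * π), uU v θ) - 2 * π := by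
  have hcy := conty ho hy
  have hce := continuous_ev
  have hpi := Real.pi_pos
  have h1 : ∫ θ in (0 : ℝ)..(2 * π), ((1 - uU v θ) + dt (y θ) (ev θ)) =
      dt (y (2 * π)) (-(Complex.I * ev (2 * π))) - dt (y 0) (-(Complex.I * ev 0)) := by
    refine integral_eq_of_hasDerivAt_off_countable_of_le
      (fun θ => dt (y θ) (-(Complex.I * ev θ))) _ (by linarith)
      (countable_Es v) ?_ ?_ ?_
    · have : Continuous fun θ => dt (y θ) (-(Complex.I * ev θ)) := by
        unfold dt; fun_prop
      exact this.continuousOn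
    · intro θ hθ
      have h2 := deriv_y ho hy hθ.2
      have h3 := hasDerivAt_dt2 h2 ((hasDerivAt_ev θ).const_mul Complex.I).fun_neg
      refine h3.congr_deriv ?_
      have hsc := Real.sin_sq_add_cos_sq θ
      simp only [dt, ev_re, ev_im, Complex.real_smul, Complex.neg_re, Complex.neg_im,
        Complex.mul_re, Complex.mul_im, Complex.ofReal_re, Complex.ofReal_im, Complex.I_re,
        Complex.I_im]
      linear_combination (1 - uU v θ) * hsc
    · refine IntervalIntegrable.add ?_ ?_
      · exact (intervalIntegrable_const).sub (intU1 v _ _)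
      · apply Continuous.intervalIntegrable
        unfold dt; simp only [ev_re, ev_im]; fun_prop
  have h5 : y (2 * π) = y 0 := by
    have := pery ho hy 0
    rwa [zero_add] at this
  have h6 : ev (2 * π) = ev 0 := by
    have := ev_add_two_pi 0
    rwa [zero_add] at this
  rw [h5, h6, sub_self] at h1
  rw [intervalIntegral.integral_add, intervalIntegral.integral_sub] at h1
  · simp only [intervalIntegral.integral_const, sub_zero, smul_eq_mul, mul_one] at h1
    linarith
  · exact intervalIntegrable_const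
  · exact intU1 v _ _
  · exact (intervalIntegrable_const).sub (intU1 v _ _)
  · apply Continuous.intervalIntegrable
    unfold dt; simp only [ev_re, ev_im]; fun_prop

end

end Pool.Agent.K7.H36.RP
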