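import Pool.Agent.K7.H36.RP.Order
import Pool.Agent.K7.H36.RP.Num

/-!
# Truncation of a vertex; a minimiser among `9`-point hulls has nine vertices
-/

set_option autoImplicit false

open Real Set Filter Topology MeasureTheory

namespace Pool.Agent.K7.H36.RP

section

variable {ι κ : Type} [Fintype ι] [Fintype κ]

omit [Fintype ι] [Fintype κ] in
lemma Ks_anti {u : κ → ℂ} {v : ι → ℂ} (h : ∀ i, v i ∈ convexHull ℝ (range u)) :
    Ks u ⊆ Ks v := by
  intro y hy
  rw [mem_Ks_norm] at hy ⊢
  have h1 : convexHull ℝ (range u) ⊆ Metric.closedBall y 1 := by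
    apply convexHull_min _ (convex_closedBall _ _)
    rintro _ ⟨j, rfl⟩
    rw [Metric.mem_closedBall, dist_eq_norm, norm_sub_rev]
    exact hy j
  intro j
  have := h1 (h j)
  rwa [Metric.mem_closedBall, dist_eq_norm, norm_sub_rev] at this

omit [Fintype ι] [Fintype κ] in
lemma hull_sub {u : κ → ℂ} {v : ι → ℂ} (h : ∀ i, v i ∈ convexHull ℝ (range u)) :
    convexHull ℝ (range v) ⊆ convexHull ℝ (range u) := by
  apply convexHull_min _ (convex_convexHull ℝ _)
  rintro _ ⟨j, rfl⟩
  exact h j

/-- a minimal set of indices with the same convex hull -/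
lemma exists_sub (v : κ → ℂ) : ∃ S : Finset κ, (∀ i, v i ∈ convexHull ℝ (range fun x : S => v x)) ∧
    Ext (fun x : S => v x) := by
  classical
  obtain ⟨S, hS, hmin⟩ := Finset.exists_min_image
    ((Finset.univ : Finset (Finset κ)).filter
      (fun S : Finset κ => ∀ i, v i ∈ convexHull ℝ (range fun x : S => v x))) Finset.card
    ⟨Finset.univ, by
      simp only [Finset.mem_filter, Finset.mem_univ, true_and]
      intro i
      exact subset_convexHull ℝ _ ⟨⟨i, Finset.mem_univ i⟩, rfl⟩⟩
  simp only [Finset.mem_filter, Finset.mem_univ, true_and] at hS hmin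
  refine ⟨S, hS, fun a ha => ?_⟩
  have himg : (fun x : S => v x) '' {a}ᶜ = range fun x : (S.erase a.1 : Finset κ) => v x := by
    ext z
    constructor
    · rintro ⟨x, hx, rfl⟩
      refine ⟨⟨x.1, Finset.mem_erase.2 ⟨fun h => hx (Subtype.ext h), x.2⟩⟩, rfl⟩
    · rintro ⟨x, rfl⟩
      have h1 := Finset.mem_erase.1 x.2
      exact ⟨⟨x.1, h1.2⟩, fun h => h1.1 (congrArg Subtype.val h), rfl⟩
  rw [himg] at ha
  have h2 : ∀ x : S, v x ∈ convexHull ℝ (range fun x : (S.erase a.1 : Finset κ) => v x) := by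
    intro x
    by_cases hx : x = a
    · rw [hx]; exact ha
    · exact subset_convexHull ℝ _ ⟨⟨x.1, Finset.mem_erase.2
        ⟨fun h => hx (Subtype.ext h), x.2⟩⟩, rfl⟩
  have h3 := hmin (S.erase a.1) (fun i => hull_sub h2 (hS i))
  have h4 := Finset.card_erase_lt_of_mem a.2
  omega

lemma two_pts (p q : ℂ) : ∃ n : ℂ, dt n n = 1 ∧ dt p n = dt q n := by
  by_cases h : p = q
  · exact ⟨1, by simp [dt], by rw [h]⟩
  · have h0 : 0 < ‖Complex.I * (q - p)‖ := by
      rw [norm_pos_iff]
      exact mul_ne_zero Complex.I_ne_zero (sub_ne_zero.2 (Ne.symm h))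
    refine ⟨(1 / ‖Complex.I * (q - p)‖) • (Complex.I * (q - p)), ?_, ?_⟩
    · rw [dt_smul_left, dt_smul_right, dt_self]; field_simp
    · rw [dt_smul_right, dt_smul_right]
      congr 1
      simp only [dt, Complex.mul_re, Complex.mul_im, Complex.I_re, Complex.I_im, Complex.sub_re,
        Complex.sub_im]
      ring

lemma card_ge [Nonempty ι] {u : ι → ℂ} {o : ℂ} (ho : ∀ j, dt (o - u j) (o - u j) < 1)
    (hK : Ks u ⊆ convexHull ℝ (range u)) : 3 ≤ Fintype.card ι := by
  classical
  by_contra hcon
  obtain ⟨a⟩ := ‹Nonempty ι›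
  obtain ⟨b, hb⟩ : ∃ b, ∀ i, i = a ∨ i = b := by
    by_cases h : ∃ b, b ≠ a
    · obtain ⟨b, hb⟩ := h
      refine ⟨b, fun i => ?_⟩
      by_contra h2
      push Not at h2
      have h3 : ({a, b, i} : Finset ι).card = 3 :=
        Finset.card_eq_three.2 ⟨a, b, i, hb.symm, h2.1.symm, h2.2.symm, rfl⟩
      have h4 := Finset.card_le_univ ({a, b, i} : Finset ι)
      omega
    · push Not at h
      exact ⟨a, fun i => Or.inl (h i)⟩
  obtain ⟨n, hn, hpq⟩ := two_pts (u a) (u b)
  have hall : ∀ i, dt (u i) n = dt (u a) n := by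
    intro i
    rcases hb i with rfl | rfl
    · rfl
    · exact hpq.symm
  have hev : ∀ i, ∀ᶠ ε : ℝ in 𝓝[>] 0, dt (o + ε • n - u i) (o + ε • n - u i) < 1 := by
    intro i
    have hc : Continuous fun ε : ℝ => dt (o + ε • n - u i) (o + ε • n - u i) := by
      simp only [dt, Complex.sub_re, Complex.sub_im, Complex.add_re, Complex.add_im,
        Complex.real_smul, Complex.mul_re, Complex.mul_im, Complex.ofReal_re, Complex.ofReal_im]
      fun_prop
    have h1 : (fun ε : ℝ => dt (o + ε • n - u i) (o + ε • n - u i)) 0 < 1 := by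
      simpa using ho i
    exact (hc.continuousAt.eventually_lt_const h1).filter_mono nhdsWithin_le_nhds
  have h3 : ∀ᶠ t : ℝ in 𝓝[>] 0, 0 < t := eventually_mem_nhdsWithin
  obtain ⟨ε, hε, hε0⟩ := ((eventually_all.2 hev).and h3).exists
  have h4 : o + ε • n ∈ convexHull ℝ (range u) := hK fun j => (hε j).le
  have h5 : o ∈ convexHull ℝ (range u) := hK fun j => (ho j).le
  have h6 := hull_half h4 (n := n) (B := dt (u a) n) (fun j => (hall j).le)
  have h7 := hull_half h5 (n := -n) (B := -dt (u a) n) (fun j => by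
    rw [dt_neg_right, hall j])
  rw [dt_add_left, dt_smul_left, hn] at h6
  rw [dt_neg_right] at h7
  linarith

end

section

variable {ι : Type} [Fintype ι] [Nonempty ι] {u : ι → ℂ} {σ : Equiv.Perm ι} {o : ℂ}

/-- cutting off a vertex -/
lemma trunc (hX : Ext u) (hE : EC u σ) (h1 : ∀ j, σ j ≠ j) (h2 : ∀ j, σ (σ j) ≠ j)
    (ho : ∀ j, dt (o - u j) (o - u j) < 1) (hK : Ks u ⊆ convexHull ℝ (range u)) {a : ι}
    (ha : ¬ ((∃ z ∈ Ks u, dt (z - u a) (z - u a) = 1) ∨ u a ∈ Ks u)) :
    ∃ p' p'' : ℂ, ∀ (κ : Type) [Fintype κ] [Nonempty κ] (w : κ → ℂ),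
      range w = u '' {a}ᶜ ∪ {p', p''} → Ks w ⊆ convexHull ℝ (range w) ∧ Hn w < Hn u := by
  classical
  rw [not_or] at ha
  obtain ⟨ha1, ha2⟩ := ha
  push Not at ha1
  -- dropping the constraint at `a`
  have hdrop : ∀ y, (∀ j, j ≠ a → dt (y - u j) (y - u j) ≤ 1) → y ∈ Ks u := by
    intro y hy
    by_contra hcon
    have hya : 1 < dt (y - u a) (y - u a) := by
      by_contra h
      push Not at h
      apply hcon
      intro j
      by_cases hj : j = a
      · rw [hj]; exact h
      · exact hy j hj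
    have hc : Continuous fun t : ℝ => dt ((1 - t) • o + t • y - u a) ((1 - t) • o + t • y - u a) := by
      simp only [dt, Complex.sub_re, Complex.sub_im, Complex.add_re, Complex.add_im,
        Complex.real_smul, Complex.mul_re, Complex.mul_im, Complex.ofReal_re, Complex.ofReal_im]
      fun_prop
    have hivt := intermediate_value_Icc (zero_le_one' ℝ) hc.continuousOn
    obtain ⟨t, ht, hft⟩ := hivt ⟨by simpa using (ho a).le, by simpa using hya.le⟩
    simp only at hft
    apply ha1 _ _ hft
    intro j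
    by_cases hj : j = a
    · rw [hj]; exact hft.le
    · have e1 : ‖o - u j‖ ≤ 1 := by
        have := ho j
        rw [dt_self] at this; nlinarith [norm_nonneg (o - u j)]
      have e2 : ‖y - u j‖ ≤ 1 := by
        have := hy j hj
        rw [dt_self] at this; nlinarith [norm_nonneg (y - u j)]
      have e3 : (1 - t) • o + t • y - u j = (1 - t) • (o - u j) + t • (y - u j) := by
        simp only [Complex.real_smul]; push_cast; ring
      have e4 : ‖(1 - t) • o + t • y - u j‖ ≤ 1 := by
        rw [e3]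
        refine (norm_add_le _ _).trans ?_
        rw [norm_smul, norm_smul, Real.norm_eq_abs, Real.norm_eq_abs, abs_of_nonneg ht.1,
          abs_of_nonneg (by linarith [ht.2])]
        nlinarith [ht.1, ht.2]
      rw [dt_self]
      nlinarith [norm_nonneg ((1 - t) • o + t • y - u j)]
  obtain ⟨n, hn⟩ := hX.sep a
  -- positivity on the hull
  have hposn : ∀ z ∈ convexHull ℝ (range u), z ≠ u a → 0 < dt (z - u a) n := by
    intro z hz hne
    obtain ⟨w, hw0, hw1, hw2⟩ := mem_hull.1 hz
    have e : z - u a = ∑ i, w i • (u i - u a) := by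
      simp only [smul_sub, Finset.sum_sub_distrib]
      rw [← Finset.sum_smul, hw1, one_smul, hw2]
    have hterm : ∀ i ∈ (Finset.univ : Finset ι), 0 ≤ w i * dt (u i - u a) n := by
      intro i _
      by_cases hi : i = a
      · rw [hi, sub_self, dt_zero_left, mul_zero]
      · exact mul_nonneg (hw0 i) (hn i hi).le
    have e2 : dt (z - u a) n = ∑ i, w i * dt (u i - u a) n := by rw [e, dt_sum_left]
    rcases (Finset.sum_nonneg hterm).lt_or_eq with h | h
    · rw [e2]; exact h
    · exfalso
      apply hne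
      have h3 := (Finset.sum_eq_zero_iff_of_nonneg hterm).1 h.symm
      have h4 : ∑ i, w i • (u i - u a) = 0 := by
        apply Finset.sum_eq_zero
        intro i hi
        rcases mul_eq_zero.1 (h3 i hi) with h5 | h5
        · rw [h5, zero_smul]
        · by_cases hia : i = a
          · rw [hia, sub_self, smul_zero]
          · exact absurd h5 (hn i hia).ne'
      rw [h4] at e
      exact sub_eq_zero.1 e
  -- the height
  obtain ⟨h, hh0, hhK, hhl⟩ : ∃ h : ℝ, 0 < h ∧ (∀ z ∈ Ks u, h ≤ dt (z - u a) n) ∧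
      ∀ l, l ≠ a → h ≤ dt (u l - u a) n := by
    have hcz : Continuous fun z : ℂ => dt (z - u a) n := by
      unfold dt; fun_prop
    have hoK : o ∈ Ks u := fun j => (ho j).le
    obtain ⟨z0, hz0, hmin⟩ := (isCompact_Ks u).exists_isMinOn ⟨o, hoK⟩ hcz.continuousOn
    have hz0p : 0 < dt (z0 - u a) n := hposn z0 (hK hz0) (by
      rintro rfl; exact ha2 hz0)
    obtain ⟨l0, hl0, hminl⟩ := Finset.exists_min_image (Finset.univ.erase a)
      (fun l => dt (u l - u a) n) ⟨σ a, Finset.mem_erase.2 ⟨h1 a, Finset.mem_univ _⟩⟩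
    have hl0p : 0 < dt (u l0 - u a) n := hn l0 (Finset.mem_erase.1 hl0).1
    refine ⟨min (dt (z0 - u a) n) (dt (u l0 - u a) n), lt_min hz0p hl0p, ?_, ?_⟩
    · intro z hz
      exact (min_le_left _ _).trans (isMinOn_iff.1 hmin z hz)
    · intro l hl
      exact (min_le_right _ _).trans (hminl l (Finset.mem_erase.2 ⟨hl, Finset.mem_univ _⟩))
  have hsa : σ.symm a ≠ a := by
    intro h
    have := h1 (σ.symm a)
    rw [Equiv.apply_symm_apply, h] at this
    exact this rfl
  set A := dt (u (σ a) - u a) n with hA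
  set B := dt (u (σ.symm a) - u a) n with hB
  have hAh : h ≤ A := hhl _ (h1 a)
  have hBh : h ≤ B := hhl _ hsa
  have hA0 : 0 < A := hh0.trans_le hAh
  have hB0 : 0 < B := hh0.trans_le hBh
  refine ⟨u a + (h / B) • (u (σ.symm a) - u a), u a + (h / A) • (u (σ a) - u a), ?_⟩
  intro κ _ _ w hw
  set p' := u a + (h / B) • (u (σ.symm a) - u a) with hp'
  set p'' := u a + (h / A) • (u (σ a) - u a) with hp''
  have hmem : ∀ x : ι, u x ∈ convexHull ℝ (range u) := fun x => subset_convexHull ℝ _ ⟨x, rfl⟩
  have hp'h : p' ∈ convexHull ℝ (range u) :=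
    seg_mem (S := range u) (p := u a) (q := u (σ.symm a)) ⟨a, rfl⟩ ⟨_, rfl⟩
      (div_nonneg hh0.le hB0.le) ((div_le_one hB0).2 hBh) (by rw [hp']; ring)
  have hp''h : p'' ∈ convexHull ℝ (range u) :=
    seg_mem (S := range u) (p := u a) (q := u (σ a)) ⟨a, rfl⟩ ⟨_, rfl⟩
      (div_nonneg hh0.le hA0.le) ((div_le_one hA0).2 hAh) (by rw [hp'']; ring)
  have hp'n : dt (p' - u a) n = h := by
    rw [hp', add_sub_cancel_left, dt_smul_left, ← hB, div_mul_cancel₀ _ hB0.ne']
  have hp''n : dt (p'' - u a) n = h := by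
    rw [hp'', add_sub_cancel_left, dt_smul_left, ← hA, div_mul_cancel₀ _ hA0.ne']
  have hwcase : ∀ i, (∃ j, j ≠ a ∧ w i = u j) ∨ w i = p' ∨ w i = p'' := by
    intro i
    have : w i ∈ u '' {a}ᶜ ∪ {p', p''} := by rw [← hw]; exact ⟨i, rfl⟩
    rcases this with ⟨j, hj, e⟩ | h3
    · exact Or.inl ⟨j, hj, e.symm⟩
    · exact Or.inr h3
  have hwh : ∀ i, w i ∈ convexHull ℝ (range u) := by
    intro i
    rcases hwcase i with ⟨j, -, e⟩ | e | e <;> rw [e]
    · exact hmem j
    · exact hp'h
    · exact hp''h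
  have hwu : ∀ j, j ≠ a → ∃ i, w i = u j := by
    intro j hj
    have : u j ∈ range w := by rw [hw]; exact Or.inl ⟨j, hj, rfl⟩
    exact this
  have hwp' : ∃ i, w i = p' := by
    have : p' ∈ range w := by rw [hw]; exact Or.inr (by simp)
    exact this
  have hwp'' : ∃ i, w i = p'' := by
    have : p'' ∈ range w := by rw [hw]; exact Or.inr (by simp)
    exact this
  refine ⟨?_, ?_⟩
  · intro z hz
    have hzK : z ∈ Ks u := hdrop z fun j hj => by
      obtain ⟨i, hi⟩ := hwu j hj
      rw [← hi]; exact hz i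
    have hzh := hK hzK
    have hzn := hhK z hzK
    by_contra hcon
    obtain ⟨m, hm⟩ := sep (finite_range w) hcon
    have hmw : ∀ i, dt (w i) m < dt z m := fun i => hm _ ⟨i, rfl⟩
    have hc2 := hull_half_cr hE hzh (σ.symm a)
    rw [Equiv.apply_symm_apply] at hc2
    obtain ⟨α, β, hα, hβ, e⟩ := cone_rep hE h1 h2 a (hull_half_cr hE hzh a) hc2
    have en : dt (z - u a) n = α * A + β * B := by
      rw [e, dt_add_left, dt_smul_left, dt_smul_left]
    have em : dt (z - u a) m = α * dt (u (σ a) - u a) m + β * dt (u (σ.symm a) - u a) m := by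
      rw [e, dt_add_left, dt_smul_left, dt_smul_left]
    obtain ⟨i', hi'⟩ := hwp'
    obtain ⟨i'', hi''⟩ := hwp''
    have m' : dt (p' - u a) m < dt (z - u a) m := by
      rw [dt_sub_left, dt_sub_left, ← hi']; linarith [hmw i']
    have m'' : dt (p'' - u a) m < dt (z - u a) m := by
      rw [dt_sub_left, dt_sub_left, ← hi'']; linarith [hmw i'']
    have f' : h * dt (u (σ.symm a) - u a) m = B * dt (p' - u a) m := by
      rw [hp', add_sub_cancel_left, dt_smul_left]; field_simp
    have f'' : h * dt (u (σ a) - u a) m = A * dt (p'' - u a) m := by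
      rw [hp'', add_sub_cancel_left, dt_smul_left]; field_simp
    set D := dt (z - u a) m with hD
    have hD0 : 0 < D := by
      by_contra hD1
      push Not at hD1
      -- h D = α A P'' + β B P' < (α A + β B) D ≤ h D
      have g1 : h * D = α * A * dt (p'' - u a) m + β * B * dt (p' - u a) m := by
        rw [em, mul_add]
        have : h * (α * dt (u (σ a) - u a) m) = α * (h * dt (u (σ a) - u a) m) := by ring
        rw [this, f'']
        have : h * (β * dt (u (σ.symm a) - u a) m) = β * (h * dt (u (σ.symm a) - u a) m) := by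
          ring
        rw [this, f']; ring
      have g2 : (α * A + β * B) * D ≤ h * D := by
        rw [← en]
        exact mul_le_mul_of_nonpos_right hzn hD1
      have g3 : 0 < α * A + β * B := by rw [← en]; exact hh0.trans_le hzn
      have g4 : 0 ≤ α * A := mul_nonneg hα hA0.le
      have g5 : 0 ≤ β * B := mul_nonneg hβ hB0.le
      have g6 : α * A * dt (p'' - u a) m ≤ α * A * D := mul_le_mul_of_nonneg_left m''.le g4
      have g7 : β * B * dt (p' - u a) m ≤ β * B * D := mul_le_mul_of_nonneg_left m'.le g5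
      rcases g4.lt_or_eq with g8 | g8
      · have := mul_lt_mul_of_pos_left m'' g8
        linarith
      · have g9 : 0 < β * B := by rw [← g8] at g3; linarith
        have := mul_lt_mul_of_pos_left m' g9
        linarith
    have hlt : ∀ j, dt (u j) m < dt z m := by
      intro j
      by_cases hj : j = a
      · rw [hj]
        rw [hD, dt_sub_left] at hD0
        linarith
      · obtain ⟨i, hi⟩ := hwu j hj
        rw [← hi]; exact hmw i
    exact lt_irrefl _ (hull_lt hzh hlt)
  · apply Hn_lt (m := -n) (a := a) hwh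
    intro i
    rw [dt_neg_right, dt_neg_right]
    have : 0 < dt (w i - u a) n := by
      rcases hwcase i with ⟨j, hj, e⟩ | e | e <;> rw [e]
      · exact hn j hj
      · rw [hp'n]; exact hh0
      · rw [hp''n]; exact hh0
    rw [dt_sub_left] at this
    linarith

lemma exists_b {z : ℂ} (hz : z ≠ 0) : ∃ b : ℝ, z = ‖z‖ • (Complex.I * ev b) := by
  have h1 : -Complex.I * z ≠ 0 := mul_ne_zero (neg_ne_zero.2 Complex.I_ne_zero) hz
  obtain ⟨φ, hφ⟩ := exists_polar h1
  rw [norm_mul, norm_neg, Complex.norm_I, one_mul] at hφ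
  refine ⟨φ, ?_⟩
  have h2 : z = Complex.I * (-Complex.I * z) := by
    rw [← mul_assoc, mul_neg, Complex.I_mul_I, neg_neg, one_mul]
  conv_lhs => rw [h2, hφ]
  simp only [Complex.real_smul]
  ring

end

/-- a minimiser has only extreme points -/
theorem min_ext {κ : Type} [Fintype κ] [Nonempty κ] (hcard : Fintype.card κ = 9) {v : κ → ℂ}
    (hK : Ks v ⊆ convexHull ℝ (range v)) (hH : Hn v ≤ 31739 / 10000)
    (hmin : ∀ w : κ → ℂ, Ks w ⊆ convexHull ℝ (range w) → Hn v ≤ Hn w) : Ext v := by
  classical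
  obtain ⟨S, hS, hX⟩ := exists_sub v
  obtain ⟨o, -, ho⟩ := centre (v := v) (by omega) (by linarith)
  set u : S → ℂ := fun x => v x with hu
  have hne : Nonempty S := by
    by_contra hcon
    rw [not_nonempty_iff] at hcon
    obtain ⟨i⟩ := ‹Nonempty κ›
    have := hS i
    rw [range_eq_empty, convexHull_empty] at this
    exact this
  have huv : ∀ x, u x ∈ convexHull ℝ (range v) := fun x => subset_convexHull ℝ _ ⟨x.1, rfl⟩
  have hHu : Hn u = Hn v := le_antisymm (Hn_mono huv) (Hn_mono hS)
  have hKu : Ks u ⊆ convexHull ℝ (range u) := fun z hz =>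
    hull_sub hS (hK (Ks_anti hS hz))
  have hou : ∀ j, dt (o - u j) (o - u j) < 1 := fun j => ho j
  have hc3 : 3 ≤ Fintype.card S := card_ge hou hKu
  obtain ⟨σ, hE, h1, h2⟩ := hX.exists_succ hc3
  have hcyc := hX.cycle hE h1 h2
  have hT := cyc_TV hcyc
  have hLg := Hn_eq_Lg hE hT
  by_cases hlt : Fintype.card S ≤ 8
  · exfalso
    -- `hS`
    have hSt : ∀ j, (∃ z ∈ Ks u, dt (z - u j) (z - u j) = 1) ∨ u j ∈ Ks u := by
      intro a
      by_contra hcon
      obtain ⟨p', p'', hp⟩ := trunc hX hE h1 h2 hou hKu hcon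
      obtain ⟨r, hr⟩ : ∃ r, r ∉ S := by
        by_contra h
        push Not at h
        have : S = Finset.univ := Finset.eq_univ_of_forall h
        rw [Fintype.card_coe, this, Finset.card_univ] at hlt
        omega
      have hra : r ≠ a.1 := by rintro rfl; exact hr a.2
      set w : κ → ℂ := fun i => if i = r then p'' else if i ∈ S ∧ i ≠ a.1 then v i else p' with hw
      have hrange : range w = u '' {a}ᶜ ∪ {p', p''} := by
        ext z
        constructor
        · rintro ⟨i, rfl⟩
          simp only [hw]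
          split_ifs with h3 h4
          · right; simp
          · left; exact ⟨⟨i, h4.1⟩, fun h => h4.2 (congrArg Subtype.val h), rfl⟩
          · right; simp
        · rintro (⟨x, hx, rfl⟩ | h3)
          · refine ⟨x.1, ?_⟩
            simp only [hw]
            rw [if_neg (by rintro rfl; exact hr x.2), if_pos ⟨x.2, fun h => hx (Subtype.ext h)⟩]
          · simp only [mem_insert_iff, mem_singleton_iff] at h3
            rcases h3 with rfl | rfl
            · refine ⟨a.1, ?_⟩
              simp only [hw]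
              rw [if_neg hra.symm, if_neg (by simp)]
            · exact ⟨r, by simp [hw]⟩
      obtain ⟨h3, h4⟩ := hp κ w hrange
      have h5 := hmin w h3
      linarith
    obtain ⟨y, hy⟩ := exists_mn (v := u) (o := o) (fun j => (hou j).le)
    have hne' : ∀ j, u (σ j) - u j ≠ 0 := by
      intro j h
      have h3 := hE (σ j) j (h1 j).symm (h2 j).symm
      have h4 : u j - u (σ j) = 0 := by rw [← neg_sub, h, neg_zero]
      rw [h4, cr_zero_right] at h3
      exact lt_irrefl _ h3
    choose b hb using fun j => exists_b (hne' j)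
    have C : Conf u σ o y b (fun j => ‖u (σ j) - u j‖) :=
      { ho := hou, hy := hy, hE := hE, hT := hT, h1 := h1, h2 := h2, hK := hKu,
        hℓ := fun j => norm_pos_iff.2 (hne' j), hb := hb, hS := hSt }
    exact C.absurd hlt (by rw [← hLg, hHu]; exact hH)
  · have hSu : S = Finset.univ := by
      apply Finset.eq_univ_of_card
      have h3 := Finset.card_le_univ S
      rw [Fintype.card_coe] at hlt
      omega
    subst hSu
    intro a
    have h3 := hX ⟨a, Finset.mem_univ a⟩
    have h4 : (fun x : (Finset.univ : Finset κ) => v x) '' {⟨a, Finset.mem_univ a⟩}ᶜ =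
        v '' {a}ᶜ := by
      ext z
      constructor
      · rintro ⟨x, hx, rfl⟩
        exact ⟨x.1, fun h => hx (Subtype.ext h), rfl⟩
      · rintro ⟨x, hx, rfl⟩
        exact ⟨⟨x, Finset.mem_univ x⟩, fun h => hx (congrArg Subtype.val h), rfl⟩
    rw [← h4]
    exact h3

end Pool.Agent.K7.H36.RP
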